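import Mathlib

open Real Finset MeasureTheory

set_option autoImplicit false

namespace Pool.Agent.LiebT2

/-- Wallis integrals -/
noncomputable def SS (n : ℕ) : ℝ := ∫ x in (0 : ℝ)..π, sin x ^ n

/-- `((t^2 - η^2)_+)^{1/2}` -/
noncomputable def qq (t η : ℝ) : ℝ := √(max (t ^ 2 - η ^ 2) 0)

theorem qq_nonneg (t η : ℝ) : 0 ≤ qq t η := Real.sqrt_nonneg _

theorem qq_sq (t η : ℝ) : qq t η ^ 2 = max (t ^ 2 - η ^ 2) 0 := Real.sq_sqrt (le_max_right _ _)

theorem qq_zero_of_le {t η : ℝ} (h : t ^ 2 ≤ η ^ 2) : qq t η = 0 := by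
  unfold qq
  rw [max_eq_right (by linarith), Real.sqrt_zero]

theorem continuous_qq : Continuous (fun p : ℝ × ℝ => qq p.1 p.2) := by
  unfold qq
  fun_prop

theorem integral_qq {t B : ℝ} (ht : 0 ≤ t) (hB : t ≤ B) {m : ℕ} (hm : m ≠ 0) :
    ∫ η in (-B)..B, qq t η ^ m = t ^ (m + 1) * SS (m + 1) := by
  have hc : Continuous (fun η => qq t η ^ m) :=
    (continuous_qq.comp (continuous_const.prodMk continuous_id)).pow m
  have h1 : ∫ η in (-B)..(-t), qq t η ^ m = 0 := by
    rw [← intervalIntegral.integral_zero (a := -B) (b := -t) (μ := volume) (E := ℝ)]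
    apply intervalIntegral.integral_congr
    intro η hη
    rw [Set.uIcc_of_le (by linarith)] at hη
    simp only
    rw [qq_zero_of_le (by nlinarith [hη.1, hη.2]), zero_pow hm]
  have h2 : ∫ η in t..B, qq t η ^ m = 0 := by
    rw [← intervalIntegral.integral_zero (a := t) (b := B) (μ := volume) (E := ℝ)]
    apply intervalIntegral.integral_congr
    intro η hη
    rw [Set.uIcc_of_le (by linarith)] at hη
    simp only
    rw [qq_zero_of_le (by nlinarith [hη.1, hη.2]), zero_pow hm]
  have h3 : ∫ η in (-t)..t, qq t η ^ m = t ^ (m + 1) * SS (m + 1) := by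
    have hsub := intervalIntegral.integral_comp_mul_deriv (a := 0) (b := π)
      (f := fun θ => -(t * cos θ)) (f' := fun θ => t * sin θ) (g := fun η => qq t η ^ m)
      (fun θ _ => by
        have := ((Real.hasDerivAt_cos θ).const_mul t).neg
        refine this.congr_deriv ?_
        ring) (by fun_prop) hc
    simp only [Real.cos_zero, Real.cos_pi, mul_one, mul_neg, neg_neg] at hsub
    rw [← hsub]
    unfold SS
    rw [← intervalIntegral.integral_const_mul]
    apply intervalIntegral.integral_congr
    intro θ hθ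
    rw [Set.uIcc_of_le Real.pi_pos.le] at hθ
    have hs := Real.sin_nonneg_of_nonneg_of_le_pi hθ.1 hθ.2
    have e : qq t (-(t * cos θ)) = t * sin θ := by
      unfold qq
      have : t ^ 2 - (-(t * cos θ)) ^ 2 = (t * sin θ) ^ 2 := by
        have := Real.sin_sq_add_cos_sq θ
        have h4 : sin θ ^ 2 = 1 - cos θ ^ 2 := by linarith
        rw [mul_pow, h4]
        ring
      rw [this, max_eq_left (sq_nonneg _), Real.sqrt_sq (by positivity)]
    simp only [Function.comp_apply, e]
    ring
  rw [← intervalIntegral.integral_add_adjacent_intervals (b := -t) (hc.intervalIntegrable _ _)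
    (hc.intervalIntegrable _ _), ← intervalIntegral.integral_add_adjacent_intervals (a := -t) (b := t)
    (hc.intervalIntegrable _ _) (hc.intervalIntegrable _ _), h1, h2, h3]
  ring

theorem SS_two : SS 2 = π / 2 := by
  unfold SS
  rw [integral_sin_sq]
  simp

theorem SS_succ_succ (n : ℕ) : SS (n + 2) = ((n : ℝ) + 1) / ((n : ℝ) + 2) * SS n := by
  unfold SS
  rw [integral_sin_pow]
  simp

theorem SS_four : SS 4 = 3 * π / 8 := by
  rw [show (4 : ℕ) = 2 + 2 from rfl, SS_succ_succ, SS_two]
  push_cast
  ring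

/-- the two moments used in the Aizenman-Lieb step -/
theorem integral_eta_qq {t B : ℝ} (ht : 0 ≤ t) (hB : t ≤ B) :
    ∫ η in (-B)..B, η ^ 2 * qq t η = π * t ^ 4 / 8 := by
  have hc : ∀ m : ℕ, Continuous (fun η => qq t η ^ m) := fun m =>
    (continuous_qq.comp (continuous_const.prodMk continuous_id)).pow m
  have e : ∀ η, η ^ 2 * qq t η = t ^ 2 * qq t η ^ 1 - qq t η ^ 3 := by
    intro η
    have h := qq_sq t η
    rcases le_total (t ^ 2) (η ^ 2) with h1 | h1
    · rw [qq_zero_of_le h1]; ring
    · rw [max_eq_left (by linarith)] at h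
      have : qq t η ^ 3 = qq t η * qq t η ^ 2 := by ring
      rw [this, h]
      ring
  simp only [e]
  have h1 : IntervalIntegrable (fun η => t ^ 2 * qq t η ^ 1) volume (-B) B :=
    (continuous_const.mul (hc 1)).intervalIntegrable _ _
  rw [intervalIntegral.integral_sub h1
    ((hc 3).intervalIntegrable _ _), intervalIntegral.integral_const_mul,
    integral_qq ht hB one_ne_zero, integral_qq ht hB (by norm_num), SS_two, SS_four]
  ring

end Pool.Agent.LiebT2
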