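import Mathlib

open Real Finset Matrix MeasureTheory

set_option autoImplicit false

namespace Pool.Agent.LiebT2

set_option linter.unusedSectionVars false

section param

variable {Y : Type*} [TopologicalSpace Y] [MeasurableSpace Y] [OpensMeasurableSpace Y]
  {μ : Measure Y} [IsFiniteMeasureOnCompacts μ] [IsLocallyFiniteMeasure μ]
  {E : Type*} [NormedAddCommGroup E] [NormedSpace ℝ E]

theorem continuous_param [SecondCountableTopologyEither Y E] {g : ℝ → Y → E}
    (hg : Continuous (Function.uncurry g)) {K : Set Y} (hK : IsCompact K)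
    (h0 : ∀ x y, y ∉ K → g x y = 0) : Continuous (fun x => ∫ y, g x y ∂μ) := by
  have e : (fun x => ∫ y, g x y ∂μ) = fun x => ∫ y in K, g x y ∂μ := by
    funext x
    exact (setIntegral_eq_integral_of_forall_compl_eq_zero fun y hy => h0 x y hy).symm
  rw [e]
  exact continuous_parametric_integral_of_continuous hg hK

theorem hasDerivAt_param [SecondCountableTopologyEither Y E] [CompleteSpace E] [T2Space Y]
    {g g' : ℝ → Y → E}
    (hg : Continuous (Function.uncurry g)) (hg' : Continuous (Function.uncurry g'))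
    (hd : ∀ x y, HasDerivAt (fun t => g t y) (g' x y) x) {K : Set Y} (hK : IsCompact K)
    (h0 : ∀ x y, y ∉ K → g x y = 0) (h0' : ∀ x y, y ∉ K → g' x y = 0) (x₀ : ℝ) :
    HasDerivAt (fun x => ∫ y, g x y ∂μ) (∫ y, g' x₀ y ∂μ) x₀ := by
  have e : (fun x => ∫ y, g x y ∂μ) = fun x => ∫ y in K, g x y ∂μ := by
    funext x
    exact (setIntegral_eq_integral_of_forall_compl_eq_zero fun y hy => h0 x y hy).symm
  have e' : ∫ y, g' x₀ y ∂μ = ∫ y in K, g' x₀ y ∂μ :=
    (setIntegral_eq_integral_of_forall_compl_eq_zero fun y hy => h0' x₀ y hy).symm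
  rw [e, e']
  obtain ⟨C, hC⟩ := (isCompact_Icc (a := x₀ - 1) (b := x₀ + 1)).prod hK |>.exists_bound_of_continuousOn
    hg'.continuousOn
  have hgx : ∀ x, Continuous (g x) := fun x => hg.comp (Continuous.prodMk_right x)
  have hgx' : ∀ x, Continuous (g' x) := fun x => hg'.comp (Continuous.prodMk_right x)
  refine (hasDerivAt_integral_of_dominated_loc_of_deriv_le (s := Set.Icc (x₀ - 1) (x₀ + 1))
    (bound := fun _ => C) (F := g) (F' := g') (Icc_mem_nhds (by linarith) (by linarith)) ?_ ?_ ?_ ?_ ?_ ?_).2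
  · exact Filter.Eventually.of_forall fun x => (hgx x).aestronglyMeasurable
  · exact (hgx x₀).continuousOn.integrableOn_compact hK
  · exact (hgx' x₀).aestronglyMeasurable
  · rw [ae_restrict_iff' hK.measurableSet]
    refine Filter.Eventually.of_forall fun y hy x hx => ?_
    exact hC (x, y) ⟨hx, hy⟩
  · exact integrableOn_const (hK.measure_lt_top).ne
  · exact Filter.Eventually.of_forall fun y x _ => hd x y

end param

/-- `(x, y) ↦ Fin.cons x y` -/
noncomputable def cL (k : ℕ) : (ℝ × (Fin k → ℝ)) ≃L[ℝ] (Fin (k + 1) → ℝ) :=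
  Fin.consEquivL ℝ (fun _ => ℝ)

theorem cL_apply (k : ℕ) (p : ℝ × (Fin k → ℝ)) : cL k p = Fin.cons p.1 p.2 := rfl

theorem integral_cL {E : Type*} [NormedAddCommGroup E] [NormedSpace ℝ E] (k : ℕ)
    (F : (Fin (k + 1) → ℝ) → E) : ∫ z, F z = ∫ p : ℝ × (Fin k → ℝ), F (cL k p) := by
  have h := ((volume_preserving_piFinSuccAbove (fun _ : Fin (k + 1) => ℝ) 0).symm).integral_comp' F
  rw [← h]
  congr 1
  funext p
  congr 1
  rw [MeasurableEquiv.piFinSuccAbove_symm_apply, cL_apply]
  exact Fin.insertNth_zero' _ _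

theorem norm_cL_ge1 (k : ℕ) (x : ℝ) (y : Fin k → ℝ) : |x| ≤ ‖cL k (x, y)‖ := by
  have h := norm_le_pi_norm (cL k (x, y)) 0
  rw [cL_apply] at h ⊢
  simpa using h

theorem norm_cL_ge2 (k : ℕ) (x : ℝ) (y : Fin k → ℝ) : ‖y‖ ≤ ‖cL k (x, y)‖ := by
  rw [pi_norm_le_iff_of_nonneg (norm_nonneg _)]
  intro i
  have h := norm_le_pi_norm (cL k (x, y)) i.succ
  rw [cL_apply] at h ⊢
  simpa using h

/-- vanishing outside the ball of radius `R` -/
def Van {X E : Type*} [Norm X] [Zero E] (R : ℝ) (F : X → E) : Prop := ∀ z, R ≤ ‖z‖ → F z = 0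

theorem exists_van {X E : Type*} [NormedAddCommGroup X] [Zero E] {F : X → E}
    (hF : HasCompactSupport F) : ∃ R : ℝ, 0 < R ∧ Van R F := by
  obtain ⟨R, hR⟩ := hF.isCompact.isBounded.subset_closedBall 0
  refine ⟨|R| + 1, by positivity, fun z hz => ?_⟩
  apply image_eq_zero_of_notMem_tsupport
  intro hmem
  have h1 := hR hmem
  rw [mem_closedBall_zero_iff] at h1
  linarith [le_abs_self R]

theorem Van.mono {X E : Type*} [Norm X] [Zero E] {R R' : ℝ} {F : X → E} (h : Van R F)
    (hR : R ≤ R') : Van R' F := fun z hz => h z (hR.trans hz)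

section slice

variable {E : Type*} [NormedAddCommGroup E] [NormedSpace ℝ E] {k : ℕ}

theorem integrable_cL {F : (Fin (k + 1) → ℝ) → E} (hF : Continuous F) {R : ℝ} (hR : Van R F) :
    Integrable (fun p : ℝ × (Fin k → ℝ) => F (cL k p)) (volume.prod volume) := by
  have hc : Continuous (fun p : ℝ × (Fin k → ℝ) => F (cL k p)) := hF.comp (cL k).continuous
  apply hc.integrable_of_hasCompactSupport
  apply HasCompactSupport.intro (K := Set.Icc (-R) R ×ˢ Metric.closedBall (0 : Fin k → ℝ) R)
    (isCompact_Icc.prod (isCompact_closedBall _ _))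
  intro p hp
  by_contra hne
  have hlt : ‖cL k p‖ < R := by
    by_contra hcon
    exact hne (hR _ (not_lt.mp hcon))
  apply hp
  have h1 := norm_cL_ge1 k p.1 p.2
  have h2 := norm_cL_ge2 k p.1 p.2
  refine ⟨abs_le.mp (h1.trans hlt.le), ?_⟩
  rw [mem_closedBall_zero_iff]
  exact h2.trans hlt.le

theorem continuous_slice {F : (Fin (k + 1) → ℝ) → E} (hF : Continuous F) {R : ℝ} (hR : Van R F) :
    Continuous (fun x => ∫ y, F (cL k (x, y))) := by
  apply continuous_param (K := Metric.closedBall (0 : Fin k → ℝ) R) (g := fun x y => F (cL k (x, y)))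
  · exact hF.comp ((cL k).continuous.comp (continuous_fst.prodMk continuous_snd))
  · exact isCompact_closedBall _ _
  · intro x y hy
    apply hR
    rw [mem_closedBall_zero_iff, not_le] at hy
    exact hy.le.trans (norm_cL_ge2 k x y)

theorem slice_zero {F : (Fin (k + 1) → ℝ) → E} {R : ℝ} (hR : Van R F) {x : ℝ} (hx : R ≤ |x|) :
    ∀ y, F (cL k (x, y)) = 0 := fun y => hR _ (hx.trans (norm_cL_ge1 k x y))

theorem integral_slice [CompleteSpace E] {F : (Fin (k + 1) → ℝ) → E} (hF : Continuous F) {R : ℝ}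
    (hR : Van R F) : ∫ z, F z = ∫ x in (-R)..R, ∫ y, F (cL k (x, y)) := by
  rw [integral_cL, Measure.volume_eq_prod, integral_prod _ (integrable_cL hF hR),
    intervalIntegral.integral_eq_integral_of_support_subset]
  intro x hx
  by_contra hcon
  apply hx
  have : R ≤ |x| := by
    by_contra h
    rw [not_le, abs_lt] at h
    exact hcon ⟨h.1, h.2.le⟩
  simp [slice_zero hR this]

end slice

end Pool.Agent.LiebT2
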