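import Mathlib

open Real Finset Matrix ComplexOrder

set_option autoImplicit false

namespace Pool.Agent.LiebT2

variable {ι : Type*} [Fintype ι]

/-- positive semidefinite complex kernel on a finite type -/
def PD (K : ι → ι → ℂ) : Prop :=
  (∀ i j, K j i = star (K i j)) ∧ ∀ c : ι → ℂ, 0 ≤ (∑ i, ∑ j, star (c i) * K i j * c j).re

/-- the quadratic form -/
noncomputable def qf (K : ι → ι → ℂ) (c : ι → ℂ) : ℂ := ∑ i, ∑ j, star (c i) * K i j * c j

theorem qf_eq (K : ι → ι → ℂ) (c : ι → ℂ) : star c ⬝ᵥ ((Matrix.of K) *ᵥ c) = qf K c := by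
  unfold qf
  simp only [dotProduct, mulVec, Matrix.of_apply, Pi.star_apply, Finset.mul_sum, mul_assoc]

theorem qf_im {K : ι → ι → ℂ} (h : ∀ i j, K j i = star (K i j)) (c : ι → ℂ) : (qf K c).im = 0 := by
  have : star (qf K c) = qf K c := by
    unfold qf
    rw [star_sum]
    simp only [star_sum, star_mul', star_star]
    rw [Finset.sum_comm]
    apply Finset.sum_congr rfl
    intro i _
    apply Finset.sum_congr rfl
    intro j _
    rw [← h j i]
    ring
  have h2 := congrArg Complex.im this
  simp only [RCLike.star_def, Complex.conj_im] at h2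
  linarith

theorem pd_iff (K : ι → ι → ℂ) : PD K ↔ (Matrix.of K).PosSemidef := by
  constructor
  · intro h
    apply Matrix.PosSemidef.of_dotProduct_mulVec_nonneg
    · ext i j
      rw [Matrix.conjTranspose_apply, Matrix.of_apply, Matrix.of_apply, ← h.1]
    · intro c
      rw [qf_eq, Complex.nonneg_iff]
      exact ⟨h.2 c, (qf_im h.1 c).symm⟩
  · intro h
    refine ⟨?_, ?_⟩
    · intro i j
      have := h.isHermitian.apply i j
      rw [Matrix.of_apply, Matrix.of_apply] at this
      have h2 := congrArg star this
      rw [star_star] at h2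
      exact h2
    · intro c
      have := h.dotProduct_mulVec_nonneg c
      rw [qf_eq, Complex.nonneg_iff] at this
      exact this.1

theorem PD.mul {K L : ι → ι → ℂ} (hK : PD K) (hL : PD L) : PD (fun i j => K i j * L i j) := by
  rw [pd_iff] at hK hL ⊢
  have := hK.hadamard hL
  exact this

theorem PD.add {K L : ι → ι → ℂ} (hK : PD K) (hL : PD L) : PD (fun i j => K i j + L i j) := by
  refine ⟨fun i j => by show K j i + L j i = star (K i j + L i j); rw [hK.1 i j, hL.1 i j, star_add], fun c => ?_⟩
  have e : (∑ i, ∑ j, star (c i) * (K i j + L i j) * c j)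
      = (∑ i, ∑ j, star (c i) * K i j * c j) + ∑ i, ∑ j, star (c i) * L i j * c j := by
    rw [← Finset.sum_add_distrib]
    apply Finset.sum_congr rfl
    intro i _
    rw [← Finset.sum_add_distrib]
    apply Finset.sum_congr rfl
    intro j _
    ring
  rw [e, Complex.add_re]
  exact add_nonneg (hK.2 c) (hL.2 c)

theorem PD.smul {K : ι → ι → ℂ} (hK : PD K) {r : ℝ} (hr : 0 ≤ r) : PD (fun i j => (r : ℂ) * K i j) := by
  refine ⟨fun i j => ?_, fun c => ?_⟩
  · show (r : ℂ) * K j i = star ((r : ℂ) * K i j)
    rw [hK.1 i j, star_mul']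
    simp
  · have e : (∑ i, ∑ j, star (c i) * ((r : ℂ) * K i j) * c j)
      = (r : ℂ) * (∑ i, ∑ j, star (c i) * K i j * c j) := by
      rw [Finset.mul_sum]
      apply Finset.sum_congr rfl
      intro i _
      rw [Finset.mul_sum]
      apply Finset.sum_congr rfl
      intro j _
      ring
    rw [e, Complex.re_ofReal_mul]
    exact mul_nonneg hr (hK.2 c)

/-- rank one real kernel -/
theorem pd_rank (w : ι → ℝ) : PD (fun i j => ((w i * w j : ℝ) : ℂ)) := by
  refine ⟨fun i j => ?_, fun c => ?_⟩
  · show ((w j * w i : ℝ) : ℂ) = star ((w i * w j : ℝ) : ℂ)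
    rw [mul_comm (w j)]
    simp
  · have e : (∑ i, ∑ j, star (c i) * ((w i * w j : ℝ) : ℂ) * c j)
      = star (∑ i, (w i : ℂ) * c i) * (∑ i, (w i : ℂ) * c i) := by
      rw [star_sum, Finset.sum_mul_sum]
      apply Finset.sum_congr rfl
      intro i _
      apply Finset.sum_congr rfl
      intro j _
      rw [star_mul']
      simp only [RCLike.star_def, Complex.conj_ofReal]
      push_cast
      ring
    rw [e]
    have : star (∑ i, (w i : ℂ) * c i) * (∑ i, (w i : ℂ) * c i)
        = ((Complex.normSq (∑ i, (w i : ℂ) * c i) : ℝ) : ℂ) := by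
      rw [mul_comm]
      exact Complex.mul_conj _
    rw [this, Complex.ofReal_re]
    exact Complex.normSq_nonneg _

theorem pd_one : PD (fun _ _ : ι => (1 : ℂ)) := by
  have := pd_rank (fun _ : ι => (1 : ℝ))
  simpa using this

theorem PD.congr {K L : ι → ι → ℂ} (hK : PD K) (h : ∀ i j, K i j = L i j) : PD L := by
  have : K = L := by
    funext i j
    exact h i j
  rwa [← this]

/-- limits of positive semidefinite kernels -/
theorem pd_of_tendsto {K : ℕ → ι → ι → ℂ} {L : ι → ι → ℂ} (hK : ∀ n, PD (K n))
    (h : ∀ i j, Filter.Tendsto (fun n => K n i j) Filter.atTop (nhds (L i j))) : PD L := by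
  refine ⟨fun i j => ?_, fun c => ?_⟩
  · have h1 := h j i
    have h2 : Filter.Tendsto (fun n => star (K n i j)) Filter.atTop (nhds (star (L i j))) :=
      (h i j).star
    have e : (fun n => K n j i) = fun n => star (K n i j) := by
      funext n
      exact (hK n).1 i j
    rw [e] at h1
    exact tendsto_nhds_unique h1 h2
  · have h1 : Filter.Tendsto (fun n => (∑ i, ∑ j, star (c i) * K n i j * c j).re) Filter.atTop
        (nhds (∑ i, ∑ j, star (c i) * L i j * c j).re) := by
      apply (Complex.continuous_re.tendsto _).comp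
      apply tendsto_finsetSum
      intro i _
      apply tendsto_finsetSum
      intro j _
      exact ((h i j).const_mul _).mul_const _
    exact ge_of_tendsto' h1 fun n => (hK n).2 c

/-- interval integrals of positive semidefinite kernels -/
theorem pd_integral {K : ℝ → ι → ι → ℂ} {a b : ℝ} (hab : a ≤ b)
    (hK : ∀ t ∈ Set.Icc a b, PD (K t)) (hc : ∀ i j, Continuous (fun t => K t i j)) :
    PD (fun i j => ∫ t in a..b, K t i j) := by
  have hint : ∀ i j, IntervalIntegrable (fun t => K t i j) MeasureTheory.volume a b :=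
    fun i j => (hc i j).intervalIntegrable _ _
  refine ⟨fun i j => ?_, fun c => ?_⟩
  · have h1 : star (∫ t in a..b, K t i j)
        = Complex.conjCLE.toContinuousLinearMap (∫ t in a..b, K t i j) := rfl
    rw [h1, ← ContinuousLinearMap.intervalIntegral_comp_comm _ (hint i j)]
    apply intervalIntegral.integral_congr
    intro t ht
    rw [Set.uIcc_of_le hab] at ht
    exact (hK t ht).1 i j
  · have e : (∑ i, ∑ j, star (c i) * (∫ t in a..b, K t i j) * c j)
        = ∫ t in a..b, ∑ i, ∑ j, star (c i) * K t i j * c j := by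
      rw [intervalIntegral.integral_finsetSum]
      · apply Finset.sum_congr rfl
        intro i _
        rw [intervalIntegral.integral_finsetSum]
        · apply Finset.sum_congr rfl
          intro j _
          rw [intervalIntegral.integral_mul_const, intervalIntegral.integral_const_mul]
        · intro j _
          exact ((hint i j).const_mul _).mul_const _
      · intro i _
        apply Continuous.intervalIntegrable
        exact continuous_finsetSum _ fun j _ => (continuous_const.mul (hc i j)).mul continuous_const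
    rw [e]
    have hcont : Continuous (fun t => ∑ i, ∑ j, star (c i) * K t i j * c j) :=
      continuous_finsetSum _ fun i _ => continuous_finsetSum _ fun j _ =>
        (continuous_const.mul (hc i j)).mul continuous_const
    have h1 : (∫ t in a..b, ∑ i, ∑ j, star (c i) * K t i j * c j).re
        = Complex.reCLM (∫ t in a..b, ∑ i, ∑ j, star (c i) * K t i j * c j) := rfl
    rw [h1, ← ContinuousLinearMap.intervalIntegral_comp_comm _ (hcont.intervalIntegrable _ _)]
    apply intervalIntegral.integral_nonneg hab
    intro t ht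
    exact (hK t ht).2 c

/-- geometric kernel -/
theorem pd_geom {w : ι → ℝ} (hw : ∀ i, |w i| < 1) :
    PD (fun i j => ((1 / (1 - w i * w j) : ℝ) : ℂ)) := by
  apply pd_of_tendsto (K := fun n i j => ((∑ k ∈ range n, (w i * w j) ^ k : ℝ) : ℂ))
  · intro n
    induction n with
    | zero =>
      have := (pd_one (ι := ι)).smul (le_refl (0 : ℝ))
      exact this.congr fun i j => by simp
    | succ n ih =>
      have h1 := pd_rank (fun i => (w i) ^ n)
      refine (ih.add h1).congr fun i j => ?_
      rw [Finset.sum_range_succ]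
      push_cast
      ring
  · intro i j
    have habs : |w i * w j| < 1 := by
      rw [abs_mul]
      have h1 := hw i
      have h2 := hw j
      have h3 := abs_nonneg (w i)
      have h4 := abs_nonneg (w j)
      nlinarith
    have h1 : HasSum (fun k => (w i * w j) ^ k) ((1 - w i * w j)⁻¹) := hasSum_geometric_of_abs_lt_one habs
    have h2 := h1.tendsto_sum_nat
    rw [one_div]
    exact (Complex.continuous_ofReal.tendsto _).comp h2

theorem pd_inv_one_sub {z : ι → ℝ} (h0 : ∀ i, 0 ≤ z i) (h1 : ∀ i, z i < 1 / 2) :
    PD (fun i j => ((1 / (1 - (z i + z j)) : ℝ) : ℂ)) := by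
  have hw : ∀ i, |z i / (1 - z i)| < 1 := by
    intro i
    have h2 := h0 i
    have h3 := h1 i
    rw [abs_of_nonneg (div_nonneg h2 (by linarith)), div_lt_one (by linarith)]
    linarith
  refine ((pd_rank (fun i => 1 / (1 - z i))).mul (pd_geom hw)).congr fun i j => ?_
  have e1 : 1 - z i ≠ 0 := by have := h1 i; intro h; linarith
  have e2 : 1 - z j ≠ 0 := by have := h1 j; intro h; linarith
  have e3 : 1 - (z i + z j) ≠ 0 := by have := h1 i; have := h1 j; intro h; linarith
  rw [← Complex.ofReal_mul]
  congr 1
  have e4 : (1 - z i) * (1 - z j) - z i * z j ≠ 0 := by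
    have : (1 - z i) * (1 - z j) - z i * z j = 1 - (z i + z j) := by ring
    rw [this]; exact e3
  have e5 : 1 - z i / (1 - z i) * (z j / (1 - z j)) ≠ 0 := by
    have : 1 - z i / (1 - z i) * (z j / (1 - z j))
      = ((1 - z i) * (1 - z j) - z i * z j) / ((1 - z i) * (1 - z j)) := by field_simp
    rw [this]
    exact div_ne_zero e4 (mul_ne_zero e1 e2)
  rw [eq_div_iff e3]
  field_simp
  have e6 : (1 - z i) * (1 - z j) - z i * z j = 1 - (z i + z j) := by ring
  rw [e6]

theorem pd_inv_one_add {z : ι → ℝ} (h0 : ∀ i, 0 ≤ z i) :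
    PD (fun i j => ((1 / (1 + (z i + z j)) : ℝ) : ℂ)) := by
  have hw : ∀ i, |z i / (1 + z i)| < 1 := by
    intro i
    have h2 := h0 i
    rw [abs_of_nonneg (div_nonneg h2 (by linarith)), div_lt_one (by linarith)]
    linarith
  refine ((pd_rank (fun i => 1 / (1 + z i))).mul (pd_geom hw)).congr fun i j => ?_
  have g1 := h0 i
  have g2 := h0 j
  have e1 : 1 + z i ≠ 0 := by intro h; linarith
  have e2 : 1 + z j ≠ 0 := by intro h; linarith
  have e3 : 1 + (z i + z j) ≠ 0 := by intro h; linarith
  rw [← Complex.ofReal_mul]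
  congr 1
  have e6 : (1 + z i) * (1 + z j) - z i * z j = 1 + (z i + z j) := by ring
  have e5 : 1 - z i / (1 + z i) * (z j / (1 + z j)) = (1 + (z i + z j)) / ((1 + z i) * (1 + z j)) := by
    rw [← e6]
    field_simp
  rw [e5]
  field_simp

end Pool.Agent.LiebT2
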