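import Mathlib
import Pool.Agent.LiebT2.PSD

open Real Finset Matrix

set_option autoImplicit false

namespace Pool.Agent.LiebT2

variable {ι : Type*} [Fintype ι]

theorem pd_factor {z : ι → ℝ} (h0 : ∀ i, 0 ≤ z i) (h1 : ∀ i, z i < 1 / 2) {s : ℝ} (hs0 : 0 ≤ s)
    (hs1 : s ≤ 1) :
    PD (fun i j => (((1 - s ^ 2 * (z i + z j) ^ 2) / (1 - (z i + z j) ^ 2) : ℝ) : ℂ)) := by
  have hk1 := (pd_one (ι := ι)).smul (sq_nonneg s)
  have hs2 : 0 ≤ (1 - s ^ 2) / 2 := by nlinarith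
  have hk2 := (pd_inv_one_sub h0 h1).smul hs2
  have hk3 := (pd_inv_one_add h0).smul hs2
  refine ((hk1.add hk2).add hk3).congr fun i j => ?_
  have g1 := h0 i
  have g2 := h0 j
  have g3 := h1 i
  have g4 := h1 j
  have e1 : 1 - (z i + z j) ≠ 0 := by intro h; linarith
  have e2 : 1 + (z i + z j) ≠ 0 := by intro h; linarith
  have e3 : 1 - (z i + z j) ^ 2 = (1 - (z i + z j)) * (1 + (z i + z j)) := by ring
  rw [e3]
  rw [← Complex.ofReal_one, ← Complex.ofReal_mul, ← Complex.ofReal_mul, ← Complex.ofReal_mul,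
    ← Complex.ofReal_add, ← Complex.ofReal_add]
  congr 1
  field_simp
  ring

theorem pd_prod {z : ι → ℝ} (h0 : ∀ i, 0 ≤ z i) (h1 : ∀ i, z i < 1 / 2) {s : ℝ} (hs0 : 0 ≤ s)
    (hs1 : s ≤ 1) (n : ℕ) :
    PD (fun i j => ((s * ∏ m ∈ range n, ((1 - (s * (z i + z j)) ^ 2 / ((m : ℝ) + 1) ^ 2) /
      (1 - (z i + z j) ^ 2 / ((m : ℝ) + 1) ^ 2)) : ℝ) : ℂ)) := by
  induction n with
  | zero =>
    refine ((pd_one (ι := ι)).smul hs0).congr fun i j => by simp
  | succ n ih =>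
    have hf := pd_factor (z := fun i => z i / ((n : ℝ) + 1)) (fun i => div_nonneg (h0 i) (by positivity))
      (fun i => by
        have hn : (1 : ℝ) ≤ (n : ℝ) + 1 := by linarith [Nat.cast_nonneg (α := ℝ) n]
        calc z i / ((n : ℝ) + 1) ≤ z i / 1 := div_le_div_of_nonneg_left (h0 i) one_pos hn
          _ = z i := by ring
          _ < 1 / 2 := h1 i) hs0 hs1
    refine (ih.mul hf).congr fun i j => ?_
    rw [← Complex.ofReal_mul]
    congr 1
    rw [Finset.prod_range_succ]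
    have e : ((1 - s ^ 2 * (z i / ((n : ℝ) + 1) + z j / ((n : ℝ) + 1)) ^ 2) /
        (1 - (z i / ((n : ℝ) + 1) + z j / ((n : ℝ) + 1)) ^ 2))
        = ((1 - (s * (z i + z j)) ^ 2 / ((n : ℝ) + 1) ^ 2) /
      (1 - (z i + z j) ^ 2 / ((n : ℝ) + 1) ^ 2)) := by
      have hn : ((n : ℝ) + 1) ≠ 0 := by positivity
      have e0 : z i / ((n : ℝ) + 1) + z j / ((n : ℝ) + 1) = (z i + z j) / ((n : ℝ) + 1) := by
        rw [add_div]
      rw [e0, div_pow, mul_pow, mul_div_assoc]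
    rw [e]
    ring

/-- `sin (s x) / sin x` is a positive definite kernel in `x = a_i + a_j ∈ (0, π)`. -/
theorem pd_sin {a : ι → ℝ} (h0 : ∀ i, 0 < a i) (h1 : ∀ i, a i < π / 2) {s : ℝ} (hs0 : 0 ≤ s)
    (hs1 : s ≤ 1) :
    PD (fun i j => ((sin (s * (a i + a j)) / sin (a i + a j) : ℝ) : ℂ)) := by
  have hpi := Real.pi_pos
  have hz0 : ∀ i, 0 ≤ a i / π := fun i => div_nonneg (h0 i).le hpi.le
  have hz1 : ∀ i, a i / π < 1 / 2 := fun i => by
    rw [div_lt_iff₀ hpi]
    linarith [h1 i]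
  apply pd_of_tendsto (fun n => pd_prod hz0 hz1 hs0 hs1 n)
  intro i j
  apply (Complex.continuous_ofReal.tendsto _).comp
  set y := a i / π + a j / π with hy
  have hy0 : 0 < y := by
    have := div_pos (h0 i) hpi
    have := div_pos (h0 j) hpi
    linarith
  have hy1 : y < 1 := by
    have := hz1 i
    have := hz1 j
    linarith
  have hpy : π * y = a i + a j := by
    rw [hy]
    field_simp
  have hsin : sin (π * y) ≠ 0 := by
    have : 0 < sin (π * y) := Real.sin_pos_of_pos_of_lt_pi (by positivity) (by nlinarith)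
    exact this.ne'
  have t1 := Real.tendsto_euler_sin_prod (s * y)
  have t2 := Real.tendsto_euler_sin_prod y
  have t3 := t1.div t2 hsin
  have e1 : sin (π * (s * y)) / sin (π * y) = sin (s * (a i + a j)) / sin (a i + a j) := by
    rw [← hpy]
    congr 2
    ring
  rw [e1] at t3
  refine t3.congr fun n => ?_
  have hne : ∀ m : ℕ, (1 : ℝ) - y ^ 2 / ((m : ℝ) + 1) ^ 2 ≠ 0 := by
    intro m
    have h2 : y ^ 2 / ((m : ℝ) + 1) ^ 2 < 1 := by
      rw [div_lt_one (by positivity)]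
      have hm : (0 : ℝ) ≤ m := Nat.cast_nonneg m
      nlinarith
    linarith
  rw [Pi.div_apply, Finset.prod_div_distrib]
  have hprod : ∏ m ∈ range n, ((1 : ℝ) - y ^ 2 / ((m : ℝ) + 1) ^ 2) ≠ 0 :=
    Finset.prod_ne_zero_iff.mpr fun m _ => hne m
  field_simp

/-- the reflected kernel `sin (s (π - x)) / sin x` -/
theorem pd_sin' {a : ι → ℝ} (h0 : ∀ i, 0 < a i) (h1 : ∀ i, a i < π / 2) {s : ℝ} (hs0 : 0 ≤ s)
    (hs1 : s ≤ 1) :
    PD (fun i j => ((sin (s * (π - (a i + a j))) / sin (a i + a j) : ℝ) : ℂ)) := by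
  have h := pd_sin (a := fun i => π / 2 - a i) (fun i => by linarith [h1 i])
    (fun i => by linarith [h0 i]) hs0 hs1
  refine h.congr fun i j => ?_
  have e : π / 2 - a i + (π / 2 - a j) = π - (a i + a j) := by ring
  rw [e, Real.sin_pi_sub]

/-- the kernel `sin (α + s x) / sin x` for `0 ≤ α ≤ (1 - s) π` -/
theorem pd_sin_add {a : ι → ℝ} (h0 : ∀ i, 0 < a i) (h1 : ∀ i, a i < π / 2) {s : ℝ} (hs0 : 0 < s)
    (hs1 : s < 1) {α : ℝ} (hα0 : 0 ≤ α) (hα1 : α ≤ (1 - s) * π) :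
    PD (fun i j => ((sin (α + s * (a i + a j)) / sin (a i + a j) : ℝ) : ℂ)) := by
  have hpi := Real.pi_pos
  set B := (1 - s) * π with hB
  have hB0 : 0 < B := by rw [hB]; exact mul_pos (by linarith) hpi
  have hB1 : B < π := by rw [hB]; nlinarith
  have hsB : 0 < sin B := Real.sin_pos_of_pos_of_lt_pi hB0 hB1
  have c1 : 0 ≤ sin (B - α) / sin B := div_nonneg
    (Real.sin_nonneg_of_nonneg_of_le_pi (by linarith) (by linarith)) hsB.le
  have c2 : 0 ≤ sin α / sin B := div_nonneg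
    (Real.sin_nonneg_of_nonneg_of_le_pi hα0 (by linarith)) hsB.le
  have k1 := (pd_sin h0 h1 hs0.le hs1.le).smul c1
  have k2 := (pd_sin' h0 h1 hs0.le hs1.le).smul c2
  refine (k1.add k2).congr fun i j => ?_
  rw [← Complex.ofReal_mul, ← Complex.ofReal_mul, ← Complex.ofReal_add]
  congr 1
  set x := a i + a j with hx
  have e1 : sin (s * (π - x)) = sin (B + s * x) := by
    have : s * (π - x) = π - (B + s * x) := by rw [hB]; ring
    rw [this, Real.sin_pi_sub]
  have e2 : sin (B - α) * sin (s * x) + sin α * sin (B + s * x) = sin B * sin (α + s * x) := by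
    rw [Real.sin_sub, Real.sin_add, Real.sin_add]
    ring
  rw [e1]
  have : sin (B - α) / sin B * (sin (s * x) / sin x) + sin α / sin B * (sin (B + s * x) / sin x)
      = (sin (B - α) * sin (s * x) + sin α * sin (B + s * x)) / (sin B * sin x) := by
    ring
  rw [this, e2, mul_div_mul_left _ _ hsB.ne']

end Pool.Agent.LiebT2
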