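import Mathlib
import Pool.Agent.LiebT2.SinKer

open Real Finset Matrix

set_option autoImplicit false

namespace Pool.Agent.LiebT2

/-- `sinc d - cos d` -/
noncomputable def phi (d : ℝ) : ℝ := Real.sinc d - cos d

theorem phi_zero : phi 0 = 0 := by simp [phi]

theorem phi_neg (d : ℝ) : phi (-d) = phi d := by simp [phi, Real.sinc_neg]

/-- `sin (x+y) (sinc (x-y) - cos (x-y))` -/
noncomputable def psi (x y : ℝ) : ℝ := sin (x + y) * phi (x - y)

theorem psi_symm (x y : ℝ) : psi x y = psi y x := by
  unfold psi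
  rw [add_comm, ← phi_neg (x - y)]
  congr 2
  ring

theorem psi_self (x : ℝ) : psi x x = 0 := by simp [psi, phi_zero]

theorem psi_of_ne {x y : ℝ} (h : x ≠ y) :
    psi x y = (cos (2 * y) - cos (2 * x)) / (2 * (x - y)) - (sin (2 * x) + sin (2 * y)) / 2 := by
  have hne : x - y ≠ 0 := sub_ne_zero.mpr h
  unfold psi phi
  rw [Real.sinc_of_ne_zero hne]
  have e1 : sin (x + y) * sin (x - y) = (cos (2 * y) - cos (2 * x)) / 2 := by
    have h1 : cos (2 * y) = cos ((x + y) - (x - y)) := by congr 1; ring
    have h2 : cos (2 * x) = cos ((x + y) + (x - y)) := by congr 1; ring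
    rw [h1, h2, Real.cos_sub (x + y) (x - y), Real.cos_add (x + y) (x - y)]
    ring
  have e2 : sin (x + y) * cos (x - y) = (sin (2 * x) + sin (2 * y)) / 2 := by
    have h1 : sin (2 * y) = sin ((x + y) - (x - y)) := by congr 1; ring
    have h2 : sin (2 * x) = sin ((x + y) + (x - y)) := by congr 1; ring
    rw [h1, h2, Real.sin_sub (x + y) (x - y), Real.sin_add (x + y) (x - y)]
    ring
  rw [mul_sub, ← mul_div_assoc, e1, e2]
  field_simp

/-- `∫_0^s cos (t δ) dt` -/
noncomputable def cint (s δ : ℝ) : ℝ := ∫ t in (0 : ℝ)..s, cos (t * δ)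

theorem cint_zero (s : ℝ) : cint s 0 = s := by simp [cint]

theorem cint_of_ne (s : ℝ) {δ : ℝ} (h : δ ≠ 0) : cint s δ = sin (s * δ) / δ := by
  unfold cint
  have hd : ∀ t ∈ Set.uIcc 0 s, HasDerivAt (fun t : ℝ => sin (t * δ) / δ) (cos (t * δ)) t := by
    intro t _
    have h1 : HasDerivAt (fun t : ℝ => t * δ) δ t := by
      simpa using (hasDerivAt_id t).mul_const δ
    have h2 := (h1.sin).div_const δ
    refine h2.congr_deriv ?_
    field_simp
  rw [intervalIntegral.integral_eq_sub_of_hasDerivAt hd (Continuous.intervalIntegrable (by fun_prop) _ _)]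
  simp

theorem psi_identity (a b c : ℝ) :
    psi a b + psi a c - psi b c = 4 * (b - a) * (c - a) *
      ∫ s in (0 : ℝ)..1, (1 - s) * (sin (2 * (1 - s) * a + s * (b + c)) * cint s (b - c)) := by
  by_cases hb : b = a
  · subst hb
    rw [psi_self]
    ring
  by_cases hc : c = a
  · subst hc
    rw [psi_self, psi_symm c b]
    ring
  have hu : b - a ≠ 0 := sub_ne_zero.mpr hb
  have hv : c - a ≠ 0 := sub_ne_zero.mpr hc
  by_cases hbc : b = c
  · subst hbc
    rw [psi_self, psi_of_ne (Ne.symm hb)]
    set u := b - a with hudef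
    have hd : ∀ s ∈ Set.uIcc (0 : ℝ) 1, HasDerivAt (fun s : ℝ =>
        -(s * (1 - s)) * cos (2 * a + 2 * s * u) / (2 * u)
          + (1 - 2 * s) * sin (2 * a + 2 * s * u) / (4 * u ^ 2)
          - cos (2 * a + 2 * s * u) / (4 * u ^ 3))
        ((1 - s) * (sin (2 * (1 - s) * a + s * (b + b)) * cint s (b - b))) s := by
      intro s _
      have h1 : HasDerivAt (fun s : ℝ => 2 * a + 2 * s * u) (2 * u) s := by
        have := (((hasDerivAt_id s).const_mul 2).mul_const u).const_add (2 * a)
        simpa using this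
      have hs : HasDerivAt (fun s : ℝ => -(s * (1 - s))) (-(1 * (1 - s) + s * (-1))) s :=
        ((hasDerivAt_id s).mul ((hasDerivAt_id s).const_sub 1)).neg
      have hs2 : HasDerivAt (fun s : ℝ => 1 - 2 * s) (-2) s := by
        have := ((hasDerivAt_id s).const_mul 2).const_sub 1
        simpa using this
      have h2 := (((hs.mul h1.cos).div_const (2 * u)).add
        ((hs2.mul h1.sin).div_const (4 * u ^ 2))).sub (h1.cos.div_const (4 * u ^ 3))
      refine h2.congr_deriv ?_
      rw [sub_self, cint_zero]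
      have e : 2 * (1 - s) * a + s * (b + b) = 2 * a + 2 * s * u := by rw [hudef]; ring
      rw [e]
      field_simp
      ring
    have hci : Continuous (fun s : ℝ => (1 - s) * (sin (2 * (1 - s) * a + s * (b + b)) * cint s (b - b))) := by
      simp only [sub_self, cint_zero]
      fun_prop
    rw [intervalIntegral.integral_eq_sub_of_hasDerivAt hd (hci.intervalIntegrable _ _)]
    have e0 : 2 * a + 2 * 0 * u = 2 * a := by ring
    have e1 : 2 * a + 2 * 1 * u = 2 * b := by rw [hudef]; ring
    rw [e0, e1]
    have e2 : a - b = -u := by rw [hudef]; ring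
    rw [e2]
    field_simp
    ring
  · have hδ : b - c ≠ 0 := sub_ne_zero.mpr hbc
    rw [psi_of_ne (Ne.symm hb), psi_of_ne (Ne.symm hc), psi_of_ne hbc]
    set u := b - a with hudef
    set v := c - a with hvdef
    have hδuv : b - c = u - v := by rw [hudef, hvdef]; ring
    rw [hδuv] at hδ ⊢
    have hd : ∀ s ∈ Set.uIcc (0 : ℝ) 1, HasDerivAt (fun s : ℝ => 1 / (2 * (u - v)) *
        (((1 - s) * sin (2 * a + 2 * s * v) / (2 * v) - cos (2 * a + 2 * s * v) / (4 * v ^ 2))
         - ((1 - s) * sin (2 * a + 2 * s * u) / (2 * u) - cos (2 * a + 2 * s * u) / (4 * u ^ 2))))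
        ((1 - s) * (sin (2 * (1 - s) * a + s * (b + c)) * cint s (u - v))) s := by
      intro s _
      have h1 : HasDerivAt (fun s : ℝ => 2 * a + 2 * s * u) (2 * u) s := by
        have := (((hasDerivAt_id s).const_mul 2).mul_const u).const_add (2 * a)
        simpa using this
      have h2 : HasDerivAt (fun s : ℝ => 2 * a + 2 * s * v) (2 * v) s := by
        have := (((hasDerivAt_id s).const_mul 2).mul_const v).const_add (2 * a)
        simpa using this
      have hs : HasDerivAt (fun s : ℝ => 1 - s) (-1) s := (hasDerivAt_id s).const_sub 1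
      have h3 := ((((hs.mul h2.sin).div_const (2 * v)).sub (h2.cos.div_const (4 * v ^ 2))).sub
        (((hs.mul h1.sin).div_const (2 * u)).sub (h1.cos.div_const (4 * u ^ 2)))).const_mul
          (1 / (2 * (u - v)))
      refine h3.congr_deriv ?_
      rw [cint_of_ne _ hδ]
      have e : sin (2 * (1 - s) * a + s * (b + c)) * sin (s * (u - v))
          = (cos (2 * a + 2 * s * v) - cos (2 * a + 2 * s * u)) / 2 := by
        have g1 : cos (2 * a + 2 * s * v)
            = cos ((2 * (1 - s) * a + s * (b + c)) - s * (u - v)) := by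
          congr 1; rw [hudef, hvdef]; ring
        have g2 : cos (2 * a + 2 * s * u)
            = cos ((2 * (1 - s) * a + s * (b + c)) + s * (u - v)) := by
          congr 1; rw [hudef, hvdef]; ring
        rw [g1, g2, Real.cos_sub (2 * (1 - s) * a + s * (b + c)) (s * (u - v)),
          Real.cos_add (2 * (1 - s) * a + s * (b + c)) (s * (u - v))]
        ring
      rw [← mul_div_assoc, e]
      field_simp
      ring
    have hci : Continuous (fun s : ℝ => (1 - s) * (sin (2 * (1 - s) * a + s * (b + c)) * cint s (u - v))) := by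
      simp only [cint_of_ne _ hδ]
      fun_prop
    rw [intervalIntegral.integral_eq_sub_of_hasDerivAt hd (hci.intervalIntegrable _ _)]
    have e0 : 2 * a + 2 * 0 * u = 2 * a := by ring
    have e0' : 2 * a + 2 * 0 * v = 2 * a := by ring
    have e1 : 2 * a + 2 * 1 * u = 2 * b := by rw [hudef]; ring
    have e1' : 2 * a + 2 * 1 * v = 2 * c := by rw [hvdef]; ring
    rw [e0, e0', e1, e1']
    have e2 : a - b = -u := by rw [hudef]; ring
    have e3 : a - c = -v := by rw [hvdef]; ring
    rw [e2, e3]
    field_simp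
    ring

end Pool.Agent.LiebT2
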