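import Mathlib
import Pool.Agent.LiebT.PolyApprox
import Pool.Agent.LiebT2.Psi

open Real Finset

set_option autoImplicit false

namespace Pool.Agent.LiebT2

open Pool.Agent.LiebT

/-- divided difference of `p` at `x, y` -/
noncomputable def ddq (p : Polynomial ℝ) (x y : ℝ) : ℝ :=
  ∑ k ∈ range (p.natDegree + 1), p.coeff k * ∑ a ∈ range k, x ^ a * y ^ (k - 1 - a)

theorem ddq_mul (p : Polynomial ℝ) (x y : ℝ) : ddq p x y * (x - y) = p.eval x - p.eval y := by
  rw [Polynomial.eval_eq_sum_range, Polynomial.eval_eq_sum_range, ← Finset.sum_sub_distrib]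
  unfold ddq
  rw [Finset.sum_mul]
  apply Finset.sum_congr rfl
  intro k _
  have := (Commute.all x y).geom_sum₂_mul k
  rw [mul_assoc, this]
  ring

theorem continuous_ddq (p : Polynomial ℝ) (y r : ℝ) : Continuous (fun s => ddq p (s + r) y) := by
  unfold ddq
  fun_prop

/-- the defect kernel -/
noncomputable def dk (s t r : ℝ) : ℝ :=
  phi (π * s / 2 - π * t / 2) / (sin (π * s / 2 + π * r / 2) * sin (π * t / 2 + π * r / 2))

theorem b0_eq {s t r : ℝ} (hs : 0 < s) (hs1 : s < 1) (ht : 0 < t) (ht1 : t < 1)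
    (hr : 0 < r) (hr1 : r < 1) (hst : s ≠ t) :
    4 * (b0 (s + r) * b0 (t + r)) + 2 * ((b0 (s + r) - b0 (t + r)) / (s - t))
      + π ^ 2 / 4 * (1 + dk s t r) = 0 := by
  have hpi := Real.pi_pos
  have hx : 0 < sin (π * (s + r) / 2) := by
    apply Real.sin_pos_of_pos_of_lt_pi
    · positivity
    · nlinarith
  have hy : 0 < sin (π * (t + r) / 2) := by
    apply Real.sin_pos_of_pos_of_lt_pi
    · positivity
    · nlinarith
  have hne : s - t ≠ 0 := sub_ne_zero.mpr hst
  set z : ℝ := π * (s + r) / 2 - π * (t + r) / 2 with hz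
  have hzst : z = π / 2 * (s - t) := by rw [hz]; ring
  have hz0 : z ≠ 0 := by rw [hzst]; exact mul_ne_zero (by positivity) hne
  have hcos : cos z = cos (π * (s + r) / 2) * cos (π * (t + r) / 2)
      + sin (π * (s + r) / 2) * sin (π * (t + r) / 2) := by rw [hz, Real.cos_sub]
  have hsin : sin z = sin (π * (s + r) / 2) * cos (π * (t + r) / 2)
      - cos (π * (s + r) / 2) * sin (π * (t + r) / 2) := by rw [hz, Real.sin_sub]
  have hst' : s - t = 2 / π * z := by rw [hzst]; field_simp
  have e1 : π * s / 2 - π * t / 2 = z := by rw [hz]; ring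
  have e2 : π * s / 2 + π * r / 2 = π * (s + r) / 2 := by ring
  have e3 : π * t / 2 + π * r / 2 = π * (t + r) / 2 := by ring
  unfold dk phi
  rw [e1, e2, e3, Real.sinc_of_ne_zero hz0, hst', hcos, hsin]
  unfold b0
  field_simp
  ring

theorem continuousOn_dk {ε : ℝ} (hε : 0 < ε) {t r : ℝ} (ht : t ∈ Set.Icc ε (1 - ε))
    (hr : r ∈ Set.Icc ε (1 - ε)) : ContinuousOn (fun s => dk s t r) (Set.Icc ε (1 - ε)) := by
  have hpi := Real.pi_pos
  unfold dk
  apply ContinuousOn.div
  · apply Continuous.continuousOn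
    unfold phi
    have := Real.continuous_sinc
    fun_prop
  · fun_prop
  · intro s hs
    have h1 : 0 < sin (π * s / 2 + π * r / 2) := by
      apply Real.sin_pos_of_pos_of_lt_pi
      · have := hs.1
        have := hr.1
        have h3 : 0 < s := by linarith
        have h4 : 0 < r := by linarith
        positivity
      · have := hs.2
        have := hr.2
        nlinarith
    have h2 : 0 < sin (π * t / 2 + π * r / 2) := by
      apply Real.sin_pos_of_pos_of_lt_pi
      · have := ht.1
        have := hr.1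
        have h3 : 0 < t := by linarith
        have h4 : 0 < r := by linarith
        positivity
      · have := ht.2
        have := hr.2
        nlinarith
    positivity

theorem exists_poly {ε η : ℝ} (hε : 0 < ε) (hε2 : ε < 1 / 2) (hη : 0 < η) :
    ∃ p : Polynomial ℝ, ∀ s ∈ Set.Icc ε (1 - ε), ∀ t ∈ Set.Icc ε (1 - ε),
      ∀ r ∈ Set.Icc ε (1 - ε),
      |4 * (p.eval (s + r) * p.eval (t + r)) + 2 * ddq p (s + r) (t + r) + π ^ 2 / 4 * (1 + dk s t r)| ≤ η := by
  have hcont : ContinuousOn b0 (Set.Icc (2 * ε) (2 - 2 * ε)) := by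
    intro x hx
    exact (hasDerivAt_b0 (by linarith [hx.1]) (by linarith [hx.2])).continuousAt.continuousWithinAt
  obtain ⟨B, hB⟩ := isCompact_Icc.exists_bound_of_continuousOn hcont
  have hB0 : 0 ≤ B := le_trans (norm_nonneg _) (hB 1 ⟨by linarith, by linarith⟩)
  set δ : ℝ := min 1 (η / (8 * B + 8)) with hδ
  have hδ0 : 0 < δ := lt_min one_pos (by positivity)
  have hδ1 : δ ≤ 1 := min_le_left _ _
  have hδ2 : δ * (8 * B + 8) ≤ η := by
    have : δ ≤ η / (8 * B + 8) := min_le_right _ _
    rwa [le_div_iff₀ (by positivity)] at this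
  obtain ⟨p, hp1, hp2⟩ := exists_poly_near_b0 (a := 2 * ε) (b := 2 - 2 * ε) (δ := δ)
    (by linarith) (by linarith) (by linarith) (by linarith) hδ0
  have hmain : ∀ s ∈ Set.Icc ε (1 - ε), ∀ t ∈ Set.Icc ε (1 - ε), ∀ r ∈ Set.Icc ε (1 - ε), s ≠ t →
      |4 * (p.eval (s + r) * p.eval (t + r)) + 2 * ddq p (s + r) (t + r) + π ^ 2 / 4 * (1 + dk s t r)| ≤ η := by
    intro s hs t ht r hr hst
    have hsr : s + r ∈ Set.Icc (2 * ε) (2 - 2 * ε) :=
      ⟨by linarith [hs.1, hr.1], by linarith [hs.2, hr.2]⟩
    have htr : t + r ∈ Set.Icc (2 * ε) (2 - 2 * ε) :=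
      ⟨by linarith [ht.1, hr.1], by linarith [ht.2, hr.2]⟩
    have hk := b0_eq (s := s) (t := t) (r := r) (by linarith [hs.1]) (by linarith [hs.2])
      (by linarith [ht.1]) (by linarith [ht.2]) (by linarith [hr.1]) (by linarith [hr.2]) hst
    have h1 := hp1 _ hsr
    have h2 := hp1 _ htr
    have h3 := hp2 _ hsr _ htr
    have hB1 := hB _ hsr
    have hB2 := hB _ htr
    rw [Real.norm_eq_abs] at hB1 hB2
    have hne : s - t ≠ 0 := sub_ne_zero.mpr hst
    have h4 : |((p.eval (s + r) - b0 (s + r)) - (p.eval (t + r) - b0 (t + r))) / (s - t)| ≤ δ := by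
      rw [abs_div, div_le_iff₀ (abs_pos.mpr hne)]
      have : s + r - (t + r) = s - t := by ring
      rw [this] at h3
      exact h3
    have h5 : |p.eval (s + r) * p.eval (t + r) - b0 (s + r) * b0 (t + r)| ≤ δ * (2 * B + 1) := by
      have e : p.eval (s + r) * p.eval (t + r) - b0 (s + r) * b0 (t + r)
          = (p.eval (s + r) - b0 (s + r)) * (p.eval (t + r) - b0 (t + r))
            + (p.eval (s + r) - b0 (s + r)) * b0 (t + r)
            + b0 (s + r) * (p.eval (t + r) - b0 (t + r)) := by ring
      rw [e]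
      calc _ ≤ |(p.eval (s + r) - b0 (s + r)) * (p.eval (t + r) - b0 (t + r))|
            + |(p.eval (s + r) - b0 (s + r)) * b0 (t + r)|
            + |b0 (s + r) * (p.eval (t + r) - b0 (t + r))| := by
              refine (abs_add_le _ _).trans ?_
              gcongr
              exact abs_add_le _ _
        _ ≤ δ * δ + δ * B + B * δ := by
              rw [abs_mul, abs_mul, abs_mul]
              gcongr
        _ ≤ δ * (2 * B + 1) := by nlinarith
    have hdd : ddq p (s + r) (t + r) = (b0 (s + r) - b0 (t + r)) / (s - t)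
          + ((p.eval (s + r) - b0 (s + r)) - (p.eval (t + r) - b0 (t + r))) / (s - t) := by
      have := ddq_mul p (s + r) (t + r)
      have e0 : s + r - (t + r) = s - t := by ring
      rw [e0] at this
      rw [← add_div, eq_div_iff hne, this]
      ring
    have e3 : 4 * (p.eval (s + r) * p.eval (t + r)) + 2 * ddq p (s + r) (t + r) + π ^ 2 / 4 * (1 + dk s t r)
        = 4 * (p.eval (s + r) * p.eval (t + r) - b0 (s + r) * b0 (t + r))
          + 2 * (((p.eval (s + r) - b0 (s + r)) - (p.eval (t + r) - b0 (t + r))) / (s - t)) := by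
      rw [hdd]
      linarith
    rw [e3]
    calc _ ≤ |4 * (p.eval (s + r) * p.eval (t + r) - b0 (s + r) * b0 (t + r))|
          + |2 * (((p.eval (s + r) - b0 (s + r)) - (p.eval (t + r) - b0 (t + r))) / (s - t))| :=
            abs_add_le _ _
      _ ≤ 4 * (δ * (2 * B + 1)) + 2 * δ := by
            rw [abs_mul, abs_mul, abs_of_pos (show (0 : ℝ) < 4 by norm_num),
              abs_of_pos (show (0 : ℝ) < 2 by norm_num)]
            gcongr
      _ ≤ η := by nlinarith
  refine ⟨p, ?_⟩
  intro s hs t ht r hr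
  by_cases hst : s = t
  · -- closure argument
    set f : ℝ → ℝ := fun u =>
      |4 * (p.eval (u + r) * p.eval (t + r)) + 2 * ddq p (u + r) (t + r) + π ^ 2 / 4 * (1 + dk u t r)| with hf
    have hfc : ContinuousOn f (Set.Icc ε (1 - ε)) := by
      have h1 := continuous_ddq p (t + r) r
      have h2 : Continuous (fun u : ℝ => p.eval (u + r)) := p.continuous.comp (by fun_prop)
      have h3 := continuousOn_dk hε ht hr
      rw [hf]
      apply ContinuousOn.abs
      apply ContinuousOn.add
      · apply Continuous.continuousOn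
        fun_prop
      · exact continuousOn_const.mul (continuousOn_const.add h3)
    have hmem : s ∈ closure (Set.Icc ε (1 - ε) \ {s}) := by
      have hnt : (Set.Icc ε (1 - ε)).Nontrivial :=
        ⟨ε, ⟨le_refl _, by linarith⟩, 1 - ε, ⟨by linarith, le_refl _⟩, by intro hh; linarith⟩
      have hpre : IsPreconnected (Set.Icc ε (1 - ε)) := isPreconnected_Icc
      have := hpre.preperfect_of_nontrivial hnt s hs
      rw [accPt_principal_iff_clusterPt, ← mem_closure_iff_clusterPt] at this
      exact this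
    have hcw : ContinuousWithinAt f (Set.Icc ε (1 - ε) \ {s}) s :=
      (hfc s hs).mono Set.sdiff_subset
    have hne : (nhdsWithin s (Set.Icc ε (1 - ε) \ {s})).NeBot := mem_closure_iff_nhdsWithin_neBot.mp hmem
    refine le_of_tendsto hcw ?_
    filter_upwards [self_mem_nhdsWithin] with u hu
    apply hmain u hu.1 t ht r hr
    intro h
    exact hu.2 (by rw [h, hst]; rfl)
  · exact hmain s hs t ht r hr hst

end Pool.Agent.LiebT2
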