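import Mathlib
import Pool.Agent.LiebT2.Psi

open Real Finset Matrix

set_option autoImplicit false

namespace Pool.Agent.LiebT2

variable {ι : Type*} [Fintype ι]

theorem continuous_cint (δ : ℝ) : Continuous (fun s => cint s δ) := by
  by_cases h : δ = 0
  · subst h
    simp only [cint_zero]
    exact continuous_id
  · simp only [cint_of_ne _ h]
    fun_prop

theorem pd_cint (a : ι → ℝ) {s : ℝ} (hs : 0 ≤ s) :
    PD (fun i j => ((cint s (a i - a j) : ℝ) : ℂ)) := by
  have h : PD (fun i j => ∫ t in (0 : ℝ)..s, ((cos (t * (a i - a j)) : ℝ) : ℂ)) := by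
    apply pd_integral hs
    · intro t _
      refine ((pd_rank (fun i => cos (t * a i))).add (pd_rank (fun i => sin (t * a i)))).congr
        fun i j => ?_
      rw [← Complex.ofReal_add]
      congr 1
      rw [mul_sub, Real.cos_sub]
    · intro i j
      exact Complex.continuous_ofReal.comp (by fun_prop)
  refine h.congr fun i j => ?_
  rw [intervalIntegral.integral_ofReal]
  rfl

/-- the kernel at parameter `s` -/
noncomputable def ker (a : ι → ℝ) (k : ι) (s : ℝ) (i j : ι) : ℝ :=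
  (1 - s) * (sin (2 * (1 - s) * a k + s * (a i + a j)) * cint s (a i - a j)) / sin (a i + a j)

theorem pd_ker {a : ι → ℝ} (h0 : ∀ i, 0 < a i) (h1 : ∀ i, a i < π / 2) (k : ι) {s : ℝ}
    (hs : s ∈ Set.Icc (0 : ℝ) 1) : PD (fun i j => ((ker a k s i j : ℝ) : ℂ)) := by
  have hpi := Real.pi_pos
  have hzero : PD (fun _ _ : ι => (0 : ℂ)) := by
    have := (pd_one (ι := ι)).smul (le_refl (0 : ℝ))
    exact this.congr fun i j => by simp
  rcases hs.1.eq_or_lt with h | hs0
  · refine hzero.congr fun i j => ?_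
    unfold ker
    rw [← h]
    simp [cint]
  rcases hs.2.eq_or_lt with h | hs1
  · refine hzero.congr fun i j => ?_
    unfold ker
    rw [h]
    simp
  have k1 := pd_sin_add h0 h1 hs0 hs1 (α := 2 * (1 - s) * a k)
    (mul_nonneg (by linarith) (h0 k).le) (by
      have := h1 k
      nlinarith)
  have k2 := pd_cint a hs0.le
  refine ((k1.mul k2).smul (show (0 : ℝ) ≤ 1 - s by linarith)).congr fun i j => ?_
  rw [← Complex.ofReal_mul, ← Complex.ofReal_mul]
  congr 1
  unfold ker
  ring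

theorem pd_psi {a : ι → ℝ} (h0 : ∀ i, 0 < a i) (h1 : ∀ i, a i < π / 2) (k : ι) :
    PD (fun i j => (((psi (a k) (a i) + psi (a k) (a j) - psi (a i) (a j)) / sin (a i + a j) : ℝ) : ℂ)) := by
  have hI : PD (fun i j => ∫ s in (0 : ℝ)..1, ((ker a k s i j : ℝ) : ℂ)) := by
    apply pd_integral zero_le_one
    · intro s hs
      exact pd_ker h0 h1 k hs
    · intro i j
      apply Complex.continuous_ofReal.comp
      unfold ker
      have := continuous_cint (a i - a j)
      fun_prop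
  have hr := pd_rank (fun i => a i - a k)
  refine ((hr.mul hI).smul (show (0 : ℝ) ≤ 4 by norm_num)).congr fun i j => ?_
  rw [intervalIntegral.integral_ofReal, ← Complex.ofReal_mul, ← Complex.ofReal_mul]
  congr 1
  rw [psi_identity]
  unfold ker
  rw [intervalIntegral.integral_div]
  ring

/-- The operator-valued kernel inequality. -/
theorem ov {P : ι → ι → ℂ} (hP : PD P) {a : ι → ℝ} (h0 : ∀ i, 0 < a i) (h1 : ∀ i, a i < π / 2) :
    0 ≤ (∑ i, ∑ j, ∑ k, P i j * P j k * P k i *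
      ((phi (a i - a j) / (sin (a i + a k) * sin (a j + a k)) : ℝ) : ℂ)).re := by
  have hsin : ∀ i j, sin (a i + a j) ≠ 0 := fun i j =>
    (Real.sin_pos_of_pos_of_lt_pi (by linarith [h0 i, h0 j]) (by linarith [h1 i, h1 j])).ne'
  set Y : ι → ι → ℂ := fun i j => P i j / ((sin (a i + a j) : ℝ) : ℂ) with hY
  have hYs : ∀ i j, star (Y i j) = Y j i := by
    intro i j
    simp only [hY, RCLike.star_def, map_div₀, Complex.conj_ofReal]
    rw [hP.1 i j, add_comm (a j)]
    rfl
  -- the symmetrised sum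
  have e1 : (∑ i, ∑ j, ∑ k, P i j * P j k * P k i *
      ((phi (a i - a j) / (sin (a i + a k) * sin (a j + a k)) : ℝ) : ℂ))
      = ∑ i, ∑ j, ∑ k, Y i j * Y j k * Y k i * ((psi (a i) (a j) : ℝ) : ℂ) := by
    apply Finset.sum_congr rfl
    intro i _
    apply Finset.sum_congr rfl
    intro j _
    apply Finset.sum_congr rfl
    intro k _
    simp only [hY, psi]
    have g1 : ((sin (a i + a j) : ℝ) : ℂ) ≠ 0 := Complex.ofReal_ne_zero.mpr (hsin i j)
    have g2 : ((sin (a j + a k) : ℝ) : ℂ) ≠ 0 := Complex.ofReal_ne_zero.mpr (hsin j k)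
    have g3 : ((sin (a k + a i) : ℝ) : ℂ) ≠ 0 := Complex.ofReal_ne_zero.mpr (hsin k i)
    rw [add_comm (a i) (a k)]
    rw [Complex.ofReal_div, Complex.ofReal_mul, Complex.ofReal_mul]
    field_simp
  have e2 : ∑ i, ∑ j, ∑ k, Y i j * Y j k * Y k i * ((psi (a i) (a j) : ℝ) : ℂ)
      = ∑ i, ∑ j, ∑ k, Y i j * Y j k * Y k i * ((psi (a k) (a i) : ℝ) : ℂ) := by
    calc ∑ i, ∑ j, ∑ k, Y i j * Y j k * Y k i * ((psi (a i) (a j) : ℝ) : ℂ)
        = ∑ k, ∑ i, ∑ j, Y k i * Y i j * Y j k * ((psi (a k) (a i) : ℝ) : ℂ) := rfl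
      _ = ∑ i, ∑ k, ∑ j, Y k i * Y i j * Y j k * ((psi (a k) (a i) : ℝ) : ℂ) := Finset.sum_comm
      _ = ∑ i, ∑ j, ∑ k, Y k i * Y i j * Y j k * ((psi (a k) (a i) : ℝ) : ℂ) :=
          Finset.sum_congr rfl fun i _ => Finset.sum_comm
      _ = _ := by
          apply Finset.sum_congr rfl
          intro i _
          apply Finset.sum_congr rfl
          intro j _
          apply Finset.sum_congr rfl
          intro k _
          ring
  have e3 : ∑ i, ∑ j, ∑ k, Y i j * Y j k * Y k i * ((psi (a i) (a j) : ℝ) : ℂ)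
      = ∑ i, ∑ j, ∑ k, Y i j * Y j k * Y k i * ((psi (a k) (a j) : ℝ) : ℂ) := by
    calc ∑ i, ∑ j, ∑ k, Y i j * Y j k * Y k i * ((psi (a i) (a j) : ℝ) : ℂ)
        = ∑ j, ∑ k, ∑ i, Y j k * Y k i * Y i j * ((psi (a j) (a k) : ℝ) : ℂ) := rfl
      _ = ∑ j, ∑ i, ∑ k, Y j k * Y k i * Y i j * ((psi (a j) (a k) : ℝ) : ℂ) :=
          Finset.sum_congr rfl fun j _ => Finset.sum_comm
      _ = ∑ i, ∑ j, ∑ k, Y j k * Y k i * Y i j * ((psi (a j) (a k) : ℝ) : ℂ) := Finset.sum_comm
      _ = _ := by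
          apply Finset.sum_congr rfl
          intro i _
          apply Finset.sum_congr rfl
          intro j _
          apply Finset.sum_congr rfl
          intro k _
          rw [psi_symm (a j) (a k)]
          ring
  have e4 : (∑ i, ∑ j, ∑ k, P i j * P j k * P k i *
      ((phi (a i - a j) / (sin (a i + a k) * sin (a j + a k)) : ℝ) : ℂ))
      = ∑ k, ∑ i, ∑ j, star (Y i k) * (P i j *
        (((psi (a k) (a i) + psi (a k) (a j) - psi (a i) (a j)) / sin (a i + a j) : ℝ) : ℂ)) * Y j k := by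
    have h4 : (∑ i, ∑ j, ∑ k, P i j * P j k * P k i *
      ((phi (a i - a j) / (sin (a i + a k) * sin (a j + a k)) : ℝ) : ℂ))
        = ∑ i, ∑ j, ∑ k, Y i j * Y j k * Y k i * ((psi (a k) (a i) : ℝ) : ℂ)
          + ∑ i, ∑ j, ∑ k, Y i j * Y j k * Y k i * ((psi (a k) (a j) : ℝ) : ℂ)
          - ∑ i, ∑ j, ∑ k, Y i j * Y j k * Y k i * ((psi (a i) (a j) : ℝ) : ℂ) := by
      rw [e1, ← e2, ← e3]
      ring
    rw [h4, ← Finset.sum_add_distrib, ← Finset.sum_sub_distrib]
    rw [show (∑ k, ∑ i, ∑ j, star (Y i k) * (P i j *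
        (((psi (a k) (a i) + psi (a k) (a j) - psi (a i) (a j)) / sin (a i + a j) : ℝ) : ℂ)) * Y j k)
        = ∑ i, ∑ j, ∑ k, star (Y i k) * (P i j *
        (((psi (a k) (a i) + psi (a k) (a j) - psi (a i) (a j)) / sin (a i + a j) : ℝ) : ℂ)) * Y j k from ?_]
    · apply Finset.sum_congr rfl
      intro i _
      rw [← Finset.sum_add_distrib, ← Finset.sum_sub_distrib]
      apply Finset.sum_congr rfl
      intro j _
      rw [← Finset.sum_add_distrib, ← Finset.sum_sub_distrib]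
      apply Finset.sum_congr rfl
      intro k _
      rw [hYs]
      have g1 : ((sin (a i + a j) : ℝ) : ℂ) ≠ 0 := Complex.ofReal_ne_zero.mpr (hsin i j)
      simp only [hY, Complex.ofReal_div, Complex.ofReal_sub, Complex.ofReal_add]
      field_simp
    · rw [Finset.sum_comm]
      exact Finset.sum_congr rfl fun i _ => Finset.sum_comm
  rw [e4, Complex.re_sum]
  apply Finset.sum_nonneg
  intro k _
  exact (hP.mul (pd_psi h0 h1 k)).2 (fun j => Y j k)

end Pool.Agent.LiebT2
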