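import Mathlib
import Pool.Agent.LiebT2.OV
import Pool.Agent.LiebT2.Approx

open Real Finset Matrix ComplexOrder

set_option autoImplicit false

namespace Pool.Agent.LiebT2

open Pool.Agent.LiebT

set_option linter.unusedSectionVars false

variable {ι : Type*} [Fintype ι] [DecidableEq ι]

theorem exists_diag {M : Matrix ι ι ℂ} (hM : M.IsHermitian) :
    ∃ (V : Matrix ι ι ℂ) (m : ι → ℝ), star V * V = 1 ∧ V * star V = 1 ∧
      star V * M * V = diagonal (fun i => (m i : ℂ)) := by
  refine ⟨hM.eigenvectorUnitary, hM.eigenvalues, ?_, ?_, ?_⟩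
  · exact Unitary.coe_star_mul_self _
  · exact Unitary.coe_mul_star_self _
  · have h := hM.conjStarAlgAut_star_eigenvectorUnitary
    rw [Unitary.conjStarAlgAut_star_apply] at h
    exact h

/-- conjugation by `V` -/
def cj (V X : Matrix ι ι ℂ) : Matrix ι ι ℂ := star V * X * V

section
variable {V : Matrix ι ι ℂ}

theorem cj_mul (h2 : V * star V = 1) (X Y : Matrix ι ι ℂ) : cj V (X * Y) = cj V X * cj V Y := by
  unfold cj
  calc star V * (X * Y) * V = star V * X * (1 * (Y * V)) := by simp only [Matrix.mul_assoc, one_mul]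
    _ = star V * X * ((V * star V) * (Y * V)) := by rw [h2]
    _ = _ := by simp only [Matrix.mul_assoc]

theorem cj_add (X Y : Matrix ι ι ℂ) : cj V (X + Y) = cj V X + cj V Y := by
  unfold cj
  rw [Matrix.mul_add, Matrix.add_mul]

theorem cj_smul (c : ℂ) (X : Matrix ι ι ℂ) : cj V (c • X) = c • cj V X := by
  unfold cj
  rw [Matrix.mul_smul, Matrix.smul_mul]

theorem cj_sum {α : Type*} (s : Finset α) (X : α → Matrix ι ι ℂ) :
    cj V (∑ k ∈ s, X k) = ∑ k ∈ s, cj V (X k) := by
  unfold cj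
  rw [Finset.mul_sum, Finset.sum_mul]

theorem trace_cj (h2 : V * star V = 1) (X : Matrix ι ι ℂ) : (cj V X).trace = X.trace := by
  unfold cj
  rw [Matrix.trace_mul_comm, ← Matrix.mul_assoc, h2, one_mul]

theorem posSemidef_cj {X : Matrix ι ι ℂ} (hX : X.PosSemidef) : (cj V X).PosSemidef :=
  hX.conjTranspose_mul_mul_same V

end

/-- iterates of `X ↦ M X + X M` started at `P` -/
noncomputable def it (M P : Matrix ι ι ℂ) : ℕ → Matrix ι ι ℂ
  | 0 => P
  | (k + 1) => M * it M P k + it M P k * M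

theorem cj_it {V M P : Matrix ι ι ℂ} {m : ι → ℝ} (h2 : V * star V = 1)
    (hd : star V * M * V = diagonal (fun i => (m i : ℂ))) (k : ℕ) (i j : ι) :
    cj V (it M P k) i j = (((m i + m j) ^ k : ℝ) : ℂ) * cj V P i j := by
  induction k with
  | zero => simp [it]
  | succ k ih =>
    have hM : cj V M = diagonal (fun i => (m i : ℂ)) := hd
    rw [it, cj_add, cj_mul h2, cj_mul h2, hM, Matrix.add_apply, Matrix.diagonal_mul,
      Matrix.mul_diagonal, ih]
    push_cast
    ring

/-- `p (L_M + R_M) P` -/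
noncomputable def Gp (p : Polynomial ℝ) (M P : Matrix ι ι ℂ) : Matrix ι ι ℂ :=
  ∑ k ∈ range (p.natDegree + 1), (p.coeff k : ℂ) • it M P k

theorem cj_Gp {V M P : Matrix ι ι ℂ} {m : ι → ℝ} (h2 : V * star V = 1)
    (hd : star V * M * V = diagonal (fun i => (m i : ℂ))) (p : Polynomial ℝ) (i j : ι) :
    cj V (Gp p M P) i j = ((p.eval (m i + m j) : ℝ) : ℂ) * cj V P i j := by
  unfold Gp
  rw [cj_sum, Matrix.sum_apply, Polynomial.eval_eq_sum_range]
  push_cast
  rw [Finset.sum_mul]
  apply Finset.sum_congr rfl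
  intro k _
  rw [cj_smul, Matrix.smul_apply, cj_it h2 hd, smul_eq_mul]
  push_cast
  ring

/-- the derivative of the calibration in the direction of `M` -/
noncomputable def Rp (p : Polynomial ℝ) (M P : Matrix ι ι ℂ) : ℝ :=
  ∑ k ∈ range (p.natDegree + 1), p.coeff k * ∑ a ∈ range k,
    (trace (it M P a * (P * it M P (k - 1 - a) + it M P (k - 1 - a) * P))).re

/-- trilinear sum -/
noncomputable def tri (P : ι → ι → ℂ) (c : ι → ι → ι → ℝ) : ℝ :=
  (∑ i, ∑ j, ∑ k, P i j * P j k * P k i * ((c i j k : ℝ) : ℂ)).re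

theorem tri_add (P : ι → ι → ℂ) (c d : ι → ι → ι → ℝ) :
    tri P (fun i j k => c i j k + d i j k) = tri P c + tri P d := by
  unfold tri
  rw [← Complex.add_re, ← Finset.sum_add_distrib]
  congr 1
  apply Finset.sum_congr rfl
  intro i _
  rw [← Finset.sum_add_distrib]
  apply Finset.sum_congr rfl
  intro j _
  rw [← Finset.sum_add_distrib]
  apply Finset.sum_congr rfl
  intro k _
  push_cast
  ring

theorem tri_smul (P : ι → ι → ℂ) (c : ι → ι → ι → ℝ) (r : ℝ) :
    tri P (fun i j k => r * c i j k) = r * tri P c := by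
  unfold tri
  rw [← Complex.re_ofReal_mul, Finset.mul_sum]
  congr 1
  apply Finset.sum_congr rfl
  intro i _
  rw [Finset.mul_sum]
  apply Finset.sum_congr rfl
  intro j _
  rw [Finset.mul_sum]
  apply Finset.sum_congr rfl
  intro k _
  push_cast
  ring

theorem tri_sum {α : Type*} (s : Finset α) (P : ι → ι → ℂ) (c : α → ι → ι → ι → ℝ) :
    tri P (fun i j k => ∑ x ∈ s, c x i j k) = ∑ x ∈ s, tri P (c x) := by
  classical
  induction s using Finset.induction_on with
  | empty => simp [tri]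
  | insert a s ha ih =>
    rw [Finset.sum_insert ha, ← ih, ← tri_add]
    congr 1
    funext i j k
    rw [Finset.sum_insert ha]

theorem trace_three (X Y Z : Matrix ι ι ℂ) :
    trace (X * Y * Z) = ∑ i, ∑ j, ∑ k, X k i * Y i j * Z j k := by
  rw [Matrix.trace]
  simp only [Matrix.diag_apply, Matrix.mul_apply]
  rw [show (∑ i, ∑ j, ∑ k, X k i * Y i j * Z j k) = ∑ k, ∑ j, ∑ i, X k i * Y i j * Z j k from ?_]
  · apply Finset.sum_congr rfl
    intro k _
    apply Finset.sum_congr rfl
    intro j _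
    rw [Finset.sum_mul]
  · rw [Finset.sum_comm]
    rw [show (∑ k, ∑ j, ∑ i, X k i * Y i j * Z j k) = ∑ j, ∑ k, ∑ i, X k i * Y i j * Z j k from
      Finset.sum_comm]
    apply Finset.sum_congr rfl
    intro j _
    exact Finset.sum_comm

theorem cyc1 (f : ι → ι → ι → ℂ) : ∑ i, ∑ j, ∑ k, f i j k = ∑ i, ∑ j, ∑ k, f j k i := by
  calc ∑ i, ∑ j, ∑ k, f i j k = ∑ j, ∑ k, ∑ i, f j k i := rfl
    _ = ∑ j, ∑ i, ∑ k, f j k i := Finset.sum_congr rfl fun j _ => Finset.sum_comm
    _ = ∑ i, ∑ j, ∑ k, f j k i := Finset.sum_comm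

theorem cyc2 (f : ι → ι → ι → ℂ) : ∑ i, ∑ j, ∑ k, f i j k = ∑ i, ∑ j, ∑ k, f k i j := by
  rw [cyc1, cyc1]

theorem GPG_eq {V M P : Matrix ι ι ℂ} {m : ι → ℝ} (h2 : V * star V = 1)
    (hd : star V * M * V = diagonal (fun i => (m i : ℂ))) (p : Polynomial ℝ) :
    (trace (Gp p M P * P * Gp p M P)).re
      = tri (fun i j => cj V P i j) (fun i j k => p.eval (m i + m k) * p.eval (m j + m k)) := by
  rw [← trace_cj h2, cj_mul h2, cj_mul h2, trace_three]
  unfold tri
  congr 1
  apply Finset.sum_congr rfl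
  intro i _
  apply Finset.sum_congr rfl
  intro j _
  apply Finset.sum_congr rfl
  intro k _
  rw [cj_Gp h2 hd, cj_Gp h2 hd, add_comm (m k) (m i)]
  push_cast
  ring

theorem PPP_eq {V P : Matrix ι ι ℂ} (h2 : V * star V = 1) :
    (trace (P * P * P)).re = tri (fun i j => cj V P i j) (fun _ _ _ => 1) := by
  rw [← trace_cj h2, cj_mul h2, cj_mul h2, trace_three]
  unfold tri
  congr 1
  apply Finset.sum_congr rfl
  intro i _
  apply Finset.sum_congr rfl
  intro j _
  apply Finset.sum_congr rfl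
  intro k _
  push_cast
  ring

theorem Rp_eq {V M P : Matrix ι ι ℂ} {m : ι → ℝ} (h2 : V * star V = 1)
    (hd : star V * M * V = diagonal (fun i => (m i : ℂ))) (p : Polynomial ℝ) :
    Rp p M P = tri (fun i j => cj V P i j) (fun i j k => 2 * ddq p (m i + m k) (m j + m k)) := by
  have h1 : ∀ a b : ℕ, (trace (it M P a * (P * it M P b))).re
      = tri (fun i j => cj V P i j) (fun i j k => (m i + m k) ^ a * (m j + m k) ^ b) := by
    intro a b
    rw [← trace_cj h2, ← Matrix.mul_assoc, cj_mul h2, cj_mul h2, trace_three]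
    unfold tri
    congr 1
    apply Finset.sum_congr rfl
    intro i _
    apply Finset.sum_congr rfl
    intro j _
    apply Finset.sum_congr rfl
    intro k _
    rw [cj_it h2 hd, cj_it h2 hd, add_comm (m k) (m i)]
    push_cast
    ring
  have h3 : ∀ a b : ℕ, (trace (it M P a * (it M P b * P))).re
      = tri (fun i j => cj V P i j) (fun i j k => (m i + m k) ^ b * (m j + m k) ^ a) := by
    intro a b
    rw [Matrix.trace_mul_comm, Matrix.mul_assoc, h1]
  unfold Rp
  have h4 : ∀ k ∈ range (p.natDegree + 1), p.coeff k * ∑ a ∈ range k,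
      (trace (it M P a * (P * it M P (k - 1 - a) + it M P (k - 1 - a) * P))).re
      = tri (fun i j => cj V P i j) (fun i j l => 2 * (p.coeff k * ∑ a ∈ range k,
        (m i + m l) ^ a * (m j + m l) ^ (k - 1 - a))) := by
    intro k _
    have e1 : ∑ a ∈ range k,
      (trace (it M P a * (P * it M P (k - 1 - a) + it M P (k - 1 - a) * P))).re
      = ∑ a ∈ range k, tri (fun i j => cj V P i j)
          (fun i j l => (m i + m l) ^ a * (m j + m l) ^ (k - 1 - a))
        + ∑ a ∈ range k, tri (fun i j => cj V P i j)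
          (fun i j l => (m i + m l) ^ (k - 1 - a) * (m j + m l) ^ a) := by
      rw [← Finset.sum_add_distrib]
      apply Finset.sum_congr rfl
      intro a _
      rw [Matrix.mul_add, Matrix.trace_add, Complex.add_re, h1, h3]
    have e2 : ∑ a ∈ range k, tri (fun i j => cj V P i j)
          (fun i j l => (m i + m l) ^ (k - 1 - a) * (m j + m l) ^ a)
        = ∑ a ∈ range k, tri (fun i j => cj V P i j)
          (fun i j l => (m i + m l) ^ a * (m j + m l) ^ (k - 1 - a)) := by
      rw [← Finset.sum_range_reflect]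
      apply Finset.sum_congr rfl
      intro a ha
      have ha' := Finset.mem_range.mp ha
      have : k - 1 - (k - 1 - a) = a := by omega
      rw [this]
    rw [e1, e2, ← tri_sum, ← two_mul, ← tri_smul, ← tri_smul]
    congr 1
    funext i j l
    ring
  rw [Finset.sum_congr rfl h4, ← tri_sum]
  congr 1
  funext i j l
  unfold ddq
  rw [Finset.mul_sum]

open scoped MatrixOrder Matrix.Norms.L2Operator in
theorem exists_factor {P : Matrix ι ι ℂ} (hP : P.PosSemidef) : ∃ B : Matrix ι ι ℂ, P = star B * B :=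
  CStarAlgebra.nonneg_iff_eq_star_mul_self.mp hP.nonneg

theorem norm_entry_le {P : Matrix ι ι ℂ} (hP : P.PosSemidef) (i j : ι) : ‖P i j‖ ≤ P.trace.re := by
  obtain ⟨B, rfl⟩ := exists_factor hP
  have hentry : ∀ i j, (star B * B) i j = ∑ k, star (B k i) * B k j := by
    intro i j
    rw [Matrix.mul_apply]
    rfl
  have htr : (trace (star B * B)).re = ∑ i, ∑ k, ‖B k i‖ ^ 2 := by
    rw [Matrix.trace, Complex.re_sum]
    apply Finset.sum_congr rfl
    intro i _
    rw [Matrix.diag_apply, hentry, Complex.re_sum]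
    apply Finset.sum_congr rfl
    intro k _
    have : star (B k i) * B k i = ((‖B k i‖ ^ 2 : ℝ) : ℂ) := by
      rw [mul_comm]
      have h := Complex.mul_conj (B k i)
      rw [Complex.normSq_eq_norm_sq] at h
      exact h
    rw [this, Complex.ofReal_re]
  rw [htr, hentry]
  have hcol : ∀ i, ∑ k, ‖B k i‖ ^ 2 ≤ ∑ i, ∑ k, ‖B k i‖ ^ 2 := fun i =>
    Finset.single_le_sum (f := fun i => ∑ k, ‖B k i‖ ^ 2)
      (fun i _ => Finset.sum_nonneg fun k _ => by positivity) (Finset.mem_univ i)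
  calc ‖∑ k, star (B k i) * B k j‖ ≤ ∑ k, ‖star (B k i) * B k j‖ := norm_sum_le _ _
    _ ≤ ∑ k, ((‖B k i‖ ^ 2 + ‖B k j‖ ^ 2) / 2) := by
        apply Finset.sum_le_sum
        intro k _
        rw [norm_mul, norm_star]
        nlinarith [sq_nonneg (‖B k i‖ - ‖B k j‖)]
    _ = (∑ k, ‖B k i‖ ^ 2 + ∑ k, ‖B k j‖ ^ 2) / 2 := by
        rw [← Finset.sum_add_distrib, Finset.sum_div]
    _ ≤ _ := by
        have := hcol i
        have := hcol j
        linarith

theorem tri_le {P : Matrix ι ι ℂ} (hP : P.PosSemidef) {c : ι → ι → ι → ℝ} {η : ℝ}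
    (hc : ∀ i j k, |c i j k| ≤ η) :
    tri (fun i j => P i j) c ≤ η * ((Fintype.card ι : ℝ) ^ 3 * P.trace.re ^ 3) := by
  have htr : 0 ≤ P.trace.re := (Complex.nonneg_iff.mp hP.trace_nonneg).1
  unfold tri
  calc (∑ i, ∑ j, ∑ k, P i j * P j k * P k i * ((c i j k : ℝ) : ℂ)).re
      ≤ ‖∑ i, ∑ j, ∑ k, P i j * P j k * P k i * ((c i j k : ℝ) : ℂ)‖ := Complex.re_le_norm _
    _ ≤ ∑ i : ι, ∑ j : ι, ∑ k : ι, (η * P.trace.re ^ 3) := by
        refine (norm_sum_le _ _).trans (Finset.sum_le_sum fun i _ => ?_)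
        refine (norm_sum_le _ _).trans (Finset.sum_le_sum fun j _ => ?_)
        refine (norm_sum_le _ _).trans (Finset.sum_le_sum fun k _ => ?_)
        rw [norm_mul, norm_mul, norm_mul, Complex.norm_real, Real.norm_eq_abs]
        have h1 := norm_entry_le hP i j
        have h2 := norm_entry_le hP j k
        have h3 := norm_entry_le hP k i
        calc ‖P i j‖ * ‖P j k‖ * ‖P k i‖ * |c i j k|
            ≤ P.trace.re * P.trace.re * P.trace.re * η := by
              gcongr
              exact hc i j k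
          _ = η * P.trace.re ^ 3 := by ring
    _ = _ := by
        simp only [Finset.sum_const, Finset.card_univ, nsmul_eq_mul]
        ring

/-- the pointwise matrix inequality -/
theorem pointwise {M P : Matrix ι ι ℂ} {ε η : ℝ} (hε : 0 < ε) (hM : M.IsHermitian)
    (hlo : (M - (ε : ℂ) • (1 : Matrix ι ι ℂ)).PosSemidef)
    (hhi : (((1 - ε : ℝ) : ℂ) • (1 : Matrix ι ι ℂ) - M).PosSemidef)
    (hP : P.PosSemidef) {p : Polynomial ℝ}
    (hk : ∀ s ∈ Set.Icc ε (1 - ε), ∀ t ∈ Set.Icc ε (1 - ε), ∀ r ∈ Set.Icc ε (1 - ε),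
      |4 * (p.eval (s + r) * p.eval (t + r)) + 2 * ddq p (s + r) (t + r)
        + π ^ 2 / 4 * (1 + dk s t r)| ≤ η) :
    4 * (trace (Gp p M P * P * Gp p M P)).re + Rp p M P
      ≤ -(π ^ 2 / 4) * (trace (P * P * P)).re + η * ((Fintype.card ι : ℝ) ^ 3 * P.trace.re ^ 3) := by
  obtain ⟨V, m, h1, h2, hd⟩ := exists_diag hM
  have hone : cj V (1 : Matrix ι ι ℂ) = 1 := by
    unfold cj
    rw [mul_one, h1]
  have hm : ∀ i, m i ∈ Set.Icc ε (1 - ε) := by
    intro i
    have g1 := (posSemidef_cj (V := V) hlo).diag_nonneg (i := i)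
    have g2 := (posSemidef_cj (V := V) hhi).diag_nonneg (i := i)
    have e1 : cj V (M - (ε : ℂ) • (1 : Matrix ι ι ℂ)) i i = ((m i - ε : ℝ) : ℂ) := by
      have : cj V (M - (ε : ℂ) • (1 : Matrix ι ι ℂ)) = diagonal (fun i => (m i : ℂ)) - (ε : ℂ) • 1 := by
        rw [sub_eq_add_neg, cj_add, ← hd, ← neg_smul, cj_smul, hone, neg_smul, ← sub_eq_add_neg]
        rfl
      rw [this]
      simp
    have e2 : cj V (((1 - ε : ℝ) : ℂ) • (1 : Matrix ι ι ℂ) - M) i i = ((1 - ε - m i : ℝ) : ℂ) := by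
      have : cj V (((1 - ε : ℝ) : ℂ) • (1 : Matrix ι ι ℂ) - M)
          = ((1 - ε : ℝ) : ℂ) • 1 - diagonal (fun i => (m i : ℂ)) := by
        rw [sub_eq_add_neg, cj_add, ← hd, cj_smul, hone, sub_eq_add_neg]
        congr 1
        have : -M = (-1 : ℂ) • M := by rw [neg_one_smul]
        rw [this, cj_smul, neg_one_smul]
        rfl
      rw [this]
      simp
    rw [e1, Complex.nonneg_iff, Complex.ofReal_re] at g1
    rw [e2, Complex.nonneg_iff, Complex.ofReal_re] at g2
    exact ⟨by linarith [g1.1], by linarith [g2.1]⟩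
  set Q : Matrix ι ι ℂ := cj V P with hQ
  have hQp : Q.PosSemidef := posSemidef_cj hP
  have htr : Q.trace = P.trace := trace_cj h2 P
  have hpi := Real.pi_pos
  have hov : 0 ≤ tri (fun i j => Q i j) (fun i j k => dk (m i) (m j) (m k)) := by
    have hPD : PD (fun i j => Q i j) := (pd_iff _).mpr hQp
    have h0 : ∀ i, 0 < π * m i / 2 := fun i => by
      have := lt_of_lt_of_le hε (hm i).1
      positivity
    have h3 : ∀ i, π * m i / 2 < π / 2 := fun i => by
      have := (hm i).2
      have : m i < 1 := by linarith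
      nlinarith
    exact ov hPD h0 h3
  rw [GPG_eq h2 hd, Rp_eq h2 hd, PPP_eq h2, ← htr, ← hQ]
  have hle := tri_le hQp (η := η) (c := fun i j k => 4 * (p.eval (m i + m k) * p.eval (m j + m k))
    + 2 * ddq p (m i + m k) (m j + m k) + π ^ 2 / 4 * (1 + dk (m i) (m j) (m k)))
    (fun i j k => hk _ (hm i) _ (hm j) _ (hm k))
  have hsplit : tri (fun i j => Q i j) (fun i j k => 4 * (p.eval (m i + m k) * p.eval (m j + m k))
    + 2 * ddq p (m i + m k) (m j + m k) + π ^ 2 / 4 * (1 + dk (m i) (m j) (m k)))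
    = 4 * tri (fun i j => Q i j) (fun i j k => p.eval (m i + m k) * p.eval (m j + m k))
      + tri (fun i j => Q i j) (fun i j k => 2 * ddq p (m i + m k) (m j + m k))
      + π ^ 2 / 4 * (tri (fun i j => Q i j) (fun _ _ _ => 1)
        + tri (fun i j => Q i j) (fun i j k => dk (m i) (m j) (m k))) := by
    rw [← tri_smul, ← tri_add, ← tri_add, ← tri_smul, ← tri_add]
  rw [hsplit] at hle
  have : 0 ≤ π ^ 2 / 4 * tri (fun i j => Q i j) (fun i j k => dk (m i) (m j) (m k)) := by positivity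
  linarith

end Pool.Agent.LiebT2
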