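import Mathlib
import Pool.Agent.LiebT2.Point

open Real Finset Matrix ComplexOrder

set_option autoImplicit false

namespace Pool.Agent.LiebT2

set_option linter.unusedSectionVars false

variable {ι : Type*} [Fintype ι] [DecidableEq ι]

/-- entrywise derivative of a matrix valued function -/
def MD (A : ℝ → Matrix ι ι ℂ) (A' : Matrix ι ι ℂ) (x : ℝ) : Prop :=
  ∀ i j, HasDerivAt (fun y => A y i j) (A' i j) x

/-- entrywise continuity -/
def MC (A : ℝ → Matrix ι ι ℂ) : Prop := ∀ i j, Continuous (fun y => A y i j)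

theorem MD.add {A B : ℝ → Matrix ι ι ℂ} {A' B' : Matrix ι ι ℂ} {x : ℝ} (hA : MD A A' x)
    (hB : MD B B' x) : MD (fun y => A y + B y) (A' + B') x :=
  fun i j => (hA i j).add (hB i j)

theorem MD.mul {A B : ℝ → Matrix ι ι ℂ} {A' B' : Matrix ι ι ℂ} {x : ℝ} (hA : MD A A' x)
    (hB : MD B B' x) : MD (fun y => A y * B y) (A' * B x + A x * B') x := by
  intro i j
  have h : HasDerivAt (fun y => ∑ k, A y i k * B y k j)
      (∑ k, (A' i k * B x k j + A x i k * B' k j)) x := by
    apply HasDerivAt.fun_sum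
    intro k _
    exact (hA i k).mul (hB k j)
  simp only [Matrix.mul_apply, Matrix.add_apply]
  rw [← Finset.sum_add_distrib]
  exact h

theorem MD.trace {A : ℝ → Matrix ι ι ℂ} {A' : Matrix ι ι ℂ} {x : ℝ} (hA : MD A A' x) :
    HasDerivAt (fun y => Matrix.trace (A y)) (Matrix.trace A') x := by
  simp only [Matrix.trace, Matrix.diag_apply]
  apply HasDerivAt.fun_sum
  intro i _
  exact hA i i

theorem MD.re_trace {A : ℝ → Matrix ι ι ℂ} {A' : Matrix ι ι ℂ} {x : ℝ} (hA : MD A A' x) :
    HasDerivAt (fun y => (Matrix.trace (A y)).re) (Matrix.trace A').re x :=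
  Complex.reCLM.hasFDerivAt.comp_hasDerivAt x hA.trace

theorem MC.of_MD {A : ℝ → Matrix ι ι ℂ} {A' : ℝ → Matrix ι ι ℂ} (h : ∀ x, MD A (A' x) x) : MC A :=
  fun i j => continuous_iff_continuousAt.mpr fun x => (h x i j).continuousAt

theorem MC.add {A B : ℝ → Matrix ι ι ℂ} (hA : MC A) (hB : MC B) : MC (fun y => A y + B y) :=
  fun i j => (hA i j).add (hB i j)

theorem MC.mul {A B : ℝ → Matrix ι ι ℂ} (hA : MC A) (hB : MC B) : MC (fun y => A y * B y) := by
  intro i j
  simp only [Matrix.mul_apply]
  exact continuous_finsetSum _ fun k _ => (hA i k).mul (hB k j)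

theorem MC.re_trace {A : ℝ → Matrix ι ι ℂ} (hA : MC A) :
    Continuous (fun y => (Matrix.trace (A y)).re) := by
  simp only [Matrix.trace, Matrix.diag_apply]
  exact Complex.continuous_re.comp (continuous_finsetSum _ fun i _ => hA i i)

/-- derivative of the iterates -/
noncomputable def dit (M P P' : Matrix ι ι ℂ) : ℕ → Matrix ι ι ℂ
  | 0 => P'
  | (k + 1) => (P * it M P k + M * dit M P P' k) + (dit M P P' k * M + it M P k * P)

theorem md_it {M P : ℝ → Matrix ι ι ℂ} {P' : Matrix ι ι ℂ} {x : ℝ} (hM : MD M (P x) x)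
    (hP : MD P P' x) (k : ℕ) : MD (fun y => it (M y) (P y) k) (dit (M x) (P x) P' k) x := by
  induction k with
  | zero => exact hP
  | succ k ih => exact (hM.mul ih).add (ih.mul hM)

theorem it_succ' (M X : Matrix ι ι ℂ) (k : ℕ) : it M (M * X + X * M) k = it M X (k + 1) := by
  induction k with
  | zero => rfl
  | succ k ih =>
    rw [it, ih]
    rfl

theorem trace_symm (M X Y : Matrix ι ι ℂ) (k : ℕ) :
    trace (Y * it M X k) = trace (it M Y k * X) := by
  induction k generalizing Y with
  | zero => rfl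
  | succ k ih =>
    have h1 : trace (Y * it M X (k + 1)) = trace ((M * Y + Y * M) * it M X k) := by
      rw [it, Matrix.mul_add, Matrix.add_mul, Matrix.trace_add, Matrix.trace_add,
        ← Matrix.mul_assoc, ← Matrix.mul_assoc, Matrix.trace_mul_comm (Y * it M X k) M,
        ← Matrix.mul_assoc, add_comm]
    rw [h1, ih, it_succ']

theorem it_add (M X Y : Matrix ι ι ℂ) (k : ℕ) : it M (X + Y) k = it M X k + it M Y k := by
  induction k with
  | zero => rfl
  | succ k ih =>
    rw [it, ih, it, it, Matrix.mul_add, Matrix.add_mul]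
    abel

theorem dit_eq (M P P' : Matrix ι ι ℂ) (k : ℕ) :
    dit M P P' k = it M P' k + ∑ a ∈ range k,
      it M (P * it M P (k - 1 - a) + it M P (k - 1 - a) * P) a := by
  induction k with
  | zero => simp [dit, it]
  | succ k ih =>
    have h1 : dit M P P' (k + 1) = (M * dit M P P' k + dit M P P' k * M)
        + (P * it M P k + it M P k * P) := by
      rw [dit]
      abel
    rw [h1, ih, Finset.sum_range_succ']
    have e5 : k + 1 - 1 - 0 = k := by omega
    have e4 : ∀ a, k + 1 - 1 - (a + 1) = k - 1 - a := by intro a; omega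
    simp only [e4, e5]
    rw [Matrix.mul_add, Matrix.add_mul, Finset.mul_sum, Finset.sum_mul]
    have e6 : ∑ a ∈ range k, it M (P * it M P (k - 1 - a) + it M P (k - 1 - a) * P) (a + 1)
        = ∑ a ∈ range k, M * it M (P * it M P (k - 1 - a) + it M P (k - 1 - a) * P) a
          + ∑ a ∈ range k, it M (P * it M P (k - 1 - a) + it M P (k - 1 - a) * P) a * M := by
      rw [← Finset.sum_add_distrib]
      rfl
    have e7 : ∀ X : Matrix ι ι ℂ, it M X 0 = X := fun X => rfl
    rw [e6, e7, it]
    abel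

theorem trace_dit (M P P' : Matrix ι ι ℂ) (k : ℕ) :
    trace (P * dit M P P' k) = trace (P' * it M P k) + ∑ a ∈ range k,
      trace (it M P a * (P * it M P (k - 1 - a) + it M P (k - 1 - a) * P)) := by
  rw [dit_eq, Matrix.mul_add, Matrix.trace_add, trace_symm, Matrix.trace_mul_comm, Finset.mul_sum,
    Matrix.trace_sum]
  congr 1
  apply Finset.sum_congr rfl
  intro a _
  rw [trace_symm]

/-- the calibration -/
noncomputable def Phi (p : Polynomial ℝ) (M P : Matrix ι ι ℂ) : ℝ :=
  ∑ k ∈ range (p.natDegree + 1), p.coeff k * (trace (P * it M P k)).re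

theorem hasDerivAt_Phi (p : Polynomial ℝ) {M P : ℝ → Matrix ι ι ℂ} {P' : Matrix ι ι ℂ} {x : ℝ}
    (hM : MD M (P x) x) (hP : MD P P' x) :
    HasDerivAt (fun y => Phi p (M y) (P y))
      (2 * (trace (P' * Gp p (M x) (P x))).re + Rp p (M x) (P x)) x := by
  have h : HasDerivAt (fun y => Phi p (M y) (P y)) (∑ k ∈ range (p.natDegree + 1),
      p.coeff k * (trace (P' * it (M x) (P x) k + P x * dit (M x) (P x) P' k)).re) x := by
    unfold Phi
    apply HasDerivAt.fun_sum
    intro k _
    exact ((hP.mul (md_it hM hP k)).re_trace).const_mul _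
  refine h.congr_deriv ?_
  unfold Gp Rp
  rw [Finset.mul_sum, Matrix.trace_sum, Complex.re_sum, Finset.mul_sum, ← Finset.sum_add_distrib]
  apply Finset.sum_congr rfl
  intro k _
  rw [Matrix.trace_add, trace_dit, Matrix.mul_smul, Matrix.trace_smul, smul_eq_mul,
    Complex.re_ofReal_mul, Complex.add_re, Complex.add_re, Complex.re_sum]
  ring

theorem isHermitian_it {M P : Matrix ι ι ℂ} (hM : M.IsHermitian) (hP : P.IsHermitian) (k : ℕ) :
    (it M P k).IsHermitian := by
  induction k with
  | zero => exact hP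
  | succ k ih =>
    have h1 : (it M P (k + 1))ᴴ = it M P (k + 1) := by
      rw [it, Matrix.conjTranspose_add, Matrix.conjTranspose_mul, Matrix.conjTranspose_mul, hM.eq,
        ih.eq, add_comm]
    exact h1

theorem isHermitian_Gp (p : Polynomial ℝ) {M P : Matrix ι ι ℂ} (hM : M.IsHermitian)
    (hP : P.IsHermitian) : (Gp p M P).IsHermitian := by
  have h1 : (Gp p M P)ᴴ = Gp p M P := by
    unfold Gp
    rw [Matrix.conjTranspose_sum]
    apply Finset.sum_congr rfl
    intro k _
    rw [Matrix.conjTranspose_smul, (isHermitian_it hM hP k).eq]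
    simp
  exact h1

theorem mc_it {M P : ℝ → Matrix ι ι ℂ} (hM : MC M) (hP : MC P) (k : ℕ) :
    MC (fun y => it (M y) (P y) k) := by
  induction k with
  | zero => exact hP
  | succ k ih => exact (hM.mul ih).add (ih.mul hM)

theorem continuous_Rp (p : Polynomial ℝ) {M P : ℝ → Matrix ι ι ℂ} (hM : MC M) (hP : MC P) :
    Continuous (fun y => Rp p (M y) (P y)) := by
  unfold Rp
  apply continuous_finsetSum
  intro k _
  apply continuous_const.mul
  apply continuous_finsetSum
  intro a _
  have h1 := mc_it hM hP a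
  have h2 := mc_it hM hP (k - 1 - a)
  exact (h1.mul ((hP.mul h2).add (h2.mul hP))).re_trace

theorem mc_Gp (p : Polynomial ℝ) {M P : ℝ → Matrix ι ι ℂ} (hM : MC M) (hP : MC P) :
    MC (fun y => Gp p (M y) (P y)) := by
  intro i j
  unfold Gp
  simp only [Matrix.sum_apply, Matrix.smul_apply, smul_eq_mul]
  exact continuous_finsetSum _ fun k _ => continuous_const.mul (mc_it hM hP k i j)

theorem core_op {a b ε : ℝ} (hab : a ≤ b) (hε : 0 < ε) (hε2 : ε < 1 / 2)
    {M P P' : ℝ → Matrix ι ι ℂ} {e : ℝ → ℝ}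
    (hP : ∀ x, MD P (P' x) x) (hP' : MC P') (hM : ∀ x, MD M (P x) x)
    (hMh : ∀ x, (M x).IsHermitian) (hPs : ∀ x, (P x).PosSemidef)
    (hlo : ∀ x ∈ Set.Icc a b, (M x - (ε : ℂ) • (1 : Matrix ι ι ℂ)).PosSemidef)
    (hhi : ∀ x ∈ Set.Icc a b, (((1 - ε : ℝ) : ℂ) • (1 : Matrix ι ι ℂ) - M x).PosSemidef)
    (he : IntervalIntegrable e MeasureTheory.volume a b)
    (hprop : ∀ x, ∀ G : Matrix ι ι ℂ, G.IsHermitian →
      2 * (trace (P' x * G)).re ≤ e x + 4 * (trace (G * P x * G)).re)
    (hPa : P a = 0) (hPb : P b = 0) :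
    π ^ 2 / 4 * ∫ x in a..b, (trace (P x * P x * P x)).re ≤ ∫ x in a..b, e x := by
  have hMc : MC M := MC.of_MD hM
  have hPc : MC P := MC.of_MD hP
  set C : ℝ := ∫ x in a..b, ((Fintype.card ι : ℝ) ^ 3 * (trace (P x)).re ^ 3) with hC
  have hP3c : Continuous (fun x => (trace (P x * P x * P x)).re) := ((hPc.mul hPc).mul hPc).re_trace
  have hP1c : Continuous (fun x => (trace (P x)).re) := hPc.re_trace
  have htr0 : ∀ x, 0 ≤ (trace (P x)).re := fun x => (Complex.nonneg_iff.mp (hPs x).trace_nonneg).1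
  have hC0 : 0 ≤ C := intervalIntegral.integral_nonneg hab fun x _ => by
    have := htr0 x
    positivity
  have key : ∀ η : ℝ, 0 < η →
      π ^ 2 / 4 * (∫ x in a..b, (trace (P x * P x * P x)).re) - η * C ≤ ∫ x in a..b, e x := by
    intro η hη
    obtain ⟨p, hp⟩ := exists_poly hε hε2 hη
    set F' : ℝ → ℝ := fun x => 2 * (trace (P' x * Gp p (M x) (P x))).re + Rp p (M x) (P x) with hF'
    have hF'c : Continuous F' := by
      rw [hF']
      exact (continuous_const.mul (hP'.mul (mc_Gp p hMc hPc)).re_trace).add (continuous_Rp p hMc hPc)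
    have hint : ∫ x in a..b, F' x = 0 := by
      rw [intervalIntegral.integral_eq_sub_of_hasDerivAt
        (fun x _ => hasDerivAt_Phi p (hM x) (hP x)) (hF'c.intervalIntegrable a b)]
      unfold Phi
      rw [hPa, hPb]
      simp
    have hle : ∫ x in a..b, F' x ≤ ∫ x in a..b, (e x + (-(π ^ 2 / 4) * (trace (P x * P x * P x)).re
        + η * ((Fintype.card ι : ℝ) ^ 3 * (trace (P x)).re ^ 3))) := by
      apply intervalIntegral.integral_mono_on hab (hF'c.intervalIntegrable a b)
      · apply he.add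
        apply Continuous.intervalIntegrable
        fun_prop
      · intro x hx
        have h1 := hprop x (Gp p (M x) (P x)) (isHermitian_Gp p (hMh x) (hPs x).isHermitian)
        have h2 := pointwise hε (hMh x) (hlo x hx) (hhi x hx) (hPs x) hp
        simp only [hF']
        linarith
    rw [hint, intervalIntegral.integral_add he (Continuous.intervalIntegrable (by fun_prop) _ _),
      intervalIntegral.integral_add (Continuous.intervalIntegrable (by fun_prop) _ _)
        (Continuous.intervalIntegrable (by fun_prop) _ _), intervalIntegral.integral_const_mul,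
      intervalIntegral.integral_const_mul, ← hC] at hle
    linarith
  by_contra hcon
  push Not at hcon
  set A := π ^ 2 / 4 * ∫ x in a..b, (trace (P x * P x * P x)).re with hA
  set B := ∫ x in a..b, e x with hB
  have h1 := key ((A - B) / (2 * (C + 1))) (div_pos (by linarith) (by linarith))
  have h2 : (A - B) / (2 * (C + 1)) * C ≤ (A - B) / 2 := by
    rw [div_mul_eq_mul_div, div_le_div_iff₀ (by linarith) (by norm_num)]
    nlinarith
  linarith

end Pool.Agent.LiebT2
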