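import Mathlib
import Pool.Agent.LiebT.Line
import Pool.Agent.LiebT2.Flow

open Real Finset Matrix ComplexOrder

set_option autoImplicit false

namespace Pool.Agent.LiebT2

set_option linter.unusedSectionVars false

variable {ι : Type*} [Fintype ι] [DecidableEq ι]

/-- `∫_a^x P` -/
noncomputable def MI (a : ℝ) (P : ℝ → Matrix ι ι ℂ) (x : ℝ) : Matrix ι ι ℂ :=
  Matrix.of fun i j => ∫ y in a..x, P y i j

theorem md_MI {P : ℝ → Matrix ι ι ℂ} (hP : MC P) (a x : ℝ) : MD (MI a P) (P x) x := by
  intro i j
  exact intervalIntegral.integral_hasDerivAt_right ((hP i j).intervalIntegrable _ _)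
    ((hP i j).stronglyMeasurableAtFilter _ _) (hP i j).continuousAt

theorem posSemidef_MI {P : ℝ → Matrix ι ι ℂ} (hP : MC P) (hPs : ∀ x, (P x).PosSemidef) {a x : ℝ}
    (hx : a ≤ x) : (MI a P x).PosSemidef := by
  have h := pd_integral (K := fun t i j => P t i j) hx (fun t _ => (pd_iff _).mpr (hPs t)) hP
  exact (pd_iff _).mp h

theorem posSemidef_real_smul {X : Matrix ι ι ℂ} (hX : X.PosSemidef) {r : ℝ} (hr : 0 ≤ r) :
    ((r : ℂ) • X).PosSemidef := by
  have h : PD (fun i j => X i j) := (pd_iff _).mpr hX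
  exact (pd_iff _).mp (h.smul hr)

theorem re_trace_cube_nonneg {X : Matrix ι ι ℂ} (hX : X.PosSemidef) :
    0 ≤ (trace (X * X * X)).re := by
  have h := (hX.pow 3).trace_nonneg
  rw [Complex.nonneg_iff] at h
  have e : X ^ 3 = X * X * X := by
    rw [pow_succ, pow_two]
  rw [e] at h
  exact h.1

/-- Sharp one-dimensional inequality for matrix valued densities. -/
theorem lemmaA {a b : ℝ} (hab : a ≤ b) {P P' : ℝ → Matrix ι ι ℂ} {e : ℝ → ℝ}
    (hP : ∀ x, MD P (P' x) x) (hP' : MC P') (hPs : ∀ x, (P x).PosSemidef)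
    (hint : ∀ i j, ∫ x in a..b, P x i j = (1 : Matrix ι ι ℂ) i j)
    (he : IntervalIntegrable e MeasureTheory.volume a b)
    (hprop : ∀ x, ∀ G : Matrix ι ι ℂ, G.IsHermitian →
      2 * (trace (P' x * G)).re ≤ e x + 4 * (trace (G * P x * G)).re)
    (hPa : P a = 0) (hPb : P b = 0) :
    π ^ 2 / 4 * ∫ x in a..b, (trace (P x * P x * P x)).re ≤ ∫ x in a..b, e x := by
  have hPc : MC P := MC.of_MD hP
  have hnn : 0 ≤ ∫ x in a..b, (trace (P x * P x * P x)).re :=
    intervalIntegral.integral_nonneg hab fun x _ => re_trace_cube_nonneg (hPs x)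
  apply Pool.Agent.LiebT.le_of_forall_eps (by positivity)
  intro ε hε hε2
  set c : ℝ := 1 - 2 * ε with hc
  have hc0 : 0 < c := by rw [hc]; linarith
  have hmain := core_op (a := a) (b := b) (ε := ε) hab hε hε2
    (M := fun x => (ε : ℂ) • (1 : Matrix ι ι ℂ) + (c : ℂ) • MI a P x)
    (P := fun x => (c : ℂ) • P x) (P' := fun x => (c : ℂ) • P' x) (e := fun x => c * e x)
    ?_ ?_ ?_ ?_ ?_ ?_ ?_ ?_ ?_ ?_ ?_
  · have e1 : ∀ x, (trace (((c : ℂ) • P x) * ((c : ℂ) • P x) * ((c : ℂ) • P x))).re
        = c ^ 3 * (trace (P x * P x * P x)).re := by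
      intro x
      simp only [Matrix.smul_mul, Matrix.mul_smul, Matrix.trace_smul, smul_eq_mul,
        Complex.re_ofReal_mul]
      ring
    simp only [e1] at hmain
    rw [intervalIntegral.integral_const_mul, intervalIntegral.integral_const_mul] at hmain
    have h3 : c * (c ^ 2 * (π ^ 2 / 4 * ∫ x in a..b, (trace (P x * P x * P x)).re))
        ≤ c * ∫ x in a..b, e x := by
      calc _ = π ^ 2 / 4 * (c ^ 3 * ∫ x in a..b, (trace (P x * P x * P x)).re) := by ring
        _ ≤ _ := hmain
    exact le_of_mul_le_mul_left h3 hc0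
  · intro x i j
    exact (hP x i j).const_mul _
  · intro i j
    exact continuous_const.mul (hP' i j)
  · intro x i j
    have h1 := (md_MI hPc a x i j).const_mul (c : ℂ)
    exact h1.const_add ((ε : ℂ) • (1 : Matrix ι ι ℂ) i j)
  · intro x
    have h1 : (MI a P x).IsHermitian := by
      have hstar : ∀ y i j, star (P y j i) = P y i j := fun y i j => (hPs y).isHermitian.apply i j
      ext i j
      rw [Matrix.conjTranspose_apply]
      unfold MI
      rw [Matrix.of_apply, Matrix.of_apply]
      have h1 : star (∫ y in a..x, P y j i)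
          = Complex.conjCLE.toContinuousLinearMap (∫ y in a..x, P y j i) := rfl
      rw [h1, ← ContinuousLinearMap.intervalIntegral_comp_comm _ ((hPc j i).intervalIntegrable _ _)]
      apply intervalIntegral.integral_congr
      intro t _
      exact hstar t i j
    have h2 : ((ε : ℂ) • (1 : Matrix ι ι ℂ) + (c : ℂ) • MI a P x)ᴴ
        = (ε : ℂ) • (1 : Matrix ι ι ℂ) + (c : ℂ) • MI a P x := by
      rw [Matrix.conjTranspose_add, Matrix.conjTranspose_smul, Matrix.conjTranspose_smul, h1.eq]
      simp
    exact h2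
  · intro x
    exact posSemidef_real_smul (hPs x) hc0.le
  · intro x hx
    have : (ε : ℂ) • (1 : Matrix ι ι ℂ) + (c : ℂ) • MI a P x - (ε : ℂ) • (1 : Matrix ι ι ℂ)
        = (c : ℂ) • MI a P x := by abel
    simp only [this]
    exact posSemidef_real_smul (posSemidef_MI hPc hPs hx.1) hc0.le
  · intro x hx
    have h1 : (1 : Matrix ι ι ℂ) = MI a P x + MI x P b := by
      ext i j
      rw [← hint i j, Matrix.add_apply]
      unfold MI
      rw [Matrix.of_apply, Matrix.of_apply]
      exact (intervalIntegral.integral_add_adjacent_intervals ((hPc i j).intervalIntegrable _ _)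
        ((hPc i j).intervalIntegrable _ _)).symm
    have h2 : (((1 - ε : ℝ) : ℂ) • (1 : Matrix ι ι ℂ)
        - ((ε : ℂ) • (1 : Matrix ι ι ℂ) + (c : ℂ) • MI a P x)) = (c : ℂ) • MI x P b := by
      have h3 : MI x P b = 1 - MI a P x := by
        rw [h1]
        abel
      rw [h3, smul_sub, ← sub_sub, ← sub_smul, hc]
      push_cast
      congr 2
      ring
    simp only [h2]
    exact posSemidef_real_smul (posSemidef_MI hPc hPs hx.2) hc0.le
  · exact he.const_mul c
  · intro x G hG
    have h := hprop x G hG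
    have e1 : (trace ((c : ℂ) • P' x * G)).re = c * (trace (P' x * G)).re := by
      rw [Matrix.smul_mul, Matrix.trace_smul, smul_eq_mul, Complex.re_ofReal_mul]
    have e2 : (trace (G * ((c : ℂ) • P x) * G)).re = c * (trace (G * P x * G)).re := by
      rw [Matrix.mul_smul, Matrix.smul_mul, Matrix.trace_smul, smul_eq_mul, Complex.re_ofReal_mul]
    rw [e1, e2]
    nlinarith
  · simp [hPa]
  · simp [hPb]

/-- The sharp `γ = 3/2` step in matrix form. -/
theorem lemmaB {a b : ℝ} (hab : a ≤ b) {P P' : ℝ → Matrix ι ι ℂ} {e : ℝ → ℝ}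
    (hP : ∀ x, MD P (P' x) x) (hP' : MC P') (hPh : ∀ x, (P x).IsHermitian) {D : Matrix ι ι ℂ}
    (hint : ∀ i j, ∫ x in a..b, P x i j = D i j)
    (he : IntervalIntegrable e MeasureTheory.volume a b)
    (hprop : ∀ x, ∀ G : Matrix ι ι ℂ, G.IsHermitian →
      2 * (trace (P' x * G)).re ≤ e x + 4 * (trace (G * P x * G)).re)
    (hPa : P a = 0) (hPb : P b = 0) (c : ℝ) :
    c * ∫ x in a..b, (trace (P x * P x)).re
      ≤ (∫ x in a..b, e x) + c ^ 2 / 12 * (trace (D * D * D)).re := by
  have hPc : MC P := MC.of_MD hP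
  have hstar : ∀ y i j, star (P y j i) = P y i j := fun y i j => (hPh y).apply i j
  have hMh : ∀ x, (MI a P x).IsHermitian := by
    intro x
    ext i j
    rw [Matrix.conjTranspose_apply]
    unfold MI
    rw [Matrix.of_apply, Matrix.of_apply]
    have h1 : star (∫ y in a..x, P y j i)
        = Complex.conjCLE.toContinuousLinearMap (∫ y in a..x, P y j i) := rfl
    rw [h1, ← ContinuousLinearMap.intervalIntegral_comp_comm _ ((hPc j i).intervalIntegrable _ _)]
    apply intervalIntegral.integral_congr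
    intro t _
    exact hstar t i j
  have hDh : D.IsHermitian := by
    have : D = MI a P b := by
      ext i j
      exact (hint i j).symm
    rw [this]
    exact hMh b
  set X : ℝ → Matrix ι ι ℂ := fun x => MI a P x + ((-(1 / 2) : ℝ) : ℂ) • D with hX
  have hXd : ∀ x, MD X (P x) x := by
    intro x i j
    exact (md_MI hPc a x i j).add_const _
  have hXc : MC X := MC.of_MD hXd
  have hXh : ∀ x, (X x).IsHermitian := by
    intro x
    have h2 : (X x)ᴴ = X x := by
      rw [hX]
      simp only
      rw [Matrix.conjTranspose_add, Matrix.conjTranspose_smul, (hMh x).eq, hDh.eq]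
      simp
    exact h2
  have hXa : X a = ((-(1 / 2) : ℝ) : ℂ) • D := by
    ext i j
    simp [hX, MI]
  have hXb : X b = ((1 / 2 : ℝ) : ℂ) • D := by
    ext i j
    simp only [hX, MI, Matrix.add_apply, Matrix.of_apply, hint, Matrix.smul_apply, smul_eq_mul]
    push_cast
    ring
  set F : ℝ → ℝ := fun x => -c * (trace (P x * X x)).re
    - c ^ 2 / 3 * (trace (X x * X x * X x)).re with hF
  set F' : ℝ → ℝ := fun x => -c * (trace (P' x * X x + P x * P x)).re
    - c ^ 2 / 3 * (trace ((P x * X x + X x * P x) * X x + X x * X x * P x)).re with hF'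
  have hFd : ∀ x, HasDerivAt F (F' x) x := by
    intro x
    exact (((hP x).mul (hXd x)).re_trace.const_mul (-c)).sub
      ((((hXd x).mul (hXd x)).mul (hXd x)).re_trace.const_mul (c ^ 2 / 3))
  have hF'c : Continuous F' := by
    rw [hF']
    exact (continuous_const.mul ((hP'.mul hXc).add (hPc.mul hPc)).re_trace).sub
      (continuous_const.mul ((((hPc.mul hXc).add (hXc.mul hPc)).mul hXc).add
        ((hXc.mul hXc).mul hPc)).re_trace)
  have hint2 : ∫ x in a..b, F' x = -(c ^ 2 / 12 * (trace (D * D * D)).re) := by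
    rw [intervalIntegral.integral_eq_sub_of_hasDerivAt (fun x _ => hFd x)
      (hF'c.intervalIntegrable a b)]
    have e3 : ∀ r : ℝ, (trace (((r : ℂ) • D) * ((r : ℂ) • D) * ((r : ℂ) • D))).re
        = r ^ 3 * (trace (D * D * D)).re := by
      intro r
      simp only [Matrix.smul_mul, Matrix.mul_smul, Matrix.trace_smul, smul_eq_mul,
        Complex.re_ofReal_mul]
      ring
    simp only [hF, hPa, hPb, hXa, hXb, zero_mul, Matrix.trace_zero, Complex.zero_re, e3]
    ring
  have hpt : ∀ x, F' x + c * (trace (P x * P x)).re ≤ e x := by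
    intro x
    have h := hprop x (((-(c / 2) : ℝ) : ℂ) • X x) (by
      have h2 : (((-(c / 2) : ℝ) : ℂ) • X x)ᴴ = ((-(c / 2) : ℝ) : ℂ) • X x := by
        rw [Matrix.conjTranspose_smul, (hXh x).eq]
        simp
      exact h2)
    have e1 : (trace (P' x * (((-(c / 2) : ℝ) : ℂ) • X x))).re = -(c / 2) * (trace (P' x * X x)).re := by
      rw [Matrix.mul_smul, Matrix.trace_smul, smul_eq_mul, Complex.re_ofReal_mul]
    have e2 : (trace ((((-(c / 2) : ℝ) : ℂ) • X x) * P x * (((-(c / 2) : ℝ) : ℂ) • X x))).re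
        = c ^ 2 / 4 * (trace (X x * P x * X x)).re := by
      rw [Matrix.smul_mul, Matrix.smul_mul, Matrix.mul_smul, Matrix.trace_smul, Matrix.trace_smul]
      simp only [smul_eq_mul, Complex.re_ofReal_mul]
      ring
    rw [e1, e2] at h
    have e3 : trace (P x * X x * X x) = trace (X x * P x * X x) := by
      rw [Matrix.trace_mul_comm, Matrix.mul_assoc]
    have e4 : trace (X x * X x * P x) = trace (X x * P x * X x) := by
      rw [Matrix.mul_assoc, Matrix.trace_mul_comm, Matrix.mul_assoc]
    simp only [hF', Matrix.trace_add, Matrix.add_mul, Complex.add_re, e3, e4]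
    linarith
  have hle : ∫ x in a..b, (F' x + c * (trace (P x * P x)).re) ≤ ∫ x in a..b, e x := by
    apply intervalIntegral.integral_mono_on hab _ he (fun x _ => hpt x)
    exact (hF'c.add (continuous_const.mul (hPc.mul hPc).re_trace)).intervalIntegrable _ _
  have hint3 : IntervalIntegrable (fun x => c * (trace (P x * P x)).re) MeasureTheory.volume a b :=
    (continuous_const.mul (hPc.mul hPc).re_trace).intervalIntegrable _ _
  rw [intervalIntegral.integral_add (hF'c.intervalIntegrable _ _) hint3,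
    intervalIntegral.integral_const_mul, hint2] at hle
  linarith

end Pool.Agent.LiebT2
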