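import Mathlib
import Pool.Agent.LiebT2.Geo
import Pool.Agent.LiebT2.LemAB

open Real Finset Matrix MeasureTheory ComplexOrder

set_option autoImplicit false

namespace Pool.Agent.LiebT2

set_option linter.unusedSectionVars false

variable {k N : ℕ}

/-- a finite family of `C¹` compactly supported functions -/
structure Fam (v : Fin N → (Fin k → ℝ) → ℂ) : Prop where
  smooth : ∀ n, ContDiff ℝ 1 (v n)
  supp : ∀ n, HasCompactSupport (v n)

/-- density -/
noncomputable def rho (v : Fin N → (Fin k → ℝ) → ℂ) (y : Fin k → ℝ) : ℝ := ∑ n, ‖v n y‖ ^ 2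

/-- Gram matrix -/
noncomputable def gram (v : Fin N → (Fin k → ℝ) → ℂ) : Matrix (Fin N) (Fin N) ℂ :=
  Matrix.of fun n m => ∫ y, v n y * star (v m y)

/-- kinetic energy density -/
noncomputable def dens (v : Fin N → (Fin k → ℝ) → ℂ) (y : Fin k → ℝ) : ℝ :=
  ∑ n, ∑ i, ‖fderiv ℝ (v n) y (Pi.single i 1)‖ ^ 2

/-- kinetic energy -/
noncomputable def kin (v : Fin N → (Fin k → ℝ) → ℂ) : ℝ := ∫ y, dens v y

/-- slice of a family -/
noncomputable def sl (v : Fin N → (Fin (k + 1) → ℝ) → ℂ) (x : ℝ) : Fin N → (Fin k → ℝ) → ℂ :=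
  fun n y => v n (cL k (x, y))

/-- derivative in the first variable -/
noncomputable def d0 (v : Fin N → (Fin (k + 1) → ℝ) → ℂ) (n : Fin N) (z : Fin (k + 1) → ℝ) : ℂ :=
  fderiv ℝ (v n) z (Pi.single 0 1)

theorem Fam.van {v : Fin N → (Fin k → ℝ) → ℂ} (hv : Fam v) :
    ∃ R : ℝ, 0 < R ∧ ∀ n, Van R (v n) ∧ Van R (fderiv ℝ (v n)) := by
  choose R hR0 hR using fun n => exists_van (hv.supp n)
  choose R' hR0' hR' using fun n => exists_van ((hv.supp n).fderiv ℝ)
  refine ⟨1 + ∑ n, (R n + R' n), ?_, fun n => ⟨(hR n).mono ?_, (hR' n).mono ?_⟩⟩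
  · have : 0 ≤ ∑ n, (R n + R' n) := Finset.sum_nonneg fun n _ => by
      have := hR0 n; have := hR0' n; linarith
    linarith
  · have := Finset.single_le_sum (f := fun n => R n + R' n)
      (fun n _ => by have := hR0 n; have := hR0' n; show 0 ≤ R n + R' n; linarith) (Finset.mem_univ n)
    have h2 := hR0' n
    linarith
  · have := Finset.single_le_sum (f := fun n => R n + R' n)
      (fun n _ => by have := hR0 n; have := hR0' n; show 0 ≤ R n + R' n; linarith) (Finset.mem_univ n)
    have h2 := hR0 n
    linarith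

theorem Fam.continuous {v : Fin N → (Fin k → ℝ) → ℂ} (hv : Fam v) (n : Fin N) : Continuous (v n) :=
  (hv.smooth n).continuous

theorem Fam.continuous_fderiv {v : Fin N → (Fin k → ℝ) → ℂ} (hv : Fam v) (n : Fin N) :
    Continuous (fderiv ℝ (v n)) := (hv.smooth n).continuous_fderiv one_ne_zero

theorem continuous_rho {v : Fin N → (Fin k → ℝ) → ℂ} (hv : Fam v) : Continuous (rho v) := by
  unfold rho
  exact continuous_finsetSum _ fun n _ => ((hv.continuous n).norm).pow 2

theorem continuous_dens {v : Fin N → (Fin k → ℝ) → ℂ} (hv : Fam v) : Continuous (dens v) := by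
  unfold dens
  exact continuous_finsetSum _ fun n _ => continuous_finsetSum _ fun i _ =>
    (((hv.continuous_fderiv n).clm_apply continuous_const).norm).pow 2

theorem continuous_d0 {v : Fin N → (Fin (k + 1) → ℝ) → ℂ} (hv : Fam v) (n : Fin N) :
    Continuous (d0 v n) := (hv.continuous_fderiv n).clm_apply continuous_const

theorem van_rho {v : Fin N → (Fin k → ℝ) → ℂ} {R : ℝ} (hR : ∀ n, Van R (v n)) : Van R (rho v) := by
  intro z hz
  unfold rho
  apply Finset.sum_eq_zero
  intro n _
  rw [hR n z hz]
  simp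

theorem van_dens {v : Fin N → (Fin k → ℝ) → ℂ} {R : ℝ} (hR : ∀ n, Van R (fderiv ℝ (v n))) :
    Van R (dens v) := by
  intro z hz
  unfold dens
  apply Finset.sum_eq_zero
  intro n _
  apply Finset.sum_eq_zero
  intro i _
  rw [hR n z hz]
  simp

theorem cL_one : cL k (1, 0) = Pi.single (0 : Fin (k + 1)) (1 : ℝ) := by
  rw [cL_apply]
  funext i
  refine Fin.cases ?_ (fun j => ?_) i
  · simp
  · simp [Fin.succ_ne_zero]

theorem cL_succ (i : Fin k) : cL k (0, Pi.single i 1) = Pi.single i.succ (1 : ℝ) := by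
  rw [cL_apply]
  funext j
  refine Fin.cases ?_ (fun l => ?_) j
  · simp [(Fin.succ_ne_zero i).symm]
  · simp only [Fin.cons_succ]
    by_cases h : l = i
    · subst h; simp
    · rw [Pi.single_eq_of_ne h, Pi.single_eq_of_ne (fun hh => h (Fin.succ_injective _ hh))]

theorem hasDerivAt_sl {v : Fin N → (Fin (k + 1) → ℝ) → ℂ} (hv : Fam v) (n : Fin N) (x : ℝ)
    (y : Fin k → ℝ) : HasDerivAt (fun t => v n (cL k (t, y))) (d0 v n (cL k (x, y))) x := by
  have h1 : HasDerivAt (fun t : ℝ => (t, y)) ((1 : ℝ), (0 : Fin k → ℝ)) x :=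
    (hasDerivAt_id x).prodMk (hasDerivAt_const x y)
  have h2 : HasDerivAt (fun t : ℝ => cL k (t, y)) (cL k (1, 0)) x :=
    ((cL k).toContinuousLinearMap.hasFDerivAt).comp_hasDerivAt x h1
  have h3 := ((hv.smooth n).differentiable one_ne_zero (cL k (x, y))).hasFDerivAt.comp_hasDerivAt x h2
  rw [cL_one] at h3
  exact h3

theorem Fam.sl {v : Fin N → (Fin (k + 1) → ℝ) → ℂ} (hv : Fam v) (x : ℝ) : Fam (sl v x) := by
  refine ⟨fun n => ?_, fun n => ?_⟩
  · exact (hv.smooth n).comp ((cL k).contDiff.comp (contDiff_const.prodMk contDiff_id))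
  · obtain ⟨R, _, hR⟩ := exists_van (hv.supp n)
    apply HasCompactSupport.intro (isCompact_closedBall (0 : Fin k → ℝ) R)
    intro y hy
    apply hR
    rw [mem_closedBall_zero_iff, not_le] at hy
    exact hy.le.trans (norm_cL_ge2 k x y)

theorem fderiv_sl {v : Fin N → (Fin (k + 1) → ℝ) → ℂ} (hv : Fam v) (x : ℝ) (n : Fin N)
    (y : Fin k → ℝ) (i : Fin k) : fderiv ℝ (sl v x n) y (Pi.single i 1)
      = fderiv ℝ (v n) (cL k (x, y)) (Pi.single i.succ 1) := by
  have h1 : HasFDerivAt (fun y : Fin k → ℝ => (x, y)) (ContinuousLinearMap.inr ℝ ℝ (Fin k → ℝ)) y :=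
    hasFDerivAt_prodMk_right x y
  have h2 : HasFDerivAt (fun y : Fin k → ℝ => cL k (x, y))
      ((cL k).toContinuousLinearMap.comp (ContinuousLinearMap.inr ℝ ℝ (Fin k → ℝ))) y :=
    ((cL k).toContinuousLinearMap.hasFDerivAt).comp y h1
  have h3 := ((hv.smooth n).differentiable one_ne_zero (cL k (x, y))).hasFDerivAt.comp y h2
  have h4 : fderiv ℝ (Pool.Agent.LiebT2.sl v x n) y = _ := h3.fderiv
  rw [h4]
  simp only [ContinuousLinearMap.comp_apply, ContinuousLinearMap.inr_apply]
  exact congrArg _ (cL_succ i)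

theorem dens_split {v : Fin N → (Fin (k + 1) → ℝ) → ℂ} (hv : Fam v) (x : ℝ) (y : Fin k → ℝ) :
    dens v (cL k (x, y)) = (∑ n, ‖d0 v n (cL k (x, y))‖ ^ 2) + dens (sl v x) y := by
  unfold dens
  rw [← Finset.sum_add_distrib]
  apply Finset.sum_congr rfl
  intro n _
  rw [Fin.sum_univ_succ]
  congr 1
  apply Finset.sum_congr rfl
  intro i _
  rw [fderiv_sl hv]

/-- the derivative of the Gram matrix of slices -/
noncomputable def gram' (v : Fin N → (Fin (k + 1) → ℝ) → ℂ) (x : ℝ) : Matrix (Fin N) (Fin N) ℂ :=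
  Matrix.of fun n m => ∫ y, (d0 v n (cL k (x, y)) * star (v m (cL k (x, y)))
    + v n (cL k (x, y)) * star (d0 v m (cL k (x, y))))

/-- the energy in the first variable -/
noncomputable def e0 (v : Fin N → (Fin (k + 1) → ℝ) → ℂ) (x : ℝ) : ℝ :=
  ∫ y, ∑ n, ‖d0 v n (cL k (x, y))‖ ^ 2

theorem van_mul_star {v : Fin N → (Fin k → ℝ) → ℂ} {R : ℝ} (hR : ∀ n, Van R (v n)) (n m : Fin N) :
    Van R (fun z => v n z * star (v m z)) := by
  intro z hz
  simp [hR n z hz]

theorem continuous_mul_star {v : Fin N → (Fin k → ℝ) → ℂ} (hv : Fam v) (n m : Fin N) :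
    Continuous (fun z => v n z * star (v m z)) := (hv.continuous n).mul (hv.continuous m).star

theorem van_d0 {v : Fin N → (Fin (k + 1) → ℝ) → ℂ} {R : ℝ} (hR : ∀ n, Van R (fderiv ℝ (v n)))
    (n : Fin N) : Van R (d0 v n) := by
  intro z hz
  unfold d0
  rw [hR n z hz]
  simp

theorem mc_gram' {v : Fin N → (Fin (k + 1) → ℝ) → ℂ} (hv : Fam v) : MC (gram' v) := by
  obtain ⟨R, _, hR⟩ := hv.van
  intro n m
  have h := continuous_slice (k := k) (F := fun z => d0 v n z * star (v m z) + v n z * star (d0 v m z))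
    (R := R) (((continuous_d0 hv n).mul (hv.continuous m).star).add
      ((hv.continuous n).mul (continuous_d0 hv m).star)) (by
        intro z hz
        simp [(hR n).1 z hz, (hR m).1 z hz])
  exact h

theorem md_gram {v : Fin N → (Fin (k + 1) → ℝ) → ℂ} (hv : Fam v) (x : ℝ) :
    MD (fun t => gram (sl v t)) (gram' v x) x := by
  obtain ⟨R, _, hR⟩ := hv.van
  intro n m
  have hcl : Continuous (fun p : ℝ × (Fin k → ℝ) => cL k (p.1, p.2)) := (cL k).continuous
  apply hasDerivAt_param (K := Metric.closedBall (0 : Fin k → ℝ) R)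
    (g := fun x y => v n (cL k (x, y)) * star (v m (cL k (x, y))))
    (g' := fun x y => (d0 v n (cL k (x, y)) * star (v m (cL k (x, y)))
    + v n (cL k (x, y)) * star (d0 v m (cL k (x, y)))))
  · exact (continuous_mul_star hv n m).comp hcl
  · exact (((continuous_d0 hv n).mul (hv.continuous m).star).add
      ((hv.continuous n).mul (continuous_d0 hv m).star)).comp hcl
  · intro t y
    exact (hasDerivAt_sl hv n t y).mul (hasDerivAt_sl hv m t y).star
  · exact isCompact_closedBall _ _
  · intro t y hy
    rw [mem_closedBall_zero_iff, not_le] at hy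
    have hz : R ≤ ‖cL k (t, y)‖ := hy.le.trans (norm_cL_ge2 k t y)
    simp [(hR n).1 _ hz]
  · intro t y hy
    rw [mem_closedBall_zero_iff, not_le] at hy
    have hz : R ≤ ‖cL k (t, y)‖ := hy.le.trans (norm_cL_ge2 k t y)
    simp [(hR n).1 _ hz, (hR m).1 _ hz]

theorem integrable_of_van {E : Type*} [NormedAddCommGroup E] {F : (Fin k → ℝ) → E}
    (hF : Continuous F) {R : ℝ} (hR : Van R F) : Integrable F := by
  apply hF.integrable_of_hasCompactSupport
  apply HasCompactSupport.intro (isCompact_closedBall (0 : Fin k → ℝ) R)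
  intro y hy
  rw [mem_closedBall_zero_iff, not_le] at hy
  exact hR y hy.le

theorem pd_gram {v : Fin N → (Fin k → ℝ) → ℂ} (hv : Fam v) : PD (fun i j => gram v i j) := by
  obtain ⟨R, _, hR⟩ := hv.van
  have hint : ∀ n m, Integrable (fun y => v n y * star (v m y)) := fun n m =>
    integrable_of_van (continuous_mul_star hv n m) (van_mul_star (fun n => (hR n).1) n m)
  refine ⟨fun i j => ?_, fun c => ?_⟩
  · show (∫ y, v j y * star (v i y)) = star (∫ y, v i y * star (v j y))
    have h1 : star (∫ y, v i y * star (v j y)) = (starRingEnd ℂ) (∫ y, v i y * star (v j y)) := rfl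
    rw [h1, ← integral_conj]
    congr 1
    funext y
    simp [mul_comm]
  · have e : (∑ i, ∑ j, star (c i) * gram v i j * c j)
        = ∫ y, ((Complex.normSq (∑ i, star (c i) * v i y) : ℝ) : ℂ) := by
      have e1 : ∀ y, ((Complex.normSq (∑ i, star (c i) * v i y) : ℝ) : ℂ)
          = ∑ i, ∑ j, star (c i) * (v i y * star (v j y)) * c j := by
        intro y
        rw [← Complex.mul_conj, map_sum, Finset.sum_mul_sum]
        apply Finset.sum_congr rfl
        intro i _
        apply Finset.sum_congr rfl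
        intro j _
        simp only [map_mul, RCLike.star_def, Complex.conj_conj]
        ring
      simp only [e1]
      rw [integral_finsetSum _ (fun i _ => integrable_finsetSum _
        (fun j _ => ((hint i j).const_mul _).mul_const _))]
      apply Finset.sum_congr rfl
      intro i _
      rw [integral_finsetSum _ (fun j _ => ((hint i j).const_mul _).mul_const _)]
      apply Finset.sum_congr rfl
      intro j _
      rw [integral_mul_const, integral_const_mul]
      rfl
    rw [e, integral_complex_ofReal, Complex.ofReal_re]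
    exact integral_nonneg fun y => Complex.normSq_nonneg _

theorem posSemidef_gram {v : Fin N → (Fin k → ℝ) → ℂ} (hv : Fam v) : (gram v).PosSemidef :=
  (pd_iff _).mp (pd_gram hv)

theorem vec_ineq (a d : Fin N → ℂ) {G : Matrix (Fin N) (Fin N) ℂ} (hG : G.IsHermitian) :
    2 * (∑ n, ∑ m, (d n * star (a m) + a n * star (d m)) * G m n).re
      ≤ (∑ n, ‖d n‖ ^ 2) + 4 * (∑ i, ∑ j, ∑ l, G l i * (a i * star (a j)) * G j l).re := by
  have hs : ∀ i j, star (G i j) = G j i := fun i j => hG.apply j i
  set w : Fin N → ℂ := fun m => ∑ n, G m n * a n with hw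
  have e1 : ∑ n, ∑ m, (d n * star (a m) + a n * star (d m)) * G m n
      = (∑ n, d n * star (w n)) + ∑ n, star (d n) * w n := by
    have h1 : ∑ n, d n * star (w n) = ∑ n, ∑ m, d n * star (a m) * G m n := by
      apply Finset.sum_congr rfl
      intro n _
      rw [hw]
      simp only [star_sum, star_mul', hs, Finset.mul_sum]
      apply Finset.sum_congr rfl
      intro m _
      ring
    have h2 : ∑ n, star (d n) * w n = ∑ n, ∑ m, a n * star (d m) * G m n := by
      rw [Finset.sum_comm]
      apply Finset.sum_congr rfl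
      intro n _
      rw [hw]
      simp only [Finset.mul_sum]
      apply Finset.sum_congr rfl
      intro m _
      ring
    rw [h1, h2, ← Finset.sum_add_distrib]
    apply Finset.sum_congr rfl
    intro n _
    rw [← Finset.sum_add_distrib]
    apply Finset.sum_congr rfl
    intro m _
    ring
  have e2 : ∑ i, ∑ j, ∑ l, G l i * (a i * star (a j)) * G j l = ∑ l, w l * star (w l) := by
    have h1 : ∑ l, w l * star (w l) = ∑ l, ∑ i, ∑ j, G l i * (a i * star (a j)) * G j l := by
      apply Finset.sum_congr rfl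
      intro l _
      rw [hw]
      simp only [star_sum, star_mul', hs]
      rw [Finset.sum_mul_sum]
      apply Finset.sum_congr rfl
      intro i _
      apply Finset.sum_congr rfl
      intro j _
      ring
    rw [h1]
    calc ∑ i, ∑ j, ∑ l, G l i * (a i * star (a j)) * G j l
        = ∑ i, ∑ l, ∑ j, G l i * (a i * star (a j)) * G j l :=
          Finset.sum_congr rfl fun i _ => Finset.sum_comm
      _ = ∑ l, ∑ i, ∑ j, G l i * (a i * star (a j)) * G j l := Finset.sum_comm
  rw [e1, e2]
  have e3 : ((∑ n, d n * star (w n)) + ∑ n, star (d n) * w n).re = ∑ n, 2 * (star (d n) * w n).re := by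
    rw [← Finset.sum_add_distrib, Complex.re_sum]
    apply Finset.sum_congr rfl
    intro n _
    have : d n * star (w n) = star (star (d n) * w n) := by rw [star_mul', star_star]
    rw [this, Complex.add_re]
    simp only [RCLike.star_def, Complex.conj_re]
    ring
  have e4 : (∑ l, w l * star (w l)).re = ∑ l, ‖w l‖ ^ 2 := by
    rw [Complex.re_sum]
    apply Finset.sum_congr rfl
    intro l _
    have h := Complex.mul_conj (w l)
    rw [Complex.normSq_eq_norm_sq] at h
    have h2 : w l * star (w l) = ((‖w l‖ ^ 2 : ℝ) : ℂ) := h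
    rw [h2, Complex.ofReal_re]
  rw [e3, e4, Finset.mul_sum, Finset.mul_sum, ← Finset.sum_add_distrib]
  apply Finset.sum_le_sum
  intro n _
  have h1 : (star (d n) * w n).re ≤ ‖d n‖ * ‖w n‖ := by
    refine (Complex.re_le_norm _).trans ?_
    rw [norm_mul, norm_star]
  nlinarith [sq_nonneg (‖d n‖ - 2 * ‖w n‖)]

theorem hprop {v : Fin N → (Fin (k + 1) → ℝ) → ℂ} (hv : Fam v) (x : ℝ)
    (G : Matrix (Fin N) (Fin N) ℂ) (hG : G.IsHermitian) :
    2 * (trace (gram' v x * G)).re ≤ e0 v x + 4 * (trace (G * gram (sl v x) * G)).re := by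
  obtain ⟨R, _, hR⟩ := hv.van
  have hR1 : ∀ (F : (Fin (k + 1) → ℝ) → ℂ), Continuous F → Van R F →
      Integrable (fun y => F (cL k (x, y))) := by
    intro F hF hRF
    apply integrable_of_van (R := R)
    · exact hF.comp ((cL k).continuous.comp (continuous_const.prodMk continuous_id))
    · intro y hy
      exact hRF _ (hy.trans (norm_cL_ge2 k x y))
  have hi1 : ∀ n m, Integrable (fun y => d0 v n (cL k (x, y)) * star (v m (cL k (x, y)))
    + v n (cL k (x, y)) * star (d0 v m (cL k (x, y)))) := fun n m =>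
    hR1 (fun z => d0 v n z * star (v m z) + v n z * star (d0 v m z))
      (((continuous_d0 hv n).mul (hv.continuous m).star).add
      ((hv.continuous n).mul (continuous_d0 hv m).star)) (by
        intro z hz
        simp [(hR n).1 z hz, (hR m).1 z hz])
  have hi2 : ∀ n m, Integrable (fun y => v n (cL k (x, y)) * star (v m (cL k (x, y)))) := fun n m =>
    hR1 (fun z => v n z * star (v m z)) (continuous_mul_star hv n m)
      (van_mul_star (fun n => (hR n).1) n m)
  have e1 : trace (gram' v x * G) = ∫ y, ∑ n, ∑ m, (d0 v n (cL k (x, y)) * star (v m (cL k (x, y)))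
    + v n (cL k (x, y)) * star (d0 v m (cL k (x, y)))) * G m n := by
    rw [integral_finsetSum _ (fun n _ => integrable_finsetSum _ (fun m _ => (hi1 n m).mul_const _)),
      Matrix.trace]
    apply Finset.sum_congr rfl
    intro n _
    rw [integral_finsetSum _ (fun m _ => (hi1 n m).mul_const _), Matrix.diag_apply, Matrix.mul_apply]
    apply Finset.sum_congr rfl
    intro m _
    rw [integral_mul_const]
    rfl
  have e2 : trace (G * gram (sl v x) * G) = ∫ y, ∑ i, ∑ j, ∑ l,
      G l i * (v i (cL k (x, y)) * star (v j (cL k (x, y)))) * G j l := by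
    rw [integral_finsetSum _ (fun i _ => integrable_finsetSum _ (fun j _ => integrable_finsetSum _
      (fun l _ => ((hi2 i j).const_mul _).mul_const _))), trace_three]
    apply Finset.sum_congr rfl
    intro i _
    rw [integral_finsetSum _ (fun j _ => integrable_finsetSum _
      (fun l _ => ((hi2 i j).const_mul _).mul_const _))]
    apply Finset.sum_congr rfl
    intro j _
    rw [integral_finsetSum _ (fun l _ => ((hi2 i j).const_mul _).mul_const _)]
    apply Finset.sum_congr rfl
    intro l _
    rw [integral_mul_const, integral_const_mul]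
    rfl
  have hI1 : Integrable (fun y => ∑ n, ∑ m, (d0 v n (cL k (x, y)) * star (v m (cL k (x, y)))
    + v n (cL k (x, y)) * star (d0 v m (cL k (x, y)))) * G m n) :=
    integrable_finsetSum _ (fun n _ => integrable_finsetSum _ (fun m _ => (hi1 n m).mul_const _))
  have hI2 : Integrable (fun y => ∑ i, ∑ j, ∑ l,
      G l i * (v i (cL k (x, y)) * star (v j (cL k (x, y)))) * G j l) :=
    integrable_finsetSum _ (fun i _ => integrable_finsetSum _ (fun j _ => integrable_finsetSum _
      (fun l _ => ((hi2 i j).const_mul _).mul_const _)))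
  have hI3 : Integrable (fun y => ∑ n, ‖d0 v n (cL k (x, y))‖ ^ 2) := by
    apply integrable_of_van (R := R)
    · exact continuous_finsetSum _ fun n _ => (((continuous_d0 hv n).comp
        ((cL k).continuous.comp (continuous_const.prodMk continuous_id))).norm).pow 2
    · intro y hy
      apply Finset.sum_eq_zero
      intro n _
      rw [van_d0 (fun n => (hR n).2) n _ (hy.trans (norm_cL_ge2 k x y))]
      simp
  have r1 : (trace (gram' v x * G)).re = ∫ y, (∑ n, ∑ m, (d0 v n (cL k (x, y)) *
      star (v m (cL k (x, y))) + v n (cL k (x, y)) * star (d0 v m (cL k (x, y)))) * G m n).re := by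
    rw [e1]
    exact (integral_re hI1).symm
  have r2 : (trace (G * gram (sl v x) * G)).re = ∫ y, (∑ i, ∑ j, ∑ l,
      G l i * (v i (cL k (x, y)) * star (v j (cL k (x, y)))) * G j l).re := by
    rw [e2]
    exact (integral_re hI2).symm
  have hJ1 : Integrable (fun y => 2 * (∑ n, ∑ m, (d0 v n (cL k (x, y)) *
      star (v m (cL k (x, y))) + v n (cL k (x, y)) * star (d0 v m (cL k (x, y)))) * G m n).re) :=
    hI1.re.const_mul 2
  have hJ2 : Integrable (fun y => 4 * (∑ i, ∑ j, ∑ l,
      G l i * (v i (cL k (x, y)) * star (v j (cL k (x, y)))) * G j l).re) :=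
    hI2.re.const_mul 4
  rw [r1, r2, ← integral_const_mul, ← integral_const_mul]
  unfold e0
  rw [← integral_add hI3 hJ2]
  apply integral_mono hJ1 (hI3.add hJ2)
  intro y
  exact vec_ineq (fun n => v n (cL k (x, y))) (fun n => d0 v n (cL k (x, y))) hG

theorem continuous_e0 {v : Fin N → (Fin (k + 1) → ℝ) → ℂ} (hv : Fam v) : Continuous (e0 v) := by
  obtain ⟨R, _, hR⟩ := hv.van
  apply continuous_slice (k := k) (F := fun z => ∑ n, ‖d0 v n z‖ ^ 2) (R := R)
  · exact continuous_finsetSum _ fun n _ => ((continuous_d0 hv n).norm).pow 2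
  · intro z hz
    apply Finset.sum_eq_zero
    intro n _
    rw [van_d0 (fun n => (hR n).2) n z hz]
    simp

theorem gram_sl_zero {v : Fin N → (Fin (k + 1) → ℝ) → ℂ} {R : ℝ} (hR : ∀ n, Van R (v n)) {x : ℝ}
    (hx : R ≤ |x|) : gram (sl v x) = 0 := by
  ext n m
  have : ∀ y, sl v x n y = 0 := fun y => hR n _ (hx.trans (norm_cL_ge1 k x y))
  simp [gram, this]

theorem integral_gram_sl {v : Fin N → (Fin (k + 1) → ℝ) → ℂ} (hv : Fam v) {R : ℝ}
    (hR : ∀ n, Van R (v n)) (n m : Fin N) :
    ∫ x in (-R)..R, gram (sl v x) n m = gram v n m := by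
  have h := integral_slice (continuous_mul_star hv n m) (van_mul_star hR n m)
  exact h.symm

/-- first step, orthonormal families -/
theorem stepA {v : Fin N → (Fin (k + 1) → ℝ) → ℂ} (hv : Fam v) (ho : gram v = 1) {R : ℝ}
    (hR0 : 0 < R) (hR : ∀ n, Van R (v n)) :
    π ^ 2 / 4 * ∫ x in (-R)..R, (trace (gram (sl v x) * gram (sl v x) * gram (sl v x))).re
      ≤ ∫ x in (-R)..R, e0 v x := by
  apply lemmaA (by linarith) (md_gram hv) (mc_gram' hv) (fun x => posSemidef_gram (hv.sl x))
  · intro i j
    rw [integral_gram_sl hv hR, ho]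
  · exact (continuous_e0 hv).intervalIntegrable _ _
  · exact hprop hv
  · exact gram_sl_zero hR (by rw [abs_neg, abs_of_pos hR0])
  · exact gram_sl_zero hR (by rw [abs_of_pos hR0])

/-- the step from `tr D^3` to `tr D(x)^2` -/
theorem stepB {v : Fin N → (Fin (k + 1) → ℝ) → ℂ} (hv : Fam v) {R : ℝ}
    (hR0 : 0 < R) (hR : ∀ n, Van R (v n)) (c : ℝ) :
    c * ∫ x in (-R)..R, (trace (gram (sl v x) * gram (sl v x))).re
      ≤ (∫ x in (-R)..R, e0 v x) + c ^ 2 / 12 * (trace (gram v * gram v * gram v)).re := by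
  apply lemmaB (by linarith) (md_gram hv) (mc_gram' hv) (fun x => (posSemidef_gram (hv.sl x)).isHermitian)
  · intro i j
    exact integral_gram_sl hv hR i j
  · exact (continuous_e0 hv).intervalIntegrable _ _
  · exact hprop hv
  · exact gram_sl_zero hR (by rw [abs_neg, abs_of_pos hR0])
  · exact gram_sl_zero hR (by rw [abs_of_pos hR0])

/-- kinetic energy by slices -/
theorem kin_slice {v : Fin N → (Fin (k + 1) → ℝ) → ℂ} (hv : Fam v) {R : ℝ}
    (hR' : ∀ n, Van R (fderiv ℝ (v n))) :
    kin v = (∫ x in (-R)..R, e0 v x) + ∫ x in (-R)..R, kin (sl v x) := by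
  have h := integral_slice (continuous_dens hv) (van_dens hR')
  have hc1 : Continuous (fun x => ∫ y, dens v (cL k (x, y))) :=
    continuous_slice (continuous_dens hv) (van_dens hR')
  have hint1 : ∀ x, Integrable (fun y => ∑ n, ‖d0 v n (cL k (x, y))‖ ^ 2) := by
    intro x
    apply integrable_of_van (R := R)
    · exact continuous_finsetSum _ fun n _ => (((continuous_d0 hv n).comp
        ((cL k).continuous.comp (continuous_const.prodMk continuous_id))).norm).pow 2
    · intro y hy
      apply Finset.sum_eq_zero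
      intro n _
      rw [van_d0 hR' n _ (hy.trans (norm_cL_ge2 k x y))]
      simp
  have hint2 : ∀ x, Integrable (fun y => dens (sl v x) y) := by
    intro x
    have hF : Integrable (fun y => dens v (cL k (x, y))) := by
      apply integrable_of_van (R := R)
      · exact (continuous_dens hv).comp ((cL k).continuous.comp (continuous_const.prodMk continuous_id))
      · intro y hy
        exact van_dens hR' _ (hy.trans (norm_cL_ge2 k x y))
    have := hF.sub (hint1 x)
    refine this.congr (Filter.Eventually.of_forall fun y => ?_)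
    simp only [Pi.sub_apply]
    rw [dens_split hv]
    ring
  have hsum : ∀ x, ∫ y, dens v (cL k (x, y)) = e0 v x + kin (sl v x) := by
    intro x
    simp only [dens_split hv]
    rw [integral_add (hint1 x) (hint2 x)]
    rfl
  have hkc : Continuous (fun x => kin (sl v x)) := by
    have : (fun x => kin (sl v x)) = fun x => (∫ y, dens v (cL k (x, y))) - e0 v x := by
      funext x
      rw [hsum]
      ring
    rw [this]
    exact hc1.sub (continuous_e0 hv)
  unfold kin
  unfold kin at hsum hkc
  rw [h]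
  simp only [hsum]
  rw [intervalIntegral.integral_add ((continuous_e0 hv).intervalIntegrable _ _)
    (hkc.intervalIntegrable _ _)]

theorem continuous_kin_sl {v : Fin N → (Fin (k + 1) → ℝ) → ℂ} (hv : Fam v) :
    Continuous (fun x => kin (sl v x)) := by
  obtain ⟨R, _, hR⟩ := hv.van
  have hR' : ∀ n, Van R (fderiv ℝ (v n)) := fun n => (hR n).2
  apply continuous_param (K := Metric.closedBall (0 : Fin k → ℝ) R) (g := fun x y => dens (sl v x) y)
  · have : (Function.uncurry fun x y => dens (sl v x) y)
        = fun p : ℝ × (Fin k → ℝ) => dens v (cL k p) - ∑ n, ‖d0 v n (cL k p)‖ ^ 2 := by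
      funext p
      obtain ⟨x, y⟩ := p
      simp only [Function.uncurry_apply_pair]
      rw [dens_split hv]
      ring
    rw [this]
    exact ((continuous_dens hv).comp (cL k).continuous).sub
      (continuous_finsetSum _ fun n _ => (((continuous_d0 hv n).comp (cL k).continuous).norm).pow 2)
  · exact isCompact_closedBall _ _
  · intro x y hy
    rw [mem_closedBall_zero_iff, not_le] at hy
    have hz : R ≤ ‖cL k (x, y)‖ := hy.le.trans (norm_cL_ge2 k x y)
    have h1 := van_dens hR' _ hz
    rw [dens_split hv] at h1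
    have h2 : 0 ≤ ∑ n, ‖d0 v n (cL k (x, y))‖ ^ 2 := Finset.sum_nonneg fun n _ => by positivity
    have h3 : 0 ≤ dens (sl v x) y := by
      unfold dens
      exact Finset.sum_nonneg fun n _ => Finset.sum_nonneg fun i _ => by positivity
    linarith

end Pool.Agent.LiebT2
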