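import Mathlib
import Pool.Agent.LiebT2.Slice
import Pool.Agent.LiebT2.Scalar

open Real Finset Matrix MeasureTheory ComplexOrder

set_option autoImplicit false

namespace Pool.Agent.LiebT2

variable {k N : ℕ}

/-- kinetic inequality in potential form -/
def Claim (k : ℕ) (l : ℝ) : Prop := ∀ (N : ℕ) (v : Fin N → (Fin k → ℝ) → ℂ), Fam v →
  ∀ Z : (Fin k → ℝ) → ℝ, Continuous Z → HasCompactSupport Z → (∀ y, 0 ≤ Z y) → ∀ σ : ℝ, 0 < σ →
  ∫ y, Z y ^ 2 * rho v y ≤ kin v + (σ⁻¹) ^ 2 * (trace (gram v * gram v * gram v)).re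
    + l * σ * ∫ y, Z y ^ (k + 3)

/-- the same with `tr D^2` -/
def Claim' (k : ℕ) (l : ℝ) : Prop := ∀ (N : ℕ) (v : Fin N → (Fin k → ℝ) → ℂ), Fam v →
  ∀ Z : (Fin k → ℝ) → ℝ, Continuous Z → HasCompactSupport Z → (∀ y, 0 ≤ Z y) → ∀ σ : ℝ, 0 < σ →
  ∫ y, Z y ^ 2 * rho v y ≤ kin v + √3 / (π * σ) * (trace (gram v * gram v)).re
    + l * σ * SS (k + 4) * ∫ y, Z y ^ (k + 4)

/-- scaled family -/
noncomputable def scl (c : Fin N → ℝ) (v : Fin N → (Fin k → ℝ) → ℂ) : Fin N → (Fin k → ℝ) → ℂ :=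
  fun n y => (c n : ℂ) * v n y

theorem Fam.scl {v : Fin N → (Fin k → ℝ) → ℂ} (hv : Fam v) (c : Fin N → ℝ) : Fam (scl c v) :=
  ⟨fun n => contDiff_const.mul (hv.smooth n), fun n => (hv.supp n).mul_left⟩

theorem gram_scl (c : Fin N → ℝ) (v : Fin N → (Fin k → ℝ) → ℂ) (i j : Fin N) :
    gram (scl c v) i j = (c i : ℂ) * (c j : ℂ) * gram v i j := by
  unfold gram scl
  rw [Matrix.of_apply, Matrix.of_apply, ← integral_const_mul]
  congr 1
  funext y
  rw [star_mul']
  simp only [RCLike.star_def, Complex.conj_ofReal]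
  ring

theorem rho_scl (c : Fin N → ℝ) (v : Fin N → (Fin k → ℝ) → ℂ) (y : Fin k → ℝ) :
    rho (scl c v) y = ∑ n, c n ^ 2 * ‖v n y‖ ^ 2 := by
  unfold rho scl
  apply Finset.sum_congr rfl
  intro n _
  rw [norm_mul, mul_pow, Complex.norm_real, Real.norm_eq_abs, sq_abs]

/-- kinetic energy density of one function -/
noncomputable def dens1 (v : (Fin k → ℝ) → ℂ) (y : Fin k → ℝ) : ℝ :=
  ∑ i, ‖fderiv ℝ v y (Pi.single i 1)‖ ^ 2

theorem dens_scl {v : Fin N → (Fin k → ℝ) → ℂ} (hv : Fam v) (c : Fin N → ℝ) (y : Fin k → ℝ) :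
    dens (scl c v) y = ∑ n, c n ^ 2 * dens1 (v n) y := by
  unfold dens dens1 scl
  apply Finset.sum_congr rfl
  intro n _
  rw [Finset.mul_sum]
  apply Finset.sum_congr rfl
  intro i _
  have h : fderiv ℝ (fun y => (c n : ℂ) * v n y) y = (c n : ℂ) • fderiv ℝ (v n) y := by
    exact fderiv_const_mul ((hv.smooth n).differentiable one_ne_zero y) _
  rw [h]
  simp only [_root_.smul_apply, smul_eq_mul]
  rw [norm_mul, mul_pow, Complex.norm_real, Real.norm_eq_abs, sq_abs]

theorem continuous_dens1 {v : Fin N → (Fin k → ℝ) → ℂ} (hv : Fam v) (n : Fin N) :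
    Continuous (dens1 (v n)) := by
  unfold dens1
  exact continuous_finsetSum _ fun i _ =>
    (((hv.continuous_fderiv n).clm_apply continuous_const).norm).pow 2

theorem van_dens1 {v : Fin N → (Fin k → ℝ) → ℂ} {R : ℝ} (hR : ∀ n, Van R (fderiv ℝ (v n)))
    (n : Fin N) : Van R (dens1 (v n)) := by
  intro z hz
  unfold dens1
  apply Finset.sum_eq_zero
  intro i _
  rw [hR n z hz]
  simp

theorem dens1_nonneg (v : (Fin k → ℝ) → ℂ) (y : Fin k → ℝ) : 0 ≤ dens1 v y := by
  unfold dens1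
  exact Finset.sum_nonneg fun i _ => by positivity

theorem kin_scl {v : Fin N → (Fin k → ℝ) → ℂ} (hv : Fam v) (c : Fin N → ℝ) :
    kin (scl c v) = ∑ n, c n ^ 2 * ∫ y, dens1 (v n) y := by
  obtain ⟨R, _, hR⟩ := hv.van
  unfold kin
  simp only [dens_scl hv]
  rw [integral_finsetSum _ (fun n _ => (integrable_of_van (continuous_dens1 hv n)
    (van_dens1 (fun n => (hR n).2) n)).const_mul _)]
  simp only [integral_const_mul]

theorem kin_eq {v : Fin N → (Fin k → ℝ) → ℂ} (hv : Fam v) :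
    kin v = ∑ n, ∫ y, dens1 (v n) y := by
  obtain ⟨R, _, hR⟩ := hv.van
  unfold kin
  have : ∀ y, dens v y = ∑ n, dens1 (v n) y := fun y => rfl
  simp only [this]
  rw [integral_finsetSum _ (fun n _ => integrable_of_van (continuous_dens1 hv n)
    (van_dens1 (fun n => (hR n).2) n))]

theorem trace_diag_three (d : Fin N → ℝ) :
    (trace (diagonal (fun i => (d i : ℂ)) * diagonal (fun i => (d i : ℂ))
      * diagonal (fun i => (d i : ℂ)))).re = ∑ i, d i ^ 3 := by
  rw [Matrix.diagonal_mul_diagonal, Matrix.diagonal_mul_diagonal, Matrix.trace_diagonal,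
    Complex.re_sum]
  apply Finset.sum_congr rfl
  intro i _
  rw [← Complex.ofReal_mul, ← Complex.ofReal_mul, Complex.ofReal_re]
  ring

theorem trace_diag_two (d : Fin N → ℝ) :
    (trace (diagonal (fun i => (d i : ℂ)) * diagonal (fun i => (d i : ℂ)))).re = ∑ i, d i ^ 2 := by
  rw [Matrix.diagonal_mul_diagonal, Matrix.trace_diagonal, Complex.re_sum]
  apply Finset.sum_congr rfl
  intro i _
  rw [← Complex.ofReal_mul, Complex.ofReal_re]
  ring

/-- swapping the order of integration for the cut-off potentials -/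
theorem swap_qq {Z : (Fin k → ℝ) → ℝ} (hZ : Continuous Z) {R : ℝ} (hR : Van R Z)
    (hZ0 : ∀ y, 0 ≤ Z y) {B : ℝ} (hB : ∀ y, Z y ≤ B) {m : ℕ} (hm : m ≠ 0) :
    ∫ η in (-B)..B, ∫ y, qq (Z y) η ^ m = SS (m + 1) * ∫ y, Z y ^ (m + 1) := by
  have hB0 : 0 ≤ B := (hZ0 0).trans (hB 0)
  have hout : ∀ η, η ∉ Set.Ioc (-B) B → ∀ y, qq (Z y) η = 0 := by
    intro η hη y
    apply qq_zero_of_le
    have h1 : B ≤ |η| := by
      by_contra h
      rw [not_le, abs_lt] at h
      exact hη ⟨h.1, h.2.le⟩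
    have h2 := hB y
    have h3 := hZ0 y
    rw [← sq_abs η]
    nlinarith
  have hcF : Continuous (fun p : ℝ × (Fin k → ℝ) => qq (Z p.2) p.1 ^ m) :=
    (continuous_qq.comp ((hZ.comp continuous_snd).prodMk continuous_fst)).pow m
  have hint : Integrable (fun p : ℝ × (Fin k → ℝ) => qq (Z p.2) p.1 ^ m) (volume.prod volume) := by
    apply hcF.integrable_of_hasCompactSupport
    apply HasCompactSupport.intro (K := Set.Icc (-B) B ×ˢ Metric.closedBall (0 : Fin k → ℝ) R)
      (isCompact_Icc.prod (isCompact_closedBall _ _))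
    intro p hp
    by_contra hne
    apply hp
    constructor
    · by_contra hcon
      apply hne
      rw [hout p.1 (fun h => hcon ⟨h.1.le, h.2⟩) p.2, zero_pow hm]
    · rw [mem_closedBall_zero_iff]
      by_contra hcon
      rw [not_le] at hcon
      apply hne
      rw [hR p.2 hcon.le, qq_zero_of_le (by nlinarith [sq_nonneg p.1]), zero_pow hm]
  rw [intervalIntegral.integral_eq_integral_of_support_subset]
  · have hswap := integral_integral_swap (f := fun η (y : Fin k → ℝ) => qq (Z y) η ^ m) hint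
    rw [hswap, ← integral_const_mul]
    congr 1
    funext y
    rw [← intervalIntegral.integral_eq_integral_of_support_subset (a := -B) (b := B),
      integral_qq (hZ0 y) (hB y) hm]
    · ring
    · intro η hη
      by_contra hcon
      apply hη
      simp only
      rw [hout η hcon y, zero_pow hm]
  · intro η hη
    by_contra hcon
    apply hη
    have : ∀ y, qq (Z y) η ^ m = 0 := fun y => by rw [hout η hcon y, zero_pow hm]
    simp [this]

end Pool.Agent.LiebT2
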