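import Mathlib
import Pool.Agent.LiebT2.AL

open Real Finset Matrix MeasureTheory ComplexOrder

set_option autoImplicit false

namespace Pool.Agent.LiebT2

variable {k N : ℕ}

/-- the Aizenman-Lieb step for orthogonal families -/
theorem al_orth {l : ℝ} (hC : Claim k l) {v : Fin N → (Fin k → ℝ) → ℂ} (hv : Fam v) {r : Fin N → ℝ}
    (hg : gram v = diagonal (fun i => (r i : ℂ))) {Z : (Fin k → ℝ) → ℝ} (hZ : Continuous Z)
    (hZc : HasCompactSupport Z) (hZ0 : ∀ y, 0 ≤ Z y) {σ : ℝ} (hσ : 0 < σ) :
    ∫ y, Z y ^ 2 * rho v y ≤ kin v + √3 / (π * σ) * ∑ n, r n ^ 2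
      + l * σ * SS (k + 4) * ∫ y, Z y ^ (k + 4) := by
  classical
  have hpi := Real.pi_pos
  have h3 : (√3 : ℝ) ^ 2 = 3 := Real.sq_sqrt (by norm_num)
  have h3p : 0 < √(3 : ℝ) := Real.sqrt_pos.mpr (by norm_num)
  obtain ⟨R1, hR10, hR1⟩ := hv.van
  obtain ⟨R2, hR20, hR2⟩ := exists_van hZc
  have hnint : ∀ n, Integrable (fun y => ‖v n y‖ ^ 2) := fun n =>
    integrable_of_van (((hv.continuous n).norm).pow 2) (R := R1) (by
      intro z hz
      simp [(hR1 n).1 z hz])
  -- the norms
  have hr : ∀ n, r n = ∫ y, ‖v n y‖ ^ 2 := by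
    intro n
    have h1 : gram v n n = (r n : ℂ) := by rw [hg, Matrix.diagonal_apply_eq]
    have h2 : gram v n n = ((∫ y, ‖v n y‖ ^ 2 : ℝ) : ℂ) := by
      rw [← integral_complex_ofReal]
      unfold gram
      rw [Matrix.of_apply]
      congr 1
      funext y
      have h := Complex.mul_conj (v n y)
      rw [Complex.normSq_eq_norm_sq] at h
      exact h
    rw [h1] at h2
    exact_mod_cast h2
  have hr0 : ∀ n, 0 ≤ r n := fun n => by
    rw [hr n]
    exact integral_nonneg fun y => by positivity
  -- upper bound for Z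
  obtain ⟨B0, hB0⟩ : ∃ B0 : ℝ, ∀ y, Z y ≤ B0 := by
    obtain ⟨C, hC⟩ := (isCompact_closedBall (0 : Fin k → ℝ) R2).exists_bound_of_continuousOn
      hZ.continuousOn
    refine ⟨max C 0, fun y => ?_⟩
    by_cases hy : ‖y‖ ≤ R2
    · have := hC y (by rw [mem_closedBall_zero_iff]; exact hy)
      exact ((le_abs_self _).trans this).trans (le_max_left _ _)
    · rw [hR2 y (not_le.mp hy).le]
      exact le_max_right _ _
  set α : ℝ := σ / √3 with hα
  have hα0 : 0 < α := div_pos hσ h3p
  set t : Fin N → ℝ := fun n => √(2 * r n / (π * α)) with ht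
  have ht0 : ∀ n, 0 ≤ t n := fun n => Real.sqrt_nonneg _
  have ht2 : ∀ n, t n ^ 2 = 2 * r n / (π * α) := fun n =>
    Real.sq_sqrt (div_nonneg (mul_nonneg (by norm_num) (hr0 n)) (by positivity))
  set B : ℝ := |B0| + ∑ n, t n with hB
  have hsum0 : 0 ≤ ∑ n, t n := Finset.sum_nonneg fun n _ => ht0 n
  have hZB : ∀ y, Z y ≤ B := fun y => (hB0 y).trans (by rw [hB]; linarith [le_abs_self B0])
  have htB : ∀ n, t n ≤ B := fun n => by
    have := Finset.single_le_sum (f := t) (fun n _ => ht0 n) (Finset.mem_univ n)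
    rw [hB]
    linarith [abs_nonneg B0]
  have hB00 : 0 ≤ B := by rw [hB]; positivity
  -- the weights
  set θ : Fin N → ℝ → ℝ := fun n η => α * qq (t n) η / r n with hθ
  have hθ0 : ∀ n η, 0 ≤ θ n η := fun n η =>
    div_nonneg (mul_nonneg hα0.le (qq_nonneg _ _)) (hr0 n)
  have hqc : ∀ n, Continuous (fun η => qq (t n) η) := fun n =>
    continuous_qq.comp (continuous_const.prodMk continuous_id)
  have hθc : ∀ n, Continuous (θ n) := fun n => (continuous_const.mul (hqc n)).div_const _
  have htz : ∀ n, r n = 0 → t n = 0 := by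
    intro n h
    rw [ht]
    simp [h]
  have hqz : ∀ n η, r n = 0 → qq (t n) η = 0 := by
    intro n η h
    rw [htz n h]
    exact qq_zero_of_le (by nlinarith [sq_nonneg η])
  have hθr : ∀ n η, θ n η * r n = α * qq (t n) η := by
    intro n η
    by_cases h : r n = 0
    · rw [h, hqz n η h]
      simp
    · rw [hθ]
      simp only
      field_simp
  set w : Fin N → ℝ := fun n => ∫ y, Z y ^ 2 * ‖v n y‖ ^ 2 with hw
  set τ : Fin N → ℝ := fun n => ∫ y, dens1 (v n) y with hτ
  have hτ0 : ∀ n, 0 ≤ τ n := fun n => integral_nonneg fun y => dens1_nonneg _ _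
  have hwint : ∀ n, Integrable (fun y => Z y ^ 2 * ‖v n y‖ ^ 2) := fun n =>
    integrable_of_van ((hZ.pow 2).mul (((hv.continuous n).norm).pow 2)) (R := R1) (by
      intro z hz
      simp [(hR1 n).1 z hz])
  -- pointwise inequality in η
  have hpt : ∀ η : ℝ, ∑ n, (θ n η * w n - η ^ 2 * (α * qq (t n) η)) ≤
      ∑ n, θ n η * τ n + (σ⁻¹) ^ 2 * ∑ n, (α * qq (t n) η) ^ 3
        + l * σ * ∫ y, qq (Z y) η ^ (k + 3) := by
    intro η
    have hsq : ∀ n, √(θ n η) ^ 2 = θ n η := fun n => Real.sq_sqrt (hθ0 n η)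
    have hcl := hC N (scl (fun n => √(θ n η)) v) (hv.scl _) (fun y => qq (Z y) η)
      (continuous_qq.comp (hZ.prodMk continuous_const)) (by
        apply HasCompactSupport.intro (isCompact_closedBall (0 : Fin k → ℝ) R2)
        intro y hy
        rw [mem_closedBall_zero_iff, not_le] at hy
        rw [hR2 y hy.le]
        exact qq_zero_of_le (by nlinarith [sq_nonneg η])) (fun y => qq_nonneg _ _) σ hσ
    have hgr : gram (scl (fun n => √(θ n η)) v) = diagonal (fun i => ((θ i η * r i : ℝ) : ℂ)) := by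
      ext i j
      rw [gram_scl, hg]
      by_cases hij : i = j
      · subst hij
        rw [Matrix.diagonal_apply_eq, Matrix.diagonal_apply_eq, ← Complex.ofReal_mul,
          ← Complex.ofReal_mul]
        congr 1
        rw [← sq, hsq]
      · rw [Matrix.diagonal_apply_ne _ hij, Matrix.diagonal_apply_ne _ hij, mul_zero]
    rw [hgr, trace_diag_three, kin_scl hv] at hcl
    simp only [hsq, hθr] at hcl
    refine le_trans ?_ hcl
    have hrho : ∀ y, rho (scl (fun n => √(θ n η)) v) y = ∑ n, θ n η * ‖v n y‖ ^ 2 := by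
      intro y
      rw [rho_scl]
      simp only [hsq]
    simp only [hrho]
    have e1 : ∑ n, (θ n η * w n - η ^ 2 * (α * qq (t n) η))
        = ∫ y, (Z y ^ 2 - η ^ 2) * ∑ n, θ n η * ‖v n y‖ ^ 2 := by
      have : ∀ y, (Z y ^ 2 - η ^ 2) * ∑ n, θ n η * ‖v n y‖ ^ 2
          = ∑ n, (θ n η * (Z y ^ 2 * ‖v n y‖ ^ 2) - (η ^ 2 * θ n η) * ‖v n y‖ ^ 2) := by
        intro y
        rw [Finset.mul_sum]
        apply Finset.sum_congr rfl
        intro n _
        ring
      simp only [this]
      have hss : ∀ n, Integrable (fun y => θ n η * (Z y ^ 2 * ‖v n y‖ ^ 2)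
          - (η ^ 2 * θ n η) * ‖v n y‖ ^ 2) := fun n =>
        ((hwint n).const_mul _).sub ((hnint n).const_mul _)
      rw [integral_finsetSum _ (fun n _ => hss n)]
      apply Finset.sum_congr rfl
      intro n _
      rw [integral_sub ((hwint n).const_mul _) ((hnint n).const_mul _), integral_const_mul,
        integral_const_mul, ← hr n, ← hθr]
      ring
    rw [e1]
    have hsc : Continuous (fun y => ∑ n, θ n η * ‖v n y‖ ^ 2) :=
      continuous_finsetSum _ fun n _ => continuous_const.mul (((hv.continuous n).norm).pow 2)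
    have hsv : Van R1 (fun y => ∑ n, θ n η * ‖v n y‖ ^ 2) := by
      intro z hz
      apply Finset.sum_eq_zero
      intro n _
      rw [(hR1 n).1 z hz]
      simp
    apply integral_mono
    · apply integrable_of_van (((hZ.pow 2).sub continuous_const).mul hsc) (R := R1)
      intro z hz
      show (Z z ^ 2 - η ^ 2) * (∑ n, θ n η * ‖v n z‖ ^ 2) = 0
      have := hsv z hz
      simp only at this
      rw [this, mul_zero]
    · apply integrable_of_van (((continuous_qq.comp (hZ.prodMk continuous_const)).pow 2).mul hsc)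
        (R := R1)
      intro z hz
      show qq (Z z) η ^ 2 * (∑ n, θ n η * ‖v n z‖ ^ 2) = 0
      have := hsv z hz
      simp only at this
      rw [this, mul_zero]
    · intro y
      simp only
      apply mul_le_mul_of_nonneg_right
      · rw [qq_sq]
        exact le_max_left _ _
      · exact Finset.sum_nonneg fun n _ => mul_nonneg (hθ0 n η) (by positivity)
  -- integrate over η
  have hΩc : Continuous (fun η : ℝ => ∫ y, qq (Z y) η ^ (k + 3)) := by
    apply continuous_param (K := Metric.closedBall (0 : Fin k → ℝ) R2)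
      (g := fun η y => qq (Z y) η ^ (k + 3))
    · exact (continuous_qq.comp ((hZ.comp continuous_snd).prodMk continuous_fst)).pow _
    · exact isCompact_closedBall _ _
    · intro η y hy
      rw [mem_closedBall_zero_iff, not_le] at hy
      rw [hR2 y hy.le, qq_zero_of_le (by nlinarith [sq_nonneg η]), zero_pow (by omega)]
  have hI : ∫ η in (-B)..B, ∑ n, (θ n η * w n - η ^ 2 * (α * qq (t n) η)) ≤
      ∫ η in (-B)..B, (∑ n, θ n η * τ n + (σ⁻¹) ^ 2 * ∑ n, (α * qq (t n) η) ^ 3
        + l * σ * ∫ y, qq (Z y) η ^ (k + 3)) := by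
    apply intervalIntegral.integral_mono_on (by linarith)
    · apply Continuous.intervalIntegrable
      exact continuous_finsetSum _ fun n _ => ((hθc n).mul continuous_const).sub
        ((continuous_id.pow 2).mul (continuous_const.mul (hqc n)))
    · apply Continuous.intervalIntegrable
      exact ((continuous_finsetSum _ fun n _ => (hθc n).mul continuous_const).add
        (continuous_const.mul (continuous_finsetSum _ fun n _ =>
          (continuous_const.mul (hqc n)).pow 3))).add (continuous_const.mul hΩc)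
    · intro η _
      exact hpt η
  have hii1 : ∀ n, IntervalIntegrable (fun η => θ n η * w n) volume (-B) B := fun n =>
    ((hθc n).mul continuous_const).intervalIntegrable _ _
  have hii2 : ∀ n, IntervalIntegrable (fun η => η ^ 2 * (α * qq (t n) η)) volume (-B) B := fun n =>
    ((continuous_id.pow 2).mul (continuous_const.mul (hqc n))).intervalIntegrable _ _
  have hii3 : ∀ n, IntervalIntegrable (fun η => θ n η * τ n) volume (-B) B := fun n =>
    ((hθc n).mul continuous_const).intervalIntegrable _ _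
  have hii4 : ∀ n, IntervalIntegrable (fun η => (α * qq (t n) η) ^ 3) volume (-B) B := fun n =>
    ((continuous_const.mul (hqc n)).pow 3).intervalIntegrable _ _
  have hii5 : IntervalIntegrable (fun η : ℝ => l * σ * ∫ y, qq (Z y) η ^ (k + 3)) volume (-B) B :=
    (continuous_const.mul hΩc).intervalIntegrable _ _
  have hii6 : IntervalIntegrable (fun η : ℝ => ∑ n, θ n η * τ n) volume (-B) B :=
    (continuous_finsetSum _ fun n _ => (hθc n).mul continuous_const).intervalIntegrable _ _
  have hii7 : IntervalIntegrable (fun η : ℝ => (σ⁻¹) ^ 2 * ∑ n, (α * qq (t n) η) ^ 3)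
      volume (-B) B :=
    (continuous_const.mul (continuous_finsetSum _ fun n _ =>
          (continuous_const.mul (hqc n)).pow 3)).intervalIntegrable _ _
  -- the integral of the weights
  have hθint : ∀ n, r n ≠ 0 → ∫ η in (-B)..B, θ n η = 1 := by
    intro n hn
    have e : ∀ η, θ n η = α / r n * qq (t n) η ^ 1 := by
      intro η
      rw [hθ]
      simp only
      ring
    simp only [e]
    rw [intervalIntegral.integral_const_mul, integral_qq (ht0 n) (htB n) one_ne_zero]
    rw [show (1 + 1 : ℕ) = 2 from rfl, SS_two, ht2]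
    field_simp
  have hθint0 : ∀ n, r n = 0 → ∀ η, θ n η = 0 := by
    intro n hn η
    rw [hθ]
    simp [hn]
  have hw1 : ∀ n, ∫ η in (-B)..B, θ n η * w n = w n := by
    intro n
    rw [intervalIntegral.integral_mul_const]
    by_cases hn : r n = 0
    · have hw0 : w n = 0 := by
        have h1 : 0 ≤ w n := integral_nonneg fun y => by positivity
        have h2 : w n ≤ B ^ 2 * r n := by
          rw [hr n, ← integral_const_mul]
          apply integral_mono (hwint n) ((hnint n).const_mul _)
          intro y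
          simp only
          apply mul_le_mul_of_nonneg_right _ (by positivity)
          have := hZB y
          have := hZ0 y
          nlinarith
        rw [hn, mul_zero] at h2
        linarith
      rw [hw0, mul_zero]
    · rw [hθint n hn, one_mul]
  have hτ1 : ∀ n, ∫ η in (-B)..B, θ n η * τ n ≤ τ n := by
    intro n
    rw [intervalIntegral.integral_mul_const]
    by_cases hn : r n = 0
    · have : ∫ η in (-B)..B, θ n η = 0 := by
        simp only [hθint0 n hn]
        simp
      rw [this, zero_mul]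
      exact hτ0 n
    · rw [hθint n hn, one_mul]
  have hm1 : ∀ n, ∫ η in (-B)..B, η ^ 2 * (α * qq (t n) η) = α * (π * t n ^ 4 / 8) := by
    intro n
    rw [← integral_eta_qq (ht0 n) (htB n), ← intervalIntegral.integral_const_mul]
    congr 1
    funext η
    ring
  have hm2 : ∀ n, ∫ η in (-B)..B, (α * qq (t n) η) ^ 3 = α ^ 3 * (t n ^ 4 * (3 * π / 8)) := by
    intro n
    have e : ∀ η, (α * qq (t n) η) ^ 3 = α ^ 3 * qq (t n) η ^ 3 := by intro η; ring
    simp only [e]
    rw [intervalIntegral.integral_const_mul, integral_qq (ht0 n) (htB n) (by norm_num)]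
    rw [show (3 + 1 : ℕ) = 4 from rfl, SS_four]
  have hL : ∫ η in (-B)..B, ∑ n, (θ n η * w n - η ^ 2 * (α * qq (t n) η))
      = ∑ n, (w n - α * (π * t n ^ 4 / 8)) := by
    have hss : ∀ n, IntervalIntegrable (fun η => θ n η * w n - η ^ 2 * (α * qq (t n) η))
        volume (-B) B := fun n => (hii1 n).sub (hii2 n)
    rw [intervalIntegral.integral_finsetSum (fun n _ => hss n)]
    apply Finset.sum_congr rfl
    intro n _
    rw [intervalIntegral.integral_sub (hii1 n) (hii2 n), hw1, hm1]
  have hRR : ∫ η in (-B)..B, (∑ n, θ n η * τ n + (σ⁻¹) ^ 2 * ∑ n, (α * qq (t n) η) ^ 3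
        + l * σ * ∫ y, qq (Z y) η ^ (k + 3))
      = ∑ n, (∫ η in (-B)..B, θ n η * τ n) + (σ⁻¹) ^ 2 * ∑ n, α ^ 3 * (t n ^ 4 * (3 * π / 8))
        + l * σ * (SS (k + 4) * ∫ y, Z y ^ (k + 4)) := by
    have hss : IntervalIntegrable (fun η : ℝ => ∑ n, θ n η * τ n
        + (σ⁻¹) ^ 2 * ∑ n, (α * qq (t n) η) ^ 3) volume (-B) B := hii6.add hii7
    rw [intervalIntegral.integral_add hss hii5,
      intervalIntegral.integral_add hii6 hii7, intervalIntegral.integral_const_mul,
      intervalIntegral.integral_const_mul, swap_qq hZ hR2 hZ0 hZB (by omega),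
      intervalIntegral.integral_finsetSum (fun n _ => hii3 n),
      intervalIntegral.integral_finsetSum (fun n _ => hii4 n)]
    simp only [hm2]
  rw [hL, hRR] at hI
  have hLHS : ∫ y, Z y ^ 2 * rho v y = ∑ n, w n := by
    unfold rho
    simp only [Finset.mul_sum]
    rw [integral_finsetSum _ (fun n _ => hwint n)]
  have hsumτ : ∑ n, (∫ η in (-B)..B, θ n η * τ n) ≤ kin v := by
    rw [kin_eq hv]
    exact Finset.sum_le_sum fun n _ => hτ1 n
  have hcoef : ∑ n, α * (π * t n ^ 4 / 8) + (σ⁻¹) ^ 2 * ∑ n, α ^ 3 * (t n ^ 4 * (3 * π / 8))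
      = √3 / (π * σ) * ∑ n, r n ^ 2 := by
    rw [Finset.mul_sum, Finset.mul_sum, ← Finset.sum_add_distrib]
    apply Finset.sum_congr rfl
    intro n _
    have e4 : t n ^ 4 = (2 * r n / (π * α)) ^ 2 := by
      rw [← ht2]
      ring
    rw [e4, hα]
    field_simp
    have h34 : (√3 : ℝ) ^ 4 = 9 := by
      calc (√3 : ℝ) ^ 4 = ((√3 : ℝ) ^ 2) ^ 2 := by ring
        _ = 9 := by rw [h3]; norm_num
    ring_nf
    try rw [h3]
    try rw [h34]
    try ring
  rw [Finset.sum_sub_distrib] at hI
  rw [hLHS]
  calc ∑ n, w n ≤ kin v + (∑ n, α * (π * t n ^ 4 / 8)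
        + (σ⁻¹) ^ 2 * ∑ n, α ^ 3 * (t n ^ 4 * (3 * π / 8)))
        + l * σ * (SS (k + 4) * ∫ y, Z y ^ (k + 4)) := by linarith
    _ = _ := by
        rw [hcoef]
        ring

end Pool.Agent.LiebT2
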