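import Mathlib
import Pool.Agent.LiebT2.AL2

open Real Finset Matrix MeasureTheory ComplexOrder

set_option autoImplicit false

namespace Pool.Agent.LiebT2

variable {k N : ℕ}

/-- rotated family -/
noncomputable def rot (V : Matrix (Fin N) (Fin N) ℂ) (v : Fin N → (Fin k → ℝ) → ℂ) :
    Fin N → (Fin k → ℝ) → ℂ := fun j y => ∑ n, star (V n j) * v n y

theorem Fam.rot {v : Fin N → (Fin k → ℝ) → ℂ} (hv : Fam v) (V : Matrix (Fin N) (Fin N) ℂ) :
    Fam (rot V v) := by
  refine ⟨fun j => ?_, fun j => ?_⟩
  · exact ContDiff.sum fun n _ => contDiff_const.mul (hv.smooth n)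
  · obtain ⟨R, _, hR⟩ := hv.van
    apply HasCompactSupport.intro (isCompact_closedBall (0 : Fin k → ℝ) R)
    intro y hy
    rw [mem_closedBall_zero_iff, not_le] at hy
    unfold Pool.Agent.LiebT2.rot
    apply Finset.sum_eq_zero
    intro n _
    rw [(hR n).1 y hy.le, mul_zero]

theorem gram_rot {v : Fin N → (Fin k → ℝ) → ℂ} (hv : Fam v) (V : Matrix (Fin N) (Fin N) ℂ) :
    gram (rot V v) = star V * gram v * V := by
  obtain ⟨R, _, hR⟩ := hv.van
  have hint : ∀ n m, Integrable (fun y => v n y * star (v m y)) := fun n m =>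
    integrable_of_van (continuous_mul_star hv n m) (van_mul_star (fun n => (hR n).1) n m)
  ext i j
  have e1 : gram (rot V v) i j = ∫ y, ∑ m, ∑ n, (star (V n i) * V m j) * (v n y * star (v m y)) := by
    unfold gram rot
    rw [Matrix.of_apply]
    congr 1
    funext y
    rw [star_sum, Finset.sum_mul_sum, Finset.sum_comm]
    apply Finset.sum_congr rfl
    intro m _
    apply Finset.sum_congr rfl
    intro n _
    rw [star_mul', star_star]
    ring
  rw [e1, integral_finsetSum _ (fun m _ => integrable_finsetSum _ (fun n _ => (hint n m).const_mul _)),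
    Matrix.mul_apply]
  apply Finset.sum_congr rfl
  intro m _
  rw [integral_finsetSum _ (fun n _ => (hint n m).const_mul _), Matrix.mul_apply, Finset.sum_mul]
  apply Finset.sum_congr rfl
  intro n _
  rw [integral_const_mul, Matrix.star_apply]
  unfold gram
  rw [Matrix.of_apply]
  ring

theorem norm_rot {V : Matrix (Fin N) (Fin N) ℂ} (h2 : V * star V = 1) (a : Fin N → ℂ) :
    ∑ j, ‖∑ n, star (V n j) * a n‖ ^ 2 = ∑ n, ‖a n‖ ^ 2 := by
  have hc : ∀ z : ℂ, ((‖z‖ ^ 2 : ℝ) : ℂ) = star z * z := by
    intro z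
    have h := Complex.mul_conj z
    rw [Complex.normSq_eq_norm_sq] at h
    rw [← h, mul_comm]
    rfl
  have hV : ∀ n m, ∑ j, V n j * star (V m j) = if n = m then 1 else 0 := by
    intro n m
    have := congrFun (congrFun h2 n) m
    rw [Matrix.mul_apply, Matrix.one_apply] at this
    exact this
  have : ((∑ j, ‖∑ n, star (V n j) * a n‖ ^ 2 : ℝ) : ℂ) = ((∑ n, ‖a n‖ ^ 2 : ℝ) : ℂ) := by
    rw [Complex.ofReal_sum, Complex.ofReal_sum]
    simp only [hc]
    have e1 : ∀ j, star (∑ n, star (V n j) * a n) * (∑ n, star (V n j) * a n)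
        = ∑ n, ∑ m, (V n j * star (V m j)) * (star (a n) * a m) := by
      intro j
      rw [star_sum, Finset.sum_mul_sum]
      apply Finset.sum_congr rfl
      intro n _
      apply Finset.sum_congr rfl
      intro m _
      rw [star_mul', star_star]
      ring
    simp only [e1]
    rw [Finset.sum_comm]
    apply Finset.sum_congr rfl
    intro n _
    rw [Finset.sum_comm]
    simp only [← Finset.sum_mul, hV]
    simp
  exact_mod_cast this

theorem rho_rot {V : Matrix (Fin N) (Fin N) ℂ} (h2 : V * star V = 1)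
    (v : Fin N → (Fin k → ℝ) → ℂ) (y : Fin k → ℝ) : rho (rot V v) y = rho v y :=
  norm_rot h2 (fun n => v n y)

theorem dens_rot {V : Matrix (Fin N) (Fin N) ℂ} (h2 : V * star V = 1)
    {v : Fin N → (Fin k → ℝ) → ℂ} (hv : Fam v) (y : Fin k → ℝ) : dens (rot V v) y = dens v y := by
  unfold dens
  rw [Finset.sum_comm, Finset.sum_comm (f := fun n i => ‖fderiv ℝ (v n) y (Pi.single i 1)‖ ^ 2)]
  apply Finset.sum_congr rfl
  intro i _
  rw [← norm_rot h2 (fun n => fderiv ℝ (v n) y (Pi.single i 1))]
  apply Finset.sum_congr rfl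
  intro j _
  have h : fderiv ℝ (rot V v j) y = ∑ n, star (V n j) • fderiv ℝ (v n) y := by
    have h1 : HasFDerivAt (rot V v j) (∑ n, star (V n j) • fderiv ℝ (v n) y) y := by
      unfold rot
      apply HasFDerivAt.fun_sum
      intro n _
      exact (((hv.smooth n).differentiable one_ne_zero y).hasFDerivAt).const_mul _
    exact h1.fderiv
  rw [h]
  congr 2
  rw [_root_.sum_apply]
  apply Finset.sum_congr rfl
  intro n _
  simp only [_root_.smul_apply, smul_eq_mul]

theorem claim'_of_claim {l : ℝ} (hC : Claim k l) : Claim' k l := by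
  intro N v hv Z hZ hZc hZ0 σ hσ
  obtain ⟨V, r, h1, h2, hd⟩ := exists_diag (posSemidef_gram hv).isHermitian
  have hg : gram (rot V v) = diagonal (fun i => (r i : ℂ)) := by rw [gram_rot hv, hd]
  have h := al_orth hC (hv.rot V) hg hZ hZc hZ0 hσ
  simp only [rho_rot h2] at h
  have hk : kin (rot V v) = kin v := by
    unfold kin
    simp only [dens_rot h2 hv]
  have htr : ∑ n, r n ^ 2 = (trace (gram v * gram v)).re := by
    rw [← trace_diag_two, ← hd, ← trace_cj h2 (gram v * gram v), cj_mul h2]
    rfl
  rw [hk, htr] at h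
  exact h

theorem claim_succ {l : ℝ} (hC : Claim' k l) : Claim (k + 1) (l * SS (k + 4) / (2 * π)) := by
  intro N v hv Z hZ hZc hZ0 σ' hσ'
  have hpi := Real.pi_pos
  obtain ⟨R1, hR10, hR1⟩ := hv.van
  obtain ⟨R2, hR20, hR2⟩ := exists_van hZc
  set R := max R1 R2 with hR
  have hRv : ∀ n, Van R (v n) := fun n => (hR1 n).1.mono (le_max_left _ _)
  have hRf : ∀ n, Van R (fderiv ℝ (v n)) := fun n => (hR1 n).2.mono (le_max_left _ _)
  have hRZ : Van R Z := hR2.mono (le_max_right _ _)
  have hR0 : 0 < R := lt_of_lt_of_le hR10 (le_max_left _ _)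
  set σ : ℝ := σ' / (2 * π) with hσ
  have hσ0 : 0 < σ := by positivity
  set c : ℝ := √3 / (π * σ) with hc
  have hc2 : c ^ 2 / 12 = (σ'⁻¹) ^ 2 := by
    rw [hc, hσ]
    have h3 : (√3 : ℝ) ^ 2 = 3 := Real.sq_sqrt (by norm_num)
    field_simp
    rw [h3]
    norm_num
  have hB := stepB hv hR0 hRv c
  rw [hc2] at hB
  -- slices
  have hcs : ∀ x : ℝ, Continuous (fun y : Fin k → ℝ => cL k (x, y)) := fun x =>
    (cL k).continuous.comp (continuous_const.prodMk continuous_id)
  have hsl : ∀ x, ∫ y, Z (cL k (x, y)) ^ 2 * rho v (cL k (x, y)) ≤ kin (sl v x)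
      + c * (trace (gram (sl v x) * gram (sl v x))).re
      + l * σ * SS (k + 4) * ∫ y, Z (cL k (x, y)) ^ (k + 4) := by
    intro x
    exact hC N (sl v x) (hv.sl x) (fun y => Z (cL k (x, y))) (hZ.comp (hcs x)) (by
      apply HasCompactSupport.intro (isCompact_closedBall (0 : Fin k → ℝ) R)
      intro y hy
      rw [mem_closedBall_zero_iff, not_le] at hy
      exact hRZ _ (hy.le.trans (norm_cL_ge2 k x y))) (fun y => hZ0 _) σ hσ0
  have hF1c : Continuous (fun z => Z z ^ 2 * rho v z) := (hZ.pow 2).mul (continuous_rho hv)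
  have hF1v : Van R (fun z => Z z ^ 2 * rho v z) := by
    intro z hz
    simp [hRZ z hz]
  have hF2c : Continuous (fun z => Z z ^ (k + 4)) := hZ.pow _
  have hF2v : Van R (fun z => Z z ^ (k + 4)) := by
    intro z hz
    simp [hRZ z hz]
  have hi1 := integral_slice hF1c hF1v
  have hi2 := integral_slice hF2c hF2v
  have hc1 := continuous_slice hF1c hF1v
  have hc2' := continuous_slice hF2c hF2v
  have hck := continuous_kin_sl hv
  have hcg : Continuous (fun x => (trace (gram (sl v x) * gram (sl v x))).re) := by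
    have hMC : MC (fun x => gram (sl v x)) := MC.of_MD (md_gram hv)
    exact (hMC.mul hMC).re_trace
  have hle : ∫ x in (-R)..R, ∫ y, Z (cL k (x, y)) ^ 2 * rho v (cL k (x, y))
      ≤ ∫ x in (-R)..R, (kin (sl v x) + c * (trace (gram (sl v x) * gram (sl v x))).re
      + l * σ * SS (k + 4) * ∫ y, Z (cL k (x, y)) ^ (k + 4)) := by
    apply intervalIntegral.integral_mono_on (by linarith) (hc1.intervalIntegrable _ _)
    · exact ((hck.add (continuous_const.mul hcg)).add
        (continuous_const.mul hc2')).intervalIntegrable _ _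
    · intro x _
      exact hsl x
  have j1 : IntervalIntegrable (fun x => kin (sl v x)) volume (-R) R := hck.intervalIntegrable _ _
  have j2 : IntervalIntegrable (fun x => c * (trace (gram (sl v x) * gram (sl v x))).re)
      volume (-R) R := (continuous_const.mul hcg).intervalIntegrable _ _
  have j3 : IntervalIntegrable (fun x => l * σ * SS (k + 4) * ∫ y, Z (cL k (x, y)) ^ (k + 4))
      volume (-R) R := (continuous_const.mul hc2').intervalIntegrable _ _
  have j4 : IntervalIntegrable (fun x => kin (sl v x)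
      + c * (trace (gram (sl v x) * gram (sl v x))).re) volume (-R) R := j1.add j2
  rw [intervalIntegral.integral_add j4 j3, intervalIntegral.integral_add j1 j2,
    intervalIntegral.integral_const_mul, intervalIntegral.integral_const_mul, ← hi1, ← hi2] at hle
  have hkin := kin_slice hv hRf
  have e1 : l * σ * SS (k + 4) = l * SS (k + 4) / (2 * π) * σ' := by
    rw [hσ]
    ring
  rw [e1] at hle
  have e2 : (k + 1 + 3 : ℕ) = k + 4 := by omega
  rw [e2]
  linarith

theorem integral_fin_zero (f : (Fin 0 → ℝ) → ℝ) : ∫ y, f y = f default := by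
  rw [show (volume : Measure (Fin 0 → ℝ)) = Measure.dirac default from Measure.volume_pi_eq_dirac _,
    integral_dirac]

theorem integral_fin_zero' (f : (Fin 0 → ℝ) → ℂ) : ∫ y, f y = f default := by
  rw [show (volume : Measure (Fin 0 → ℝ)) = Measure.dirac default from Measure.volume_pi_eq_dirac _,
    integral_dirac]

theorem claim_zero : Claim 0 (2 / (3 * √3)) := by
  intro N v hv Z hZ hZc hZ0 σ hσ
  have h3 : (√3 : ℝ) ^ 2 = 3 := Real.sq_sqrt (by norm_num)
  have h3p : 0 < √(3 : ℝ) := Real.sqrt_pos.mpr (by norm_num)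
  have hkin : kin v = 0 := by
    unfold kin dens
    simp
  have hgr : ∀ i j, gram v i j = v i default * star (v j default) := by
    intro i j
    unfold gram
    rw [Matrix.of_apply, integral_fin_zero']
  have hr : ∀ n, ((‖v n default‖ ^ 2 : ℝ) : ℂ) = v n default * star (v n default) := by
    intro n
    have h := Complex.mul_conj (v n default)
    rw [Complex.normSq_eq_norm_sq] at h
    exact h.symm
  have htr : (trace (gram v * gram v * gram v)).re = rho v default ^ 3 := by
    have : trace (gram v * gram v * gram v) = ((rho v default ^ 3 : ℝ) : ℂ) := by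
      rw [trace_three]
      simp only [hgr]
      unfold rho
      push_cast
      have hr' : ∀ n, ((‖v n default‖ : ℂ)) ^ 2 = v n default * star (v n default) := by
        intro n
        rw [← hr n]
        push_cast
        rfl
      simp only [hr']
      rw [pow_succ, pow_two, Finset.sum_mul_sum, Finset.sum_mul]
      apply Finset.sum_congr rfl
      intro i _
      rw [Finset.sum_mul]
      apply Finset.sum_congr rfl
      intro j _
      rw [Finset.mul_sum]
      apply Finset.sum_congr rfl
      intro l _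
      ring
    rw [this, Complex.ofReal_re]
  rw [integral_fin_zero, integral_fin_zero, hkin, htr]
  set ρ := rho v default with hρ
  have hρ0 : 0 ≤ ρ := by
    rw [hρ]
    unfold rho
    exact Finset.sum_nonneg fun n _ => by positivity
  set z : ℝ := Z default / √3 with hz
  have hz0 : 0 ≤ z := div_nonneg (hZ0 _) h3p.le
  have hZz : Z default = √3 * z := by
    rw [hz]
    field_simp
  set x : ℝ := ρ / σ with hx
  have hx0 : 0 ≤ x := div_nonneg hρ0 hσ.le
  have hρx : ρ = σ * x := by
    rw [hx]
    field_simp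
  rw [hZz, hρx]
  have e1 : (√3 * z) ^ 2 * (σ * x) = σ * (3 * z ^ 2 * x) := by
    rw [mul_pow, h3]
    ring
  have e2 : (σ⁻¹) ^ 2 * (σ * x) ^ 3 = σ * x ^ 3 := by
    field_simp
  have e3 : 2 / (3 * √3) * σ * (√3 * z) ^ (0 + 3) = σ * (2 * z ^ 3) := by
    have : (√3 * z) ^ (0 + 3) = √3 * (√3 ^ 2) * z ^ 3 := by ring
    rw [this, h3]
    field_simp
  rw [e1, e2, e3, zero_add, ← mul_add]
  apply mul_le_mul_of_nonneg_left _ hσ.le
  nlinarith [mul_nonneg (sq_nonneg (x - z)) (by linarith : 0 ≤ x + 2 * z)]

/-- the constants -/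
noncomputable def ll : ℕ → ℝ
  | 0 => 2 / (3 * √3)
  | (k + 1) => ll k * SS (k + 4) / (2 * π)

theorem claim_all (k : ℕ) : Claim k (ll k) := by
  induction k with
  | zero => exact claim_zero
  | succ k ih => exact claim_succ (claim'_of_claim ih)

/-- the Lieb-Thirring inequality in potential form for orthonormal families -/
theorem lt_potential {v : Fin N → (Fin (k + 1) → ℝ) → ℂ} (hv : Fam v) (ho : gram v = 1)
    {Z : (Fin (k + 1) → ℝ) → ℝ} (hZ : Continuous Z) (hZc : HasCompactSupport Z)
    (hZ0 : ∀ y, 0 ≤ Z y) :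
    ∫ y, Z y ^ 2 * rho v y ≤ kin v + ll k * (2 / π) * ∫ y, Z y ^ (k + 3) := by
  have hpi := Real.pi_pos
  obtain ⟨R1, hR10, hR1⟩ := hv.van
  obtain ⟨R2, hR20, hR2⟩ := exists_van hZc
  set R := max R1 R2 with hR
  have hRv : ∀ n, Van R (v n) := fun n => (hR1 n).1.mono (le_max_left _ _)
  have hRf : ∀ n, Van R (fderiv ℝ (v n)) := fun n => (hR1 n).2.mono (le_max_left _ _)
  have hRZ : Van R Z := hR2.mono (le_max_right _ _)
  have hR0 : 0 < R := lt_of_lt_of_le hR10 (le_max_left _ _)
  have hA := stepA hv ho hR0 hRv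
  have hcs : ∀ x : ℝ, Continuous (fun y : Fin k → ℝ => cL k (x, y)) := fun x =>
    (cL k).continuous.comp (continuous_const.prodMk continuous_id)
  have hσ0 : (0 : ℝ) < 2 / π := by positivity
  have hsl : ∀ x, ∫ y, Z (cL k (x, y)) ^ 2 * rho v (cL k (x, y)) ≤ kin (sl v x)
      + π ^ 2 / 4 * (trace (gram (sl v x) * gram (sl v x) * gram (sl v x))).re
      + ll k * (2 / π) * ∫ y, Z (cL k (x, y)) ^ (k + 3) := by
    intro x
    have h := claim_all k N (sl v x) (hv.sl x) (fun y => Z (cL k (x, y))) (hZ.comp (hcs x)) (by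
      apply HasCompactSupport.intro (isCompact_closedBall (0 : Fin k → ℝ) R)
      intro y hy
      rw [mem_closedBall_zero_iff, not_le] at hy
      exact hRZ _ (hy.le.trans (norm_cL_ge2 k x y))) (fun y => hZ0 _) (2 / π) hσ0
    have e : ((2 / π)⁻¹) ^ 2 = π ^ 2 / 4 := by
      field_simp
      norm_num
    rw [e] at h
    exact h
  have hF1c : Continuous (fun z => Z z ^ 2 * rho v z) := (hZ.pow 2).mul (continuous_rho hv)
  have hF1v : Van R (fun z => Z z ^ 2 * rho v z) := by
    intro z hz
    simp [hRZ z hz]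
  have hF2c : Continuous (fun z => Z z ^ (k + 3)) := hZ.pow _
  have hF2v : Van R (fun z => Z z ^ (k + 3)) := by
    intro z hz
    simp [hRZ z hz]
  have hi1 := integral_slice hF1c hF1v
  have hi2 := integral_slice hF2c hF2v
  have hc1 := continuous_slice hF1c hF1v
  have hc2' := continuous_slice hF2c hF2v
  have hck := continuous_kin_sl hv
  have hcg : Continuous (fun x => (trace (gram (sl v x) * gram (sl v x) * gram (sl v x))).re) := by
    have hMC : MC (fun x => gram (sl v x)) := MC.of_MD (md_gram hv)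
    exact ((hMC.mul hMC).mul hMC).re_trace
  have hle : ∫ x in (-R)..R, ∫ y, Z (cL k (x, y)) ^ 2 * rho v (cL k (x, y))
      ≤ ∫ x in (-R)..R, (kin (sl v x)
      + π ^ 2 / 4 * (trace (gram (sl v x) * gram (sl v x) * gram (sl v x))).re
      + ll k * (2 / π) * ∫ y, Z (cL k (x, y)) ^ (k + 3)) := by
    apply intervalIntegral.integral_mono_on (by linarith) (hc1.intervalIntegrable _ _)
    · exact ((hck.add (continuous_const.mul hcg)).add
        (continuous_const.mul hc2')).intervalIntegrable _ _
    · intro x _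
      exact hsl x
  have j1 : IntervalIntegrable (fun x => kin (sl v x)) volume (-R) R := hck.intervalIntegrable _ _
  have j2 : IntervalIntegrable (fun x => π ^ 2 / 4 *
      (trace (gram (sl v x) * gram (sl v x) * gram (sl v x))).re)
      volume (-R) R := (continuous_const.mul hcg).intervalIntegrable _ _
  have j3 : IntervalIntegrable (fun x => ll k * (2 / π) * ∫ y, Z (cL k (x, y)) ^ (k + 3))
      volume (-R) R := (continuous_const.mul hc2').intervalIntegrable _ _
  have j4 : IntervalIntegrable (fun x => kin (sl v x) + π ^ 2 / 4 *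
      (trace (gram (sl v x) * gram (sl v x) * gram (sl v x))).re) volume (-R) R := j1.add j2
  rw [intervalIntegral.integral_add j4 j3, intervalIntegral.integral_add j1 j2,
    intervalIntegral.integral_const_mul, intervalIntegral.integral_const_mul, ← hi1, ← hi2] at hle
  have hkin := kin_slice hv hRf
  linarith

end Pool.Agent.LiebT2
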