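import Mathlib
import Pool.Agent.LiebT2.Induct

open Real Finset MeasureTheory

set_option autoImplicit false

namespace Pool.Agent.LiebT2

/-- volume of the unit ball -/
noncomputable def om (d : ℕ) : ℝ := √π ^ d / Gamma ((d : ℝ) / 2 + 1)

theorem SS_zero : SS 0 = π := by
  unfold SS
  simp

theorem SS_one : SS 1 = 2 := by
  unfold SS
  simp only [pow_one, integral_sin, Real.cos_zero, Real.cos_pi]
  norm_num

theorem SS_gamma (n : ℕ) : SS n = √π * Gamma (((n : ℝ) + 1) / 2) / Gamma ((n : ℝ) / 2 + 1) := by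
  have hpi := Real.pi_pos
  have hsq : √π * √π = π := Real.mul_self_sqrt hpi.le
  induction n using Nat.twoStepInduction with
  | zero =>
    rw [SS_zero]
    simp only [Nat.cast_zero, zero_add, zero_div, Real.Gamma_one, Real.Gamma_one_half_eq, div_one]
    exact hsq.symm
  | one =>
    rw [SS_one]
    have h1 : ((1 : ℕ) : ℝ) / 2 + 1 = 1 / 2 + 1 := by norm_num
    have h2 : (((1 : ℕ) : ℝ) + 1) / 2 = 1 := by norm_num
    rw [h1, h2, Real.Gamma_add_one (by norm_num), Real.Gamma_one, Real.Gamma_one_half_eq]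
    have : √π ≠ 0 := (Real.sqrt_pos.mpr hpi).ne'
    field_simp
  | more n ih _ =>
    rw [SS_succ_succ, ih]
    push_cast
    have h1 : ((n : ℝ) + 2 + 1) / 2 = ((n : ℝ) + 1) / 2 + 1 := by ring
    have h2 : ((n : ℝ) + 2) / 2 + 1 = ((n : ℝ) / 2 + 1) + 1 := by ring
    rw [h1, h2, Real.Gamma_add_one (s := ((n : ℝ) + 1) / 2) (by positivity),
      Real.Gamma_add_one (s := (n : ℝ) / 2 + 1) (by positivity)]
    have g1 : Gamma ((n : ℝ) / 2 + 1) ≠ 0 := (Real.Gamma_pos_of_pos (by positivity)).ne'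
    field_simp

theorem om_pos (d : ℕ) : 0 < om d := by
  unfold om
  have h1 : 0 < Gamma ((d : ℝ) / 2 + 1) := Real.Gamma_pos_of_pos (by positivity)
  have h2 : 0 < √π := Real.sqrt_pos.mpr Real.pi_pos
  positivity

theorem om_succ (d : ℕ) : om (d + 1) = om d * SS (d + 1) := by
  rw [SS_gamma]
  unfold om
  push_cast
  have h1 : ((d : ℝ) + 1 + 1) / 2 = (d : ℝ) / 2 + 1 := by ring
  rw [h1]
  have g1 : Gamma ((d : ℝ) / 2 + 1) ≠ 0 := (Real.Gamma_pos_of_pos (by positivity)).ne'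
  have g2 : Gamma (((d : ℝ) + 1) / 2 + 1) ≠ 0 := (Real.Gamma_pos_of_pos (by positivity)).ne'
  field_simp
  ring

theorem om_one : om 1 = 2 := by
  have h := om_succ 0
  rw [zero_add] at h
  rw [h, SS_one]
  unfold om
  simp

/-- the constant in the potential form equals `(2/√3)` times the semiclassical one -/
theorem ll_eq (k : ℕ) : ll k * (2 / π) * (((k + 1 : ℕ) : ℝ) + 2) / 2
    = 2 / √3 * om (k + 1) / (2 * π) ^ (k + 1) := by
  have hpi := Real.pi_pos
  have h3p : 0 < √(3 : ℝ) := Real.sqrt_pos.mpr (by norm_num)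
  induction k with
  | zero =>
    have h : om (0 + 1) = 2 := om_one
    rw [h]
    unfold ll
    push_cast
    field_simp
    ring
  | succ k ih =>
    have e : ll (k + 1) = ll k * SS (k + 4) / (2 * π) := rfl
    have e2 : SS (k + 4) = (((k + 2 : ℕ) : ℝ) + 1) / (((k + 2 : ℕ) : ℝ) + 2) * SS (k + 2) :=
      SS_succ_succ (k + 2)
    have e3 : om (k + 1 + 1) = om (k + 1) * SS (k + 2) := om_succ (k + 1)
    have e4 : 2 / √3 * om (k + 1 + 1) / (2 * π) ^ (k + 1 + 1)
        = (2 / √3 * om (k + 1) / (2 * π) ^ (k + 1)) * (SS (k + 2) / (2 * π)) := by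
      rw [e3, pow_succ (2 * π) (k + 1)]
      field_simp
    rw [e4, ← ih, e, e2]
    push_cast
    field_simp
    ring

theorem ll_pos (k : ℕ) : 0 < ll k := by
  have hpi := Real.pi_pos
  have h3p : 0 < √(3 : ℝ) := Real.sqrt_pos.mpr (by norm_num)
  have h := ll_eq k
  have h1 : 0 < 2 / √3 * om (k + 1) / (2 * π) ^ (k + 1) := by
    have := om_pos (k + 1)
    positivity
  rw [← h] at h1
  by_contra hcon
  push Not at hcon
  have : ll k * (2 / π) * (((k + 1 : ℕ) : ℝ) + 2) / 2 ≤ 0 := by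
    have h2 : ll k * (2 / π) ≤ 0 := mul_nonpos_of_nonpos_of_nonneg hcon (by positivity)
    have h3 : ll k * (2 / π) * (((k + 1 : ℕ) : ℝ) + 2) ≤ 0 :=
      mul_nonpos_of_nonpos_of_nonneg h2 (by positivity)
    linarith
  linarith

/-- the final constant `(3/4)^{1/d} K_d^{cl}` -/
noncomputable def KK (d : ℕ) : ℝ :=
  (3 / 4) ^ (1 / (d : ℝ)) * ((d : ℝ) / ((d : ℝ) + 2) * (2 * π) ^ 2 / (om d) ^ (2 / (d : ℝ)))

/-- optimisation over the height of the potential -/
theorem opt_const (k : ℕ) {T J : ℝ} (h : ∀ s : ℝ, 0 < s →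
    s ^ 2 * J ≤ T + ll k * (2 / π) * (s ^ (k + 3) * J)) : KK (k + 1) * J ≤ T := by
  have hpi := Real.pi_pos
  have h3p : 0 < √(3 : ℝ) := Real.sqrt_pos.mpr (by norm_num)
  set d : ℝ := ((k + 1 : ℕ) : ℝ) with hd
  have hd0 : 0 < d := by rw [hd]; positivity
  set C : ℝ := ll k * (2 / π) with hC
  have hC0 : 0 < C := mul_pos (ll_pos k) (by positivity)
  have hom := om_pos (k + 1)
  set s : ℝ := (2 / (C * (d + 2))) ^ (1 / d) with hs
  have hb0 : 0 < 2 / (C * (d + 2)) := by positivity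
  have hs0 : 0 < s := Real.rpow_pos_of_pos hb0 _
  have hsd : s ^ (k + 1) = 2 / (C * (d + 2)) := by
    rw [hs, ← Real.rpow_natCast, ← Real.rpow_mul hb0.le]
    have : 1 / d * ((k + 1 : ℕ) : ℝ) = 1 := by rw [← hd]; field_simp
    rw [this, Real.rpow_one]
  have hs2 : s ^ 2 = (2 / (C * (d + 2))) ^ (2 / d) := by
    rw [hs, ← Real.rpow_natCast, ← Real.rpow_mul hb0.le]
    congr 1
    push_cast
    ring
  have hX : 2 / (C * (d + 2)) = √3 / 2 * (2 * π) ^ (k + 1) / om (k + 1) := by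
    have h1 := ll_eq k
    rw [← hC, ← hd] at h1
    have h2 : C * (d + 2) = 2 * (2 / √3 * om (k + 1) / (2 * π) ^ (k + 1)) := by linarith
    rw [h2]
    field_simp
  have hpow : ((2 * π) ^ (k + 1) : ℝ) ^ (2 / d) = (2 * π) ^ 2 := by
    rw [← Real.rpow_natCast (2 * π) (k + 1), ← Real.rpow_mul (by positivity), ← hd]
    have : d * (2 / d) = (2 : ℕ) := by field_simp; norm_num
    rw [this, Real.rpow_natCast]
  have h34 : (√3 / 2 : ℝ) ^ (2 / d) = (3 / 4) ^ (1 / d) := by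
    have e : (3 / 4 : ℝ) = (√3 / 2) ^ (2 : ℕ) := by
      rw [div_pow, Real.sq_sqrt (by norm_num)]
      norm_num
    rw [e, ← Real.rpow_natCast, ← Real.rpow_mul (by positivity)]
    congr 1
    push_cast
    ring
  have hs2' : s ^ 2 = (3 / 4) ^ (1 / d) * ((2 * π) ^ 2 / om (k + 1) ^ (2 / d)) := by
    rw [hs2, hX, Real.div_rpow (by positivity) hom.le, Real.mul_rpow (by positivity) (by positivity),
      hpow, h34]
    ring
  have hh := h s hs0
  have e1 : s ^ (k + 3) = s ^ 2 * s ^ (k + 1) := by ring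
  rw [e1, hsd] at hh
  have e2 : C * (s ^ 2 * (2 / (C * (d + 2))) * J) = s ^ 2 * (2 / (d + 2)) * J := by
    field_simp
  rw [e2] at hh
  have e3 : KK (k + 1) = s ^ 2 * (d / (d + 2)) := by
    unfold KK
    rw [← hd, hs2']
    ring
  rw [e3]
  have e4 : s ^ 2 * (d / (d + 2)) * J = s ^ 2 * J - s ^ 2 * (2 / (d + 2)) * J := by
    field_simp
    ring
  rw [e4]
  linarith

end Pool.Agent.LiebT2
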