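import Mathlib
import Pool.Agent.LiebT2.Const

open Real Finset MeasureTheory Matrix

set_option autoImplicit false

namespace Pool.Agent.LiebT2

variable {k N : ℕ}

theorem rho_nonneg (v : Fin N → (Fin k → ℝ) → ℂ) (y : Fin k → ℝ) : 0 ≤ rho v y := by
  unfold rho
  exact Finset.sum_nonneg fun n _ => by positivity

/-- kinetic form on `Fin (k+1) → ℝ` -/
theorem lt_kinetic {v : Fin N → (Fin (k + 1) → ℝ) → ℂ} (hv : Fam v) (ho : gram v = 1) :
    KK (k + 1) * ∫ y, rho v y ^ (1 + 2 / ((k + 1 : ℕ) : ℝ)) ≤ kin v := by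
  apply opt_const
  intro s hs
  obtain ⟨R, _, hR⟩ := hv.van
  set d : ℝ := ((k + 1 : ℕ) : ℝ) with hd
  have hd0 : 0 < d := by rw [hd]; positivity
  set Z : (Fin (k + 1) → ℝ) → ℝ := fun y => s * rho v y ^ (1 / d) with hZ
  have hZc : Continuous Z := by
    apply continuous_const.mul
    exact (continuous_rho hv).rpow_const fun y => Or.inr (by positivity)
  have hZs : HasCompactSupport Z := by
    apply HasCompactSupport.intro (isCompact_closedBall (0 : Fin (k + 1) → ℝ) R)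
    intro y hy
    rw [mem_closedBall_zero_iff, not_le] at hy
    rw [hZ]
    simp only
    rw [van_rho (fun n => (hR n).1) y hy.le, Real.zero_rpow (by positivity), mul_zero]
  have hZ0 : ∀ y, 0 ≤ Z y := fun y => mul_nonneg hs.le (Real.rpow_nonneg (rho_nonneg v y) _)
  have h := lt_potential hv ho hZc hZs hZ0
  have e1 : ∀ y, Z y ^ 2 * rho v y = s ^ 2 * rho v y ^ (1 + 2 / d) := by
    intro y
    have hr := rho_nonneg v y
    rw [hZ]
    simp only
    rw [mul_pow, mul_assoc]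
    congr 1
    rw [← Real.rpow_natCast (rho v y ^ (1 / d)) 2, ← Real.rpow_mul hr]
    have h2 : (1 / d * ((2 : ℕ) : ℝ)) = 2 / d := by push_cast; ring
    rw [h2, add_comm (1 : ℝ) (2 / d), Real.rpow_add_one' hr (by positivity)]
  have e2 : ∀ y, Z y ^ (k + 3) = s ^ (k + 3) * rho v y ^ (1 + 2 / d) := by
    intro y
    have hr := rho_nonneg v y
    rw [hZ]
    simp only
    rw [mul_pow]
    congr 1
    rw [← Real.rpow_natCast (rho v y ^ (1 / d)) (k + 3), ← Real.rpow_mul hr]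
    congr 1
    rw [hd]
    push_cast
    field_simp
    ring
  simp only [e1, e2] at h
  rw [integral_const_mul, integral_const_mul] at h
  exact h

/-- the set of quotients for orthonormal families in dimension `d` -/
def setK (d : ℕ) : Set ℝ := {K : ℝ | ∃ N : ℕ, ∃ u : Fin N → EuclideanSpace ℝ (Fin d) → ℂ,
          0 < N ∧
          (∀ n, ContDiff ℝ 1 (u n) ∧ HasCompactSupport (u n)) ∧
          (∀ n m, ∫ x, star (u n x) * u m x = if n = m then (1 : ℂ) else 0) ∧
          K = (∑ n, ∫ x, ∑ i : Fin d, ‖fderiv ℝ (u n) x (EuclideanSpace.single i (1 : ℝ))‖ ^ 2)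
              / ∫ x, (∑ n, ‖u n x‖ ^ 2) ^ (1 + 2 / (d : ℝ))}

/-- pull back to `Fin d → ℝ` -/
noncomputable def eE (d : ℕ) : (Fin d → ℝ) ≃L[ℝ] EuclideanSpace ℝ (Fin d) :=
  (PiLp.continuousLinearEquiv 2 ℝ (fun _ : Fin d => ℝ)).symm

theorem integral_eE {F : Type*} [NormedAddCommGroup F] [NormedSpace ℝ F] {d : ℕ}
    (g : EuclideanSpace ℝ (Fin d) → F) : ∫ x, g x = ∫ y, g (eE d y) := by
  have h := (PiLp.volume_preserving_toLp (Fin d)).integral_comp
    (MeasurableEquiv.toLp 2 (Fin d → ℝ)).measurableEmbedding g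
  rw [← h]
  rfl

theorem eE_single {d : ℕ} (i : Fin d) :
    eE d (Pi.single i 1) = EuclideanSpace.single i (1 : ℝ) := rfl

theorem fam_eE {d : ℕ} {u : Fin N → EuclideanSpace ℝ (Fin d) → ℂ}
    (hu : ∀ n, ContDiff ℝ 1 (u n) ∧ HasCompactSupport (u n)) : Fam (fun n y => u n (eE d y)) :=
  ⟨fun n => (hu n).1.comp (eE d).contDiff,
    fun n => (hu n).2.comp_homeomorph (eE d).toHomeomorph⟩

theorem fderiv_eE {d : ℕ} {u : EuclideanSpace ℝ (Fin d) → ℂ} (hu : ContDiff ℝ 1 u)
    (y : Fin d → ℝ) (i : Fin d) : fderiv ℝ (fun y => u (eE d y)) y (Pi.single i 1)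
      = fderiv ℝ u (eE d y) (EuclideanSpace.single i (1 : ℝ)) := by
  have h1 : HasFDerivAt (fun y => u (eE d y))
      ((fderiv ℝ u (eE d y)).comp (eE d).toContinuousLinearMap) y :=
    (hu.differentiable one_ne_zero (eE d y)).hasFDerivAt.comp y
      ((eE d).toContinuousLinearMap.hasFDerivAt)
  rw [h1.fderiv]
  rfl

theorem lt_euclid {u : Fin N → EuclideanSpace ℝ (Fin (k + 1)) → ℂ}
    (hu : ∀ n, ContDiff ℝ 1 (u n) ∧ HasCompactSupport (u n))
    (ho : ∀ n m, ∫ x, star (u n x) * u m x = if n = m then (1 : ℂ) else 0) :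
    KK (k + 1) * ∫ x, (∑ n, ‖u n x‖ ^ 2) ^ (1 + 2 / ((k + 1 : ℕ) : ℝ))
      ≤ ∑ n, ∫ x, ∑ i : Fin (k + 1), ‖fderiv ℝ (u n) x (EuclideanSpace.single i (1 : ℝ))‖ ^ 2 := by
  have hfam := fam_eE hu
  set v : Fin N → (Fin (k + 1) → ℝ) → ℂ := fun n y => u n (eE (k + 1) y) with hv
  have hg : gram v = 1 := by
    ext n m
    have h1 := ho m n
    rw [integral_eE] at h1
    unfold gram
    rw [Matrix.of_apply, Matrix.one_apply]
    have h2 : ∫ y, v n y * star (v m y) = ∫ y, star (v m y) * v n y := by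
      congr 1
      funext y
      ring
    rw [h2]
    rw [show (∫ y, star (v m y) * v n y) = if m = n then (1 : ℂ) else 0 from h1]
    simp only [eq_comm]
  have h := lt_kinetic hfam hg
  have e1 : ∫ x, (∑ n, ‖u n x‖ ^ 2) ^ (1 + 2 / ((k + 1 : ℕ) : ℝ))
      = ∫ y, rho v y ^ (1 + 2 / ((k + 1 : ℕ) : ℝ)) := by
    rw [integral_eE]
    rfl
  have e2 : ∑ n, ∫ x, ∑ i : Fin (k + 1), ‖fderiv ℝ (u n) x (EuclideanSpace.single i (1 : ℝ))‖ ^ 2
      = kin v := by
    rw [kin_eq hfam]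
    apply Finset.sum_congr rfl
    intro n _
    rw [integral_eE]
    congr 1
    funext y
    unfold dens1
    apply Finset.sum_congr rfl
    intro i _
    rw [hv]
    simp only
    rw [fderiv_eE (hu n).1]
  rw [e1, e2]
  exact h

theorem exists_bump (d : ℕ) : ∃ f : EuclideanSpace ℝ (Fin d) → ℂ,
    ContDiff ℝ 1 f ∧ HasCompactSupport f ∧ ∫ x, star (f x) * f x = 1 := by
  let b : ContDiffBump (0 : EuclideanSpace ℝ (Fin d)) := ⟨1, 2, one_pos, one_lt_two⟩
  have hc : ContDiff ℝ 1 (fun x => ((b x : ℝ) : ℂ)) := Complex.ofRealCLM.contDiff.comp b.contDiff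
  have hs : HasCompactSupport (fun x => ((b x : ℝ) : ℂ)) := by
    apply HasCompactSupport.intro b.hasCompactSupport
    intro x hx
    rw [image_eq_zero_of_notMem_tsupport hx]
    simp
  have hpos : 0 < ∫ x, (b x : ℝ) ^ 2 := by
    apply (b.continuous.pow 2).integral_pos_of_hasCompactSupport_nonneg_nonzero (x := 0)
    · apply HasCompactSupport.intro b.hasCompactSupport
      intro x hx
      show (b x : ℝ) ^ 2 = 0
      rw [image_eq_zero_of_notMem_tsupport hx]
      simp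
    · intro x
      show 0 ≤ (b x : ℝ) ^ 2
      positivity
    · have : (b 0 : ℝ) = 1 := b.one_of_mem_closedBall (by simp [b])
      show (b 0 : ℝ) ^ 2 ≠ 0
      rw [this]
      norm_num
  set m := ∫ x, (b x : ℝ) ^ 2 with hm
  refine ⟨fun x => (((1 / √m) : ℝ) : ℂ) * ((b x : ℝ) : ℂ), contDiff_const.mul hc, hs.mul_left, ?_⟩
  have e : ∀ x, star ((((1 / √m) : ℝ) : ℂ) * ((b x : ℝ) : ℂ)) * ((((1 / √m) : ℝ) : ℂ) * ((b x : ℝ) : ℂ))
      = ((1 / m * (b x : ℝ) ^ 2 : ℝ) : ℂ) := by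
    intro x
    have hsq : (1 / √m) ^ 2 = 1 / m := by rw [div_pow, one_pow, Real.sq_sqrt hpos.le]
    rw [← hsq, star_mul']
    simp only [RCLike.star_def, Complex.conj_ofReal]
    push_cast
    ring
  simp only [e]
  rw [integral_complex_ofReal, integral_const_mul, ← hm]
  rw [one_div, inv_mul_cancel₀ hpos.ne']
  simp

theorem setK_nonempty (d : ℕ) : (setK d).Nonempty := by
  obtain ⟨f, hf1, hf2, hf3⟩ := exists_bump d
  refine ⟨_, 1, fun _ => f, one_pos, fun _ => ⟨hf1, hf2⟩, fun n m => ?_, rfl⟩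
  rw [if_pos (Subsingleton.elim n m)]
  exact hf3

theorem setK_ge {K : ℝ} (hK : K ∈ setK (k + 1)) : KK (k + 1) ≤ K := by
  obtain ⟨N, u, hN, hu, ho, rfl⟩ := hK
  have hmain := lt_euclid hu ho
  have hcont : Continuous (fun x => (∑ n, ‖u n x‖ ^ 2) ^ (1 + 2 / ((k + 1 : ℕ) : ℝ))) := by
    have h1 : Continuous (fun x => ∑ n, ‖u n x‖ ^ 2) :=
      continuous_finsetSum _ fun n _ => ((hu n).1.continuous.norm).pow 2
    exact h1.rpow_const fun x => Or.inr (by positivity)
  have hpos : 0 < ∫ x, (∑ n, ‖u n x‖ ^ 2) ^ (1 + 2 / ((k + 1 : ℕ) : ℝ)) := by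
    have n0 : Fin N := ⟨0, hN⟩
    obtain ⟨t0, ht0⟩ : ∃ t, u n0 t ≠ 0 := by
      by_contra hcon
      push Not at hcon
      have h1 := ho n0 n0
      rw [if_pos rfl] at h1
      simp [hcon] at h1
    apply hcont.integral_pos_of_hasCompactSupport_nonneg_nonzero (x := t0)
    · have hK : IsCompact (⋃ n, tsupport (u n)) := isCompact_iUnion fun n => (hu n).2
      apply HasCompactSupport.intro hK
      intro x hx
      have : ∀ n, u n x = 0 := fun n =>
        image_eq_zero_of_notMem_tsupport fun hm => hx (Set.mem_iUnion.mpr ⟨n, hm⟩)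
      simp only [this]
      simp only [norm_zero, ne_eq, OfNat.ofNat_ne_zero, not_false_eq_true, zero_pow,
        Finset.sum_const_zero]
      exact Real.zero_rpow (by positivity)
    · intro t
      exact Real.rpow_nonneg (Finset.sum_nonneg fun n _ => by positivity) _
    · have h1 : 0 < ∑ n, ‖u n t0‖ ^ 2 := by
        apply Finset.sum_pos' (fun n _ => by positivity)
        exact ⟨n0, Finset.mem_univ _, by have := norm_pos_iff.mpr ht0; positivity⟩
      exact (Real.rpow_pos_of_pos h1 _).ne'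
  rw [le_div_iff₀ hpos]
  exact hmain

theorem vol_ball (d : ℕ) (hd : 1 ≤ d) :
    (volume (Metric.ball (0 : EuclideanSpace ℝ (Fin d)) 1)).toReal = om d := by
  have : Nonempty (Fin d) := ⟨⟨0, hd⟩⟩
  rw [EuclideanSpace.volume_ball]
  simp only [ENNReal.ofReal_one, one_pow, one_mul, Fintype.card_fin]
  rw [ENNReal.toReal_ofReal]
  · rfl
  · exact (om_pos d).le

end Pool.Agent.LiebT2
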