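import Mathlib
import Pool.Agent.LiebT2.Slice
import Pool.Agent.LiebT.Sets

open Real Finset MeasureTheory Matrix Filter Topology ComplexOrder

set_option autoImplicit false

namespace Pool.Agent.LiebT2

variable {N m : ℕ}

/-- Gram matrix of the values -/
noncomputable def GU (u : Fin N → ℝ → Fin m → ℂ) (x : ℝ) : Matrix (Fin N) (Fin N) ℂ :=
  Matrix.of fun i j => ∑ a, u i x a * star (u j x a)

/-- its derivative -/
noncomputable def GU' (u : Fin N → ℝ → Fin m → ℂ) (x : ℝ) : Matrix (Fin N) (Fin N) ℂ :=
  Matrix.of fun i j => ∑ a, (deriv (u i) x a * star (u j x a) + u i x a * star (deriv (u j) x a))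

theorem trace_DM (u : Fin N → ℝ → Fin m → ℂ) (x : ℝ) :
    trace ((∑ n, Matrix.vecMulVec (u n x) (star (u n x))) ^ 3)
      = trace (GU u x * GU u x * GU u x) := by
  set A : Matrix (Fin m) (Fin N) ℂ := Matrix.of fun a n => u n x a with hA
  have h1 : (∑ n, Matrix.vecMulVec (u n x) (star (u n x))) = A * Aᴴ := by
    ext a b
    rw [Matrix.sum_apply, Matrix.mul_apply]
    apply Finset.sum_congr rfl
    intro n _
    rfl
  have h2 : GU u x = (Aᴴ * A)ᵀ := by
    ext i j
    rw [Matrix.transpose_apply, Matrix.mul_apply]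
    show ∑ a, u i x a * star (u j x a) = _
    apply Finset.sum_congr rfl
    intro a _
    rw [Matrix.conjTranspose_apply]
    exact mul_comm _ _
  rw [h1, h2, ← Matrix.transpose_mul, ← Matrix.transpose_mul, Matrix.trace_transpose, pow_succ,
    pow_two]
  calc trace (A * Aᴴ * (A * Aᴴ) * (A * Aᴴ)) = trace (A * (Aᴴ * (A * Aᴴ) * (A * Aᴴ))) := by
        simp only [Matrix.mul_assoc]
    _ = trace ((Aᴴ * (A * Aᴴ) * (A * Aᴴ)) * A) := Matrix.trace_mul_comm _ _
    _ = trace (Aᴴ * A * (Aᴴ * A * (Aᴴ * A))) := by simp only [Matrix.mul_assoc]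

theorem hasDerivAt_comp {u : Fin N → ℝ → Fin m → ℂ} (hu : ∀ n, ContDiff ℝ 1 (u n)) (n : Fin N)
    (x : ℝ) (a : Fin m) : HasDerivAt (fun y => u n y a) (deriv (u n) x a) x := by
  have h : HasDerivAt (u n) (deriv (u n) x) x :=
    ((hu n).differentiable one_ne_zero x).hasDerivAt
  exact (hasDerivAt_pi.mp h) a

theorem md_GU {u : Fin N → ℝ → Fin m → ℂ} (hu : ∀ n, ContDiff ℝ 1 (u n)) (x : ℝ) :
    MD (GU u) (GU' u x) x := by
  intro i j
  have h : ∀ a ∈ (Finset.univ : Finset (Fin m)), HasDerivAt (fun y => u i y a * star (u j y a))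
      (deriv (u i) x a * star (u j x a) + u i x a * star (deriv (u j) x a)) x := fun a _ =>
    (hasDerivAt_comp hu i x a).mul (hasDerivAt_comp hu j x a).star
  exact HasDerivAt.fun_sum h

theorem continuous_comp {u : Fin N → ℝ → Fin m → ℂ} (hu : ∀ n, ContDiff ℝ 1 (u n)) (n : Fin N)
    (a : Fin m) : Continuous (fun x => u n x a) :=
  (continuous_apply a).comp (hu n).continuous

theorem continuous_comp' {u : Fin N → ℝ → Fin m → ℂ} (hu : ∀ n, ContDiff ℝ 1 (u n)) (n : Fin N)
    (a : Fin m) : Continuous (fun x => deriv (u n) x a) :=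
  (continuous_apply a).comp ((hu n).continuous_deriv le_rfl)

theorem mc_GU' {u : Fin N → ℝ → Fin m → ℂ} (hu : ∀ n, ContDiff ℝ 1 (u n)) : MC (GU' u) := by
  intro i j
  show Continuous (fun x => ∑ a, (deriv (u i) x a * star (u j x a)
    + u i x a * star (deriv (u j) x a)))
  exact continuous_finsetSum _ fun a _ =>
    ((continuous_comp' hu i a).mul (continuous_comp hu j a).star).add
      ((continuous_comp hu i a).mul (continuous_comp' hu j a).star)

theorem posSemidef_GU (u : Fin N → ℝ → Fin m → ℂ) (x : ℝ) : (GU u x).PosSemidef := by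
  have h : GU u x = (Matrix.of fun i a => u i x a) * (Matrix.of fun i a => u i x a)ᴴ := by
    ext i j
    rw [Matrix.mul_apply]
    rfl
  rw [h]
  exact Matrix.posSemidef_self_mul_conjTranspose _

theorem hprop_GU (u : Fin N → ℝ → Fin m → ℂ) (x : ℝ) (G : Matrix (Fin N) (Fin N) ℂ)
    (hG : G.IsHermitian) :
    2 * (trace (GU' u x * G)).re
      ≤ (∑ n, ∑ a, ‖deriv (u n) x a‖ ^ 2) + 4 * (trace (G * GU u x * G)).re := by
  have e1 : trace (GU' u x * G) = ∑ a, ∑ n, ∑ k, (deriv (u n) x a * star (u k x a)
      + u n x a * star (deriv (u k) x a)) * G k n := by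
    rw [Matrix.trace]
    calc ∑ n, (GU' u x * G).diag n = ∑ n, ∑ k, ∑ a, (deriv (u n) x a * star (u k x a)
      + u n x a * star (deriv (u k) x a)) * G k n := by
          apply Finset.sum_congr rfl
          intro n _
          rw [Matrix.diag_apply, Matrix.mul_apply]
          apply Finset.sum_congr rfl
          intro k _
          rw [← Finset.sum_mul]
          rfl
      _ = ∑ n, ∑ a, ∑ k, (deriv (u n) x a * star (u k x a)
      + u n x a * star (deriv (u k) x a)) * G k n :=
          Finset.sum_congr rfl fun n _ => Finset.sum_comm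
      _ = _ := Finset.sum_comm
  have e2 : trace (G * GU u x * G) = ∑ a, ∑ i, ∑ j, ∑ l,
      G l i * (u i x a * star (u j x a)) * G j l := by
    rw [trace_three]
    have h : ∀ i j l, G l i * GU u x i j * G j l = ∑ a, G l i * (u i x a * star (u j x a)) * G j l := by
      intro i j l
      rw [← Finset.sum_mul, ← Finset.mul_sum]
      rfl
    simp only [h]
    calc ∑ i, ∑ j, ∑ l, ∑ a, G l i * (u i x a * star (u j x a)) * G j l
        = ∑ i, ∑ j, ∑ a, ∑ l, G l i * (u i x a * star (u j x a)) * G j l :=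
          Finset.sum_congr rfl fun i _ => Finset.sum_congr rfl fun j _ => Finset.sum_comm
      _ = ∑ i, ∑ a, ∑ j, ∑ l, G l i * (u i x a * star (u j x a)) * G j l :=
          Finset.sum_congr rfl fun i _ => Finset.sum_comm
      _ = _ := Finset.sum_comm
  rw [e1, e2, Complex.re_sum, Complex.re_sum, Finset.mul_sum, Finset.mul_sum, Finset.sum_comm,
    ← Finset.sum_add_distrib]
  apply Finset.sum_le_sum
  intro a _
  exact vec_ineq (fun n => u n x a) (fun n => deriv (u n) x a) hG

/-- Sharp one-dimensional inequality for families of `ℂ^m` valued functions. -/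
theorem lt_matrix {u : Fin N → ℝ → Fin m → ℂ} (hu : ∀ n, ContDiff ℝ 1 (u n))
    (hc : ∀ n, HasCompactSupport (u n))
    (ho : ∀ n k, ∫ x, ∑ a, star (u n x a) * u k x a = if n = k then (1 : ℂ) else 0) :
    π ^ 2 / 4 * ∫ x, (trace ((∑ n, Matrix.vecMulVec (u n x) (star (u n x))) ^ 3)).re
      ≤ ∑ n, ∫ x, ∑ a, ‖deriv (u n) x a‖ ^ 2 := by
  obtain ⟨R, hR0, hR⟩ : ∃ R : ℝ, 0 < R ∧ ∀ n x, x ∉ Set.Ioo (-R) R →
      u n x = 0 ∧ deriv (u n) x = 0 := by
    have hK : IsCompact (⋃ n, tsupport (u n)) := isCompact_iUnion fun n => hc n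
    obtain ⟨R, hR⟩ := hK.isBounded.subset_closedBall 0
    refine ⟨|R| + 1, by positivity, ?_⟩
    intro n x hx
    have hx' : x ∉ tsupport (u n) := by
      intro hmem
      have := hR (Set.mem_iUnion.mpr ⟨n, hmem⟩)
      rw [mem_closedBall_zero_iff, Real.norm_eq_abs] at this
      apply hx
      have h2 : |x| < |R| + 1 := by linarith [le_abs_self R]
      exact abs_lt.mp h2
    constructor
    · exact image_eq_zero_of_notMem_tsupport hx'
    · have h3 : x ∉ tsupport (deriv (u n)) := fun hm => hx' (tsupport_deriv_subset hm)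
      exact image_eq_zero_of_notMem_tsupport h3
  have hint : ∀ {E : Type} [NormedAddCommGroup E] [NormedSpace ℝ E] (f : ℝ → E),
      (∀ x, x ∉ Set.Ioo (-R) R → f x = 0) → ∫ x, f x = ∫ x in (-R)..R, f x := by
    intro E _ _ f hf
    rw [intervalIntegral.integral_eq_integral_of_support_subset]
    intro x hx
    by_contra hcon
    apply hx
    exact hf x fun h => hcon (Set.Ioo_subset_Ioc_self h)
  have hcE : Continuous (fun x => ∑ n, ∑ a, ‖deriv (u n) x a‖ ^ 2) :=
    continuous_finsetSum _ fun n _ => continuous_finsetSum _ fun a _ =>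
      ((continuous_comp' hu n a).norm).pow 2
  have e1 : ∑ n, ∫ x, ∑ a, ‖deriv (u n) x a‖ ^ 2
      = ∫ x in (-R)..R, ∑ n, ∑ a, ‖deriv (u n) x a‖ ^ 2 := by
    rw [intervalIntegral.integral_finsetSum]
    · apply Finset.sum_congr rfl
      intro n _
      apply hint
      intro x hx
      apply Finset.sum_eq_zero
      intro a _
      rw [(hR n x hx).2]
      simp
    · intro n _
      exact (continuous_finsetSum _ fun a _ =>
        ((continuous_comp' hu n a).norm).pow 2).intervalIntegrable _ _
  have hz : ∀ x, x ∉ Set.Ioo (-R) R → GU u x = 0 := by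
    intro x hx
    ext i j
    simp [GU, (hR i x hx).1]
  have e2 : ∫ x, (trace ((∑ n, Matrix.vecMulVec (u n x) (star (u n x))) ^ 3)).re
      = ∫ x in (-R)..R, (trace (GU u x * GU u x * GU u x)).re := by
    simp only [trace_DM]
    apply hint
    intro x hx
    rw [hz x hx]
    simp
  rw [e1, e2]
  apply lemmaA (by linarith) (md_GU hu) (mc_GU' hu) (posSemidef_GU u)
  · intro i j
    rw [← hint]
    · have h1 := ho j i
      rw [Matrix.one_apply]
      simp only [eq_comm] at h1 ⊢
      rw [h1]
      congr 1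
      funext x
      apply Finset.sum_congr rfl
      intro a _
      exact mul_comm _ _
    · intro x hx
      rw [hz x hx]
      rfl
  · exact hcE.intervalIntegrable _ _
  · exact fun x G hG => hprop_GU u x G hG
  · exact hz _ (by simp)
  · exact hz _ (by simp)

/-- the set of quotients for `ℂ^m` valued families -/
def setM (m : ℕ) : Set ℝ := {K : ℝ | ∃ N : ℕ, ∃ u : Fin N → ℝ → Fin m → ℂ,
          0 < N ∧
          (∀ n, ContDiff ℝ 1 (u n) ∧ HasCompactSupport (u n)) ∧
          (∀ n k, ∫ x, ∑ a, star (u n x a) * u k x a = if n = k then (1 : ℂ) else 0) ∧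
          K = (∑ n, ∫ x, ∑ a, ‖deriv (u n) x a‖ ^ 2)
              / ∫ x, (trace ((∑ n, Matrix.vecMulVec (u n x) (star (u n x))) ^ 3)).re}

theorem setM_ge {K : ℝ} (hK : K ∈ setM m) : π ^ 2 / 4 ≤ K := by
  obtain ⟨N, u, hN, hu, ho, rfl⟩ := hK
  have hmain := lt_matrix (fun n => (hu n).1) (fun n => (hu n).2) ho
  have hcont : Continuous (fun x => (trace (GU u x * GU u x * GU u x)).re) := by
    apply Complex.continuous_re.comp
    have hG : ∀ i j, Continuous (fun x => GU u x i j) := by
      intro i j
      show Continuous (fun x => ∑ a, u i x a * star (u j x a))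
      exact continuous_finsetSum _ fun a _ => (continuous_comp (fun n => (hu n).1) i a).mul
        (continuous_comp (fun n => (hu n).1) j a).star
    have hG' : Continuous (fun x => GU u x) := continuous_pi fun i => continuous_pi fun j => hG i j
    exact ((hG'.mul hG').mul hG').matrix_trace
  have hpos : 0 < ∫ x, (trace ((∑ n, Matrix.vecMulVec (u n x) (star (u n x))) ^ 3)).re := by
    simp only [trace_DM]
    have n0 : Fin N := ⟨0, hN⟩
    obtain ⟨t0, ht0⟩ : ∃ t, u n0 t ≠ 0 := by
      by_contra hcon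
      push Not at hcon
      have h1 := ho n0 n0
      rw [if_pos rfl] at h1
      simp [hcon] at h1
    apply hcont.integral_pos_of_hasCompactSupport_nonneg_nonzero (x := t0)
    · have hK : IsCompact (⋃ n, tsupport (u n)) := isCompact_iUnion fun n => (hu n).2
      apply HasCompactSupport.intro hK
      intro x hx
      have : ∀ n, u n x = 0 := fun n =>
        image_eq_zero_of_notMem_tsupport fun hm => hx (Set.mem_iUnion.mpr ⟨n, hm⟩)
      have hz : GU u x = 0 := by
        ext i j
        simp [GU, this]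
      rw [hz]
      simp
    · intro t
      exact re_trace_cube_nonneg (posSemidef_GU u t)
    · intro h0
      have hp := posSemidef_GU u t0
      have h3 : trace ((GU u t0) ^ 3) = 0 := by
        have hh : 0 ≤ trace ((GU u t0) ^ 3) := (hp.pow 3).trace_nonneg
        have hh2 := Complex.nonneg_iff.mp hh
        apply Complex.ext
        · rw [pow_succ, pow_two]
          exact h0
        · exact hh2.2.symm
      have h4 : (GU u t0) ^ 3 = 0 := (hp.pow 3).trace_eq_zero_iff.mp h3
      have h5 : GU u t0 = 0 := by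
        have hnil : IsNilpotent (GU u t0) := ⟨3, h4⟩
        have hH : (GU u t0).IsHermitian := hp.isHermitian
        by_contra hne
        have h6 : (GU u t0) ^ 4 = 0 := by rw [pow_succ, h4, zero_mul]
        have h7 : (GU u t0) ^ 2 = 0 := by
          have h8 : ((GU u t0) ^ 2)ᴴ * (GU u t0) ^ 2 = 0 := by
            rw [Matrix.conjTranspose_pow, hH.eq, ← pow_add]
            exact h6
          exact Matrix.conjTranspose_mul_self_eq_zero.mp h8
        have h9 : (GU u t0)ᴴ * (GU u t0) = 0 := by
          rw [hH.eq, ← pow_two]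
          exact h7
        exact hne (Matrix.conjTranspose_mul_self_eq_zero.mp h9)
      have h6 := congrFun (congrFun h5 n0) n0
      have h7 : (GU u t0 n0 n0) = ((∑ a, ‖u n0 t0 a‖ ^ 2 : ℝ) : ℂ) := by
        show ∑ a, u n0 t0 a * star (u n0 t0 a) = _
        push_cast
        apply Finset.sum_congr rfl
        intro a _
        have := Complex.mul_conj (u n0 t0 a)
        rw [Complex.normSq_eq_norm_sq] at this
        rw [RCLike.star_def, this]
        push_cast
        rfl
      rw [h7] at h6
      have h8 : ∑ a, ‖u n0 t0 a‖ ^ 2 = 0 := by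
        have : ((∑ a, ‖u n0 t0 a‖ ^ 2 : ℝ) : ℂ) = ((0 : ℝ) : ℂ) := by
          rw [h6]; simp
        exact_mod_cast this
      rw [Finset.sum_eq_zero_iff_of_nonneg (fun a _ => by positivity)] at h8
      apply ht0
      funext a
      have h9 := h8 a (Finset.mem_univ a)
      have h10 : ‖u n0 t0 a‖ = 0 := by
        rcases pow_eq_zero_iff (two_ne_zero) |>.mp h9 with h
        exact h
      exact norm_eq_zero.mp h10
  rw [le_div_iff₀ hpos]
  exact hmain

end Pool.Agent.LiebT2
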