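import Mathlib
import Pool.Agent.LiebT2.MatVal

open Real Finset MeasureTheory Matrix Filter Topology ComplexOrder

set_option autoImplicit false

namespace Pool.Agent.LiebT2

variable {m : ℕ}

open Pool.Agent.LiebT in
theorem ratio_mem_M (a0 : Fin m) (k : ℕ) : (∫ x, deriv (trial k) x ^ 2) *
    (∫ x, trial k x ^ 2) ^ 2 / (∫ x, trial k x ^ 6) ∈ setM m := by
  have hcd := contDiff_trial k
  have hcs := hasCompactSupport_trial k
  have h0 : 0 < trial k 0 := by
    unfold trial
    rw [chi_eq_one (by simp), one_mul]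
    exact sq_pos 0
  have hpos : 0 < ∫ x, trial k x ^ 2 := by
    apply (hcd.continuous.pow 2).integral_pos_of_hasCompactSupport_nonneg_nonzero (x := 0)
    · apply HasCompactSupport.intro hcs
      intro x hx
      show trial k x ^ 2 = 0
      rw [image_eq_zero_of_notMem_tsupport hx]
      simp
    · intro x
      show 0 ≤ trial k x ^ 2
      positivity
    · show trial k 0 ^ 2 ≠ 0
      positivity
  set M := ∫ x, trial k x ^ 2 with hM
  set c : ℝ := 1 / √M with hc
  have hc2 : c ^ 2 = 1 / M := by rw [hc, div_pow, one_pow, Real.sq_sqrt hpos.le]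
  have hc0 : c ≠ 0 := by
    rw [hc]
    have := Real.sqrt_pos.mpr hpos
    positivity
  have hd : ∀ x, HasDerivAt (fun x => ((c * trial k x : ℝ) : ℂ)) ((c * deriv (trial k) x : ℝ) : ℂ) x :=
    fun x => (((hcd.differentiable one_ne_zero x).hasDerivAt).const_mul c).ofReal_comp
  set u : Fin 1 → ℝ → Fin m → ℂ := fun _ x => Pi.single a0 ((c * trial k x : ℝ) : ℂ) with hu
  have hud : ∀ n x, HasDerivAt (u n) (Pi.single a0 ((c * deriv (trial k) x : ℝ) : ℂ)) x := by
    intro n x
    rw [hasDerivAt_pi]
    intro a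
    by_cases ha : a = a0
    · subst ha
      simp only [hu, Pi.single_eq_same]
      exact hd x
    · simp only [hu, Pi.single_eq_of_ne ha]
      exact hasDerivAt_const x 0
  have hsum : ∀ z : ℂ, ∑ a, star ((Pi.single a0 z : Fin m → ℂ) a) * (Pi.single a0 z : Fin m → ℂ) a
      = star z * z := by
    intro z
    rw [Finset.sum_eq_single a0]
    · simp
    · intro b _ hb
      simp [Pi.single_eq_of_ne hb]
    · intro h
      exact absurd (Finset.mem_univ _) h
  have hcr : ∀ t : ℝ, star ((t : ℝ) : ℂ) * (t : ℂ) = ((t ^ 2 : ℝ) : ℂ) := by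
    intro t
    rw [RCLike.star_def, Complex.conj_ofReal]
    push_cast
    ring
  refine ⟨1, u, one_pos, fun n => ⟨?_, ?_⟩, ?_, ?_⟩
  · rw [contDiff_pi]
    intro a
    by_cases ha : a = a0
    · subst ha
      simp only [hu, Pi.single_eq_same]
      exact Complex.ofRealCLM.contDiff.comp (contDiff_const.mul hcd)
    · simp only [hu, Pi.single_eq_of_ne ha]
      exact contDiff_const
  · apply HasCompactSupport.intro hcs
    intro x hx
    simp only [hu]
    rw [image_eq_zero_of_notMem_tsupport hx]
    simp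
  · intro n k'
    rw [if_pos (Subsingleton.elim n k')]
    simp only [hu, hsum, hcr]
    rw [integral_complex_ofReal]
    have : ∫ x, (c * trial k x) ^ 2 = 1 := by
      simp only [mul_pow]
      rw [integral_const_mul, hc2, ← hM]
      field_simp
    rw [this]
    simp
  · have e1 : ∑ n : Fin 1, ∫ x, ∑ a, ‖deriv (u n) x a‖ ^ 2 = c ^ 2 * ∫ x, deriv (trial k) x ^ 2 := by
      rw [Fin.sum_univ_one, ← integral_const_mul]
      congr 1
      funext x
      rw [(hud 0 x).deriv, Finset.sum_eq_single a0]
      · rw [Pi.single_eq_same, Complex.norm_real, Real.norm_eq_abs, sq_abs, mul_pow]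
      · intro b _ hb
        simp [Pi.single_eq_of_ne hb]
      · intro h
        exact absurd (Finset.mem_univ _) h
    have e2 : ∫ x, (trace ((∑ n, Matrix.vecMulVec (u n x) (star (u n x))) ^ 3)).re
        = c ^ 6 * ∫ x, trial k x ^ 6 := by
      rw [← integral_const_mul]
      congr 1
      funext x
      rw [trace_DM]
      have h1 : GU u x = ((c ^ 2 * trial k x ^ 2 : ℝ) : ℂ) • (1 : Matrix (Fin 1) (Fin 1) ℂ) := by
        ext i j
        have hi : i = 0 := Subsingleton.elim _ _
        have hj : j = 0 := Subsingleton.elim _ _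
        subst hi hj
        have h2 : GU u x 0 0 = ∑ a, u 0 x a * star (u 0 x a) := rfl
        have h3 : ∑ a, u 0 x a * star (u 0 x a) = ∑ a, star (u 0 x a) * u 0 x a :=
          Finset.sum_congr rfl fun a _ => mul_comm _ _
        rw [h2, h3]
        simp only [hu, hsum, hcr]
        simp [mul_pow]
      rw [h1]
      simp only [Matrix.smul_mul, Matrix.mul_smul, Matrix.trace_smul, smul_eq_mul, Matrix.mul_one,
        Complex.re_ofReal_mul, Matrix.trace_one, Fintype.card_fin]
      norm_num
      ring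
    rw [e1, e2]
    have h6 : c ^ 6 = c ^ 2 * (1 / M) ^ 2 := by rw [← hc2]; ring
    rw [h6]
    have hm0 : M ≠ 0 := hpos.ne'
    by_cases hS : ∫ x, trial k x ^ 6 = 0
    · rw [hS]; simp
    · field_simp

open Pool.Agent.LiebT in
theorem sInf_setM (hm : 1 ≤ m) : sInf (setM m) = π ^ 2 / 4 := by
  have a0 : Fin m := ⟨0, hm⟩
  have hbdd : BddBelow (setM m) := ⟨π ^ 2 / 4, fun K hK => setM_ge hK⟩
  apply le_antisymm
  · apply ge_of_tendsto tendsto_ratio
    exact Eventually.of_forall fun k => csInf_le hbdd (ratio_mem_M a0 k)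
  · apply le_csInf ⟨_, ratio_mem_M a0 0⟩
    intro K hK
    exact setM_ge hK

end Pool.Agent.LiebT2
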